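import Pool.Agent.W_MP_f61043_lc.Core

/-!
# MP_f61043_lc : what the native part delivers about the forcing, with the cardinals below `κ`
-/

universe u

open Cardinal Set

namespace F61

/-- The properties of the forcing, and: `κ` is the least singular cardinal of uncountable cofinality. -/
structure CoreF2 (K L : Type u) [LinearOrder K] [LinearOrder L] (D : Type u)
    [CompleteBooleanAlgebra D] : Prop extends CoreF K L D where
  /-- every `i : K` is not a cardinal, or has countable cofinality, or is regular in the extension -/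
  least : ∀ i : K, (∃ j < i, ∃ e : K → K, ∀ x < i, ∃ y < j, e y = x) ∨
    (∃ f : ℕ → K, (∀ n, f n < i) ∧ ∀ x < i, ∃ n, x ≤ f n) ∨
    (∀ j < i, ∀ F : K → K → D, (∀ a x y, x ≠ y → F a x ⊓ F a y = ⊥) → ∀ c : D, c ≠ ⊥ →
      ∃ (b : D) (z : K), b ≠ ⊥ ∧ b ≤ c ∧ z < i ∧
        ∀ a < j, ∀ y, z ≤ y → y < i → b ⊓ F a y = ⊥)

end F61
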