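import Pool.Agent.W_MP_f61043_lc.Basic

/-!
# MP_f61043_lc : pieces

`exists_pieces` (`ℵ₁ ≤ #A ≤ #K`): if `#A = #K` use `A ≃ K` and the sets `Iio (k t)`, `t` good.  If `#A < #K` let `t` be the least
element of `W` with `#A < #(Iio (k' t))`; then `#A ≤ κ_t` (`S.card_succ`).  If `t` is the least element `κ_t = ℵ₁ ≤ #A` and one piece is
enough.  If `t` is good and not the least element, the successor of `r`: `κ_t = #(Iio (k' r)) ≤ #A`: one piece.  If `t` is not good:
`κ_s < κ_t` for `s < t`, `k t` is the supremum of the `k s`, `s < t` good, (`S.k_cont`), and `κ_s ≤ #A` for all `s < t`, so `κ_t ≤ #A`;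
`A ≃ Iio (k t)` and the pieces are the `Iio (k s)`, `s < t` good.
-/

universe u

open Cardinal Set Filter

namespace F61

open Pool.Agent.W_MP_315f31_lc

variable {W K L : Type u} [LinearOrder W] [LinearOrder K] [LinearOrder L]
  [WellFoundedLT W] [WellFoundedLT K] [WellFoundedLT L] {S : Sett W K L}

/-- `k (t + 1) = k' t` -/
theorem k_next (S : Sett W K L) {t t' : W} (h : ∀ x, x < t' ↔ x ≤ t) : S.k t' = S.k' t := by
  apply le_antisymm
  · by_contra hc
    rw [not_le] at hc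
    rcases S.k_cont t' _ hc with ⟨s, hs, hv⟩ | h1
    · exact absurd (k'_mono S ((h s).1 hs)) (not_le.2 hv)
    · exact absurd ((h t).2 le_rfl) (not_lt.2 (h1 t))
  · exact S.k'_le t t' ((h t).2 le_rfl)

/-- Sets of size between `ℵ₁` and `κ` are small unions. -/
theorem exists_pieces (S : Sett W K L) (A : Type u) (h1 : ℵ₁ ≤ #A) (h2 : #A ≤ #K) :
    ∃ (J : Type u) (P : J → Set A) (t : J → W), #J ≤ ℵ₁ ∧ (∀ a, ∃ j, a ∈ P j) ∧ (∀ j, Good (t j)) ∧
      ∀ j, #(P j) ≤ #(Iio (S.k (t j))) ∧ #(Iio (S.k (t j))) ≤ #A := by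
  have hgood : ∀ {t t' : W}, (∀ x, x < t' ↔ x ≤ t) → Good t' := fun {t t'} h =>
    Or.inr ⟨t, (h t).2 le_rfl, fun s hs => (h s).1 hs⟩
  obtain ⟨U, hU⟩ : ∃ U : Set K, U = {v | ∃ t, Good t ∧ #(Iio (S.k t)) ≤ #A ∧ v < S.k t} := ⟨_, rfl⟩
  have hs : ∀ s, #(Iio (S.k' s)) ≤ #A → Iio (S.k' s) ⊆ U := by
    intro s hs v hv
    obtain ⟨s', hs'⟩ := exists_nextW S s
    rw [hU]
    refine ⟨s', hgood hs', ?_, ?_⟩
    · rw [k_next S hs']
      exact hs
    · rw [k_next S hs']
      exact hv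
  have key : #A ≤ #U := by
    by_cases hc : ∃ t, #A ≤ #(Iio (S.k' t))
    · obtain ⟨t, ht, hmin⟩ : ∃ t, #A ≤ #(Iio (S.k' t)) ∧ ∀ s < t, #(Iio (S.k' s)) < #A := by
        refine ⟨WellFounded.min (wellFounded_lt (α := W)) {t | #A ≤ #(Iio (S.k' t))} hc,
          WellFounded.min_mem (wellFounded_lt (α := W)) {t | #A ≤ #(Iio (S.k' t))} hc, fun s h => ?_⟩
        by_contra hc'
        exact WellFounded.not_lt_min (wellFounded_lt (α := W)) {t | #A ≤ #(Iio (S.k' t))}
          (not_lt.1 hc') h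
      by_cases h3 : #(Iio (S.k t)) < #A
      · have h4 : #(Iio (S.k' t)) ≤ #A := by
          rw [S.card_succ]
          exact Order.succ_le_of_lt h3
        exact ht.trans (mk_le_mk_of_subset (hs t h4))
      · have h3' : #A ≤ #(Iio (S.k t)) := not_lt.1 h3
        refine h3'.trans (mk_le_mk_of_subset ?_)
        by_cases hb : ∀ s, t ≤ s
        · intro v hv
          rw [hU]
          exact ⟨t, Or.inl hb, (S.card_bot t hb).le.trans h1, hv⟩
        · intro v hv
          rcases S.k_cont t v hv with ⟨s, hst, hvs⟩ | h5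
          · exact hs s (hmin s hst).le hvs
          · exact absurd h5 hb
    · push Not at hc
      have h3 : U = Set.univ := by
        rw [eq_univ_iff_forall]
        intro v
        obtain ⟨t, ht⟩ := S.cofin v
        exact hs t (hc t).le ht
      rw [h3, mk_univ]
      exact h2
  obtain ⟨f⟩ := Cardinal.le_def _ _ |>.1 key
  refine ⟨{t : W // Good t ∧ #(Iio (S.k t)) ≤ #A}, fun j => {a | (f a : K) < S.k j.1}, fun j => j.1,
    ?_, ?_, fun j => j.2.1, fun j => ⟨?_, j.2.2⟩⟩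
  · rw [← S.w_card]
    exact mk_subtype_le _
  · intro a
    have h3 : (f a : K) ∈ {v | ∃ t, Good t ∧ #(Iio (S.k t)) ≤ #A ∧ v < S.k t} := by
      rw [← hU]
      exact (f a).2
    obtain ⟨t, h4, h5, h6⟩ := h3
    exact ⟨⟨t, h4, h5⟩, h6⟩
  · refine Cardinal.mk_le_of_injective (f := fun a : {a | (f a : K) < S.k j.1} =>
      (⟨(f a.1 : K), a.2⟩ : Iio (S.k j.1))) ?_
    intro a b hab
    have h3 : (f a.1 : K) = (f b.1 : K) :=
      congrArg (fun x : Iio (S.k j.1) => (x : K)) hab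
    exact Subtype.ext (f.injective (Subtype.ext h3))

end F61
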