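import Pool.Agent.W_MP_f61043_lc.Names1
import Pool.Agent.W_MP_f61043_lc.Pieces
import Pool.Agent.W_61ad90_h15.Gch

/-!
# MP_f61043_lc : GCH in the extension

`gch_of`: `B = To (succ #A)` (`W61.To`), `e : B → N` onto (if `N` is empty the assumption for `c = ⊤` gives a contradiction or `D` is trivial:
`c ≠ ⊥` is impossible for all `c`, then take any `F`), `F i = F' (e i)`, and `G` is a native map: for `i : B`, `#(Iio i) ≤ #A`
(`W61.mk_Iio_To`), see `W61.Onto.native`, `W61.covN_of`.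

`gch_P`: `A` infinite.  1. `#A = ℵ₀`: `N = Set A`, `F n a = ⊤` if `a ∈ n` and `⊥` otherwise; `dist0` for `J = A` and
`f a b = τ a` for `b = true`, `(τ a)ᶜ` for `b = false` (`ULift Bool`), see `W61.gch0`; `#N = 2 ^ ℵ₀ = succ ℵ₀`.
2. `ℵ₁ ≤ #A ≤ #K`: there is a family `A_j`, `j : J`, of subsets of `A` with `⋃ A_j = A`, `#J ≤ ℵ₁`, and for every `j` a good `t_j` with
`#(A_j) ≤ κ_{t_j} ≤ #A` (`exists_pieces`).  Let `N_j`, `F_j` be as in `names` for `X = A_j`; `N = ∀ j, N_j` has at most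
`(2 ^ #A) ^ #J = 2 ^ #A = succ #A` elements; `F n a = F_j (n j) a` for a chosen `j` with `a ∈ A_j`.  For `τ` let
`f j m = ⨅ a : A_j, eqv (τ a) (F_j m a)`; by `names` `⨆ m, f j m = ⊤` and `dist0` gives `b` and `n` with `b ≤ f j (n j)`.
(The types `N_j` for the different `j`: use `A = Σ j, N_j` for `dist0`.)
3. `succ #K ≤ #A`: `N = A → DP S`, `F n = n`: `#(DP S) ≤ 2 ^ #(Cond S) ≤ 2 ^ #L` (`mk_cond`), so
`#N ≤ (2 ^ #L) ^ #A = 2 ^ #A = succ #A`.
-/

universe u

open Cardinal Set Filter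

namespace F61

open Pool.Agent.W_MP_315f31_lc

variable {W K L : Type u} [LinearOrder W] [LinearOrder K] [LinearOrder L]
  [WellFoundedLT W] [WellFoundedLT K] [WellFoundedLT L] {S : Sett W K L}

theorem gchP_covN {A B D : Type u} [LinearOrder B] [CompleteBooleanAlgebra D] {i : B}
    (h : W61.Onto D A (Iio i)) :
    ∃ G : A → B → D, (∀ a x y, x ≠ y → G a x ⊓ G a y = ⊥) ∧ ∀ x < i, (⨆ a, G a x) = ⊤ := by
  classical
  obtain ⟨g, hg1, hg2⟩ := h
  refine ⟨fun a x => if h : x < i then g a ⟨x, h⟩ else ⊥, ?_, ?_⟩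
  · intro a x y hxy
    by_cases hx : x < i
    · by_cases hy : y < i
      · simp only [dif_pos hx, dif_pos hy]
        exact hg1 a _ _ fun h => hxy (congrArg Subtype.val h)
      · simp [hy]
    · simp [hx]
  · intro x hx
    simp only [dif_pos hx]
    exact hg2 ⟨x, hx⟩

theorem gchP_le_eqv {D : Type u} [CompleteBooleanAlgebra D] {b x y : D} (h : b ≤ W61.eqv x y) :
    b ⊓ x = b ⊓ y := by
  have key : ∀ x y : D, b ≤ W61.eqv x y → b ⊓ x ≤ b ⊓ y := by
    intro x y h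
    refine le_inf inf_le_left ?_
    calc b ⊓ x ≤ W61.eqv x y ⊓ x := inf_le_inf_right _ h
      _ = (x ⊓ y ⊓ x) ⊔ (xᶜ ⊓ yᶜ ⊓ x) := inf_sup_right _ _ _
      _ ≤ y := by
        refine sup_le (inf_le_left.trans inf_le_right) ?_
        calc xᶜ ⊓ yᶜ ⊓ x ≤ xᶜ ⊓ x := inf_le_inf_right _ inf_le_left
          _ = ⊥ := compl_inf_eq_bot
          _ ≤ y := bot_le
  have h2 : b ≤ W61.eqv y x := by
    refine h.trans (le_of_eq ?_)
    unfold W61.eqv
    rw [inf_comm x y, inf_comm xᶜ yᶜ]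
  exact le_antisymm (key x y h) (key y x h2)

theorem gchP_eqv_of {D : Type u} [CompleteBooleanAlgebra D] {b x y : D} (h : b ⊓ x = b ⊓ y) :
    b ≤ W61.eqv x y := by
  unfold W61.eqv
  have h1 : b = (b ⊓ x) ⊔ (b ⊓ xᶜ) := by
    rw [← inf_sup_left, sup_compl_eq_top, inf_top_eq]
  rw [h1]
  refine sup_le (le_sup_of_le_left ?_) (le_sup_of_le_right ?_)
  · refine le_inf inf_le_right ?_
    rw [h]
    exact inf_le_right
  · refine le_inf inf_le_right ?_
    rw [le_compl_iff_disjoint_right, disjoint_iff]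
    calc b ⊓ xᶜ ⊓ y = (b ⊓ y) ⊓ xᶜ := by rw [inf_assoc, inf_comm xᶜ y, ← inf_assoc]
      _ = (b ⊓ x) ⊓ xᶜ := by rw [h]
      _ = ⊥ := by rw [inf_assoc, inf_compl_eq_bot, inf_bot_eq]

theorem gchP_iSup_eqv {D : Type u} [CompleteBooleanAlgebra D] {X N : Type u} (F : N → X → D)
    (τ : X → D) (h : ∀ c : D, c ≠ ⊥ → ∃ (b : D) (n : N), b ≠ ⊥ ∧ b ≤ c ∧
      ∀ x, b ⊓ τ x = b ⊓ F n x) : (⨆ n, ⨅ x, W61.eqv (τ x) (F n x)) = ⊤ := by
  by_contra hne
  have hc : (⨆ n, ⨅ x, W61.eqv (τ x) (F n x))ᶜ ≠ ⊥ := fun h1 => hne (compl_eq_bot.1 h1)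
  obtain ⟨b, n, hb, hbc, hbn⟩ := h _ hc
  apply hb
  have hle : b ≤ ⨆ n, ⨅ x, W61.eqv (τ x) (F n x) :=
    le_iSup_of_le n (le_iInf fun x => gchP_eqv_of (hbn x))
  rw [← le_bot_iff]
  exact (le_inf hle hbc).trans inf_compl_eq_bot.le

theorem gch_of {D : Type u} [CompleteBooleanAlgebra D] {A N : Type u} (hN : #N ≤ Order.succ #A)
    (F' : N → A → D) (hF : ∀ (g : A → D) (c : D), c ≠ ⊥ → ∃ (b : D) (n : N), b ≠ ⊥ ∧ b ≤ c ∧
      ∀ a, b ⊓ g a = b ⊓ F' n a) :
    ∃ (B : Type u) (_ : LinearOrder B) (_ : WellFoundedLT B) (F : B → A → D),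
      (∀ g : A → D, ∀ c : D, c ≠ ⊥ → ∃ (b : D) (i : B), b ≠ ⊥ ∧ b ≤ c ∧ ∀ a, b ⊓ g a = b ⊓ F i a) ∧
      ∀ i : B, ∃ G : A → B → D, (∀ a x y, x ≠ y → G a x ⊓ G a y = ⊥) ∧ ∀ x < i, (⨆ a, G a x) = ⊤ := by
  have hO : ∀ i : W61.To (Order.succ #A), ∃ G : A → W61.To (Order.succ #A) → D,
      (∀ a x y, x ≠ y → G a x ⊓ G a y = ⊥) ∧ ∀ x < i, (⨆ a, G a x) = ⊤ := fun i =>
    gchP_covN (W61.Onto.native (W61.mk_Iio_To i))
  by_cases hne : Nonempty N
  · obtain ⟨e, he⟩ : ∃ e : W61.To (Order.succ #A) → N, Function.Surjective e := by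
      rw [← W61.mk_To (Order.succ #A)] at hN
      obtain ⟨i⟩ := Cardinal.le_def _ _ |>.1 hN
      exact ⟨Function.invFun i, Function.invFun_surjective i.injective⟩
    refine ⟨W61.To (Order.succ #A), inferInstance, inferInstance, fun i => F' (e i), ?_, hO⟩
    intro g c hc
    obtain ⟨b, n, h1, h2, h3⟩ := hF g c hc
    obtain ⟨i, rfl⟩ := he n
    exact ⟨b, i, h1, h2, h3⟩
  · refine ⟨W61.To (Order.succ #A), inferInstance, inferInstance, fun _ _ => ⊥, ?_, hO⟩
    intro g c hc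
    obtain ⟨b, n, h1, h2, h3⟩ := hF g c hc
    exact absurd ⟨n⟩ hne

/-- GCH in the extension. -/
theorem gch_P (S : Sett W K L) (A : Type u) (hA : Infinite A) :
    ∃ (B : Type u) (_ : LinearOrder B) (_ : WellFoundedLT B) (F : B → A → DP S),
      (∀ g : A → DP S, ∀ c : DP S, c ≠ ⊥ → ∃ (b : DP S) (i : B), b ≠ ⊥ ∧ b ≤ c ∧
        ∀ a, b ⊓ g a = b ⊓ F i a) ∧
      ∀ i : B, ∃ G : A → B → DP S, (∀ a x y, x ≠ y → G a x ⊓ G a y = ⊥) ∧
        ∀ x < i, (⨆ a, G a x) = ⊤ := by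
  classical
  have hA0 : ℵ₀ ≤ #A := aleph0_le_mk A
  have h2A : (2 : Cardinal.{u}) ^ #A = Order.succ #A := S.gch _ hA0
  rcases hA0.eq_or_lt with h0 | h0
  · -- countable sets
    have hT : #(Set A) ≤ Order.succ #A := by
      rw [mk_set, h2A]
    refine gch_of hT (fun n a => if a ∈ n then ⊤ else ⊥) ?_
    intro g c hc
    obtain ⟨b, s, hb, hbc, hbs⟩ := dist0 (J := A) (A := ULift.{u} Bool)
      (by rw [← h0]; exact aleph0_lt_aleph_one.le)
      (fun a b => if b.down then g a else (g a)ᶜ) c hc (by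
        intro a
        have h2 : (⨆ b : ULift.{u} Bool, (if b.down then g a else (g a)ᶜ : DP S)) = ⊤ := by
          rw [← top_le_iff, ← sup_compl_eq_top (x := g a)]
          refine sup_le ?_ ?_
          · refine le_iSup_of_le ⟨true⟩ ?_
            simp
          · refine le_iSup_of_le ⟨false⟩ ?_
            simp
        rw [h2]
        exact le_top)
    refine ⟨b, {a | (s a).down = true}, hb, hbc, fun a => ?_⟩
    have h3 := hbs a
    by_cases hs : (s a).down = true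
    · rw [if_pos (show a ∈ {a | (s a).down = true} from hs), inf_top_eq]
      rw [if_pos hs] at h3
      exact inf_eq_left.2 h3
    · rw [if_neg (show a ∉ {a | (s a).down = true} from hs), inf_bot_eq]
      rw [if_neg hs] at h3
      rw [← disjoint_iff]
      exact le_compl_iff_disjoint_right.1 h3
  have h1 : ℵ₁ ≤ #A := by
    rw [← succ_aleph0]
    exact Order.succ_le_of_lt h0
  rcases le_or_gt #A #K with h2 | h2
  · -- between `ℵ₁` and `κ`
    obtain ⟨J, P, t, hJ, hP, ht, hPt⟩ := exists_pieces S A h1 h2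
    choose N F hN hF using fun j => names (S := S) (ht j) (X := P j) (hPt j).1
    have hT : #(∀ j, N j) ≤ Order.succ #A := by
      rw [mk_pi]
      have h3 : ∀ j, #(N j) ≤ 2 ^ #A := fun j =>
        (hN j).trans (power_le_power_left two_ne_zero (hPt j).2)
      calc prod (fun j => #(N j)) ≤ prod (fun _ : J => (2 : Cardinal.{u}) ^ #A) :=
            prod_le_prod _ _ h3
        _ = (2 ^ #A) ^ #J := by rw [prod_const']
        _ ≤ (2 ^ #A) ^ #A := power_le_power_left (power_ne_zero _ two_ne_zero) (hJ.trans h1)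
        _ = Order.succ #A := by rw [← power_mul, mul_eq_self hA0, h2A]
    choose jj hjj using hP
    refine gch_of hT (fun n a => F (jj a) (n (jj a)) ⟨a, hjj a⟩) ?_
    intro g c hc
    have hne : ∀ j, Nonempty (N j) := fun j => by
      obtain ⟨b, n, -⟩ := hF j (fun x => g x) c hc
      exact ⟨n⟩
    let n0 : ∀ j, N j := fun j => (hne j).some
    obtain ⟨b, G, hb, hbc, hbG⟩ := dist0 (J := J) (A := ∀ j, N j) hJ
      (fun j n => ⨅ x : P j, W61.eqv (g x) (F j (n j) x)) c hc (by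
        intro j
        have h3 := gchP_iSup_eqv (F j) (fun x : P j => g x) (hF j (fun x => g x))
        refine le_top.trans (h3.ge.trans ?_)
        refine iSup_le fun m => ?_
        refine le_iSup_of_le (Function.update n0 j m) ?_
        rw [Function.update_self])
    refine ⟨b, fun j => G j j, hb, hbc, fun a => ?_⟩
    apply gchP_le_eqv
    exact (hbG (jj a)).trans (iInf_le _ (⟨a, hjj a⟩ : P (jj a)))
  · -- above `κ`
    have hD : #(DP S) ≤ 2 ^ #A := by
      have h3 : #(DP S) ≤ #(Set (Cond S)) := Cardinal.mk_subtype_le _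
      refine h3.trans ?_
      rw [mk_set]
      refine power_le_power_left two_ne_zero ((mk_cond S).trans ?_)
      rw [S.cardL]
      exact Order.succ_le_of_lt h2
    have hT : #(A → DP S) ≤ Order.succ #A := by
      rw [← power_def]
      calc (#(DP S)) ^ #A ≤ ((2 : Cardinal.{u}) ^ #A) ^ #A := power_le_power_right hD
        _ = Order.succ #A := by rw [← power_mul, mul_eq_self hA0, h2A]
    exact gch_of hT (fun n a => n a) fun g c hc => ⟨c, g, hc, le_rfl, fun _ => rfl⟩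

end F61
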