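import Pool.Agent.W_MP_f61043_lc.Rel
import Pool.Agent.W_MP_f61043_lc.GchP

/-!
# MP_f61043_lc : the properties of the forcing

`coreF`: `sing`: `i = k t0` for the least element `t0` of `W` has `ℵ₁` predecessors, so there is a map `e` of `Iio i` onto `{k' t}`.
`cof`: `exists_boundW` for `lev (f n)`.  `dist`: `dist0` for `ULift ℕ`.
-/

universe u

open Cardinal Set Filter

namespace F61

open Pool.Agent.W_MP_315f31_lc

variable {W K L : Type u} [LinearOrder W] [LinearOrder K] [LinearOrder L]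
  [WellFoundedLT W] [WellFoundedLT K] [WellFoundedLT L] {S : Sett W K L}

/-- `K` has a small cofinal subset. -/
theorem sing_P (S : Sett W K L) : ∃ (i : K) (e : K → K), ∀ x, ∃ y < i, x ≤ e y := by
  classical
  obtain ⟨t0, h0⟩ := exists_leastW S
  have h1 : #(Iio (S.k t0)) = #W := by rw [S.card_bot t0 h0, S.w_card]
  obtain ⟨σ⟩ := Cardinal.eq.1 h1
  refine ⟨S.k t0, fun y => if h : y ∈ Iio (S.k t0) then S.k' (σ ⟨y, h⟩) else S.k t0, fun x => ?_⟩
  obtain ⟨t, ht⟩ := S.cofin x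
  refine ⟨(σ.symm t).1, (σ.symm t).2, ?_⟩
  have h2 : (σ.symm t).1 ∈ Iio (S.k t0) := (σ.symm t).2
  have h4 : (if h : (σ.symm t).1 ∈ Iio (S.k t0) then S.k' (σ ⟨(σ.symm t).1, h⟩) else S.k t0) = S.k' t := by
    rw [dif_pos h2]
    have h3 : (⟨(σ.symm t).1, h2⟩ : Iio (S.k t0)) = σ.symm t := rfl
    rw [h3, Equiv.apply_symm_apply]
  exact ht.le.trans h4.ge

/-- The cofinality of `K` is uncountable. -/
theorem cof_P (S : Sett W K L) (f : ℕ → K) : ∃ x, ∀ n, f n < x := by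
  obtain ⟨t, ht⟩ := exists_boundW S fun n => lev S (f n)
  exact ⟨S.k t, fun n => (lt_k'_lev S (f n)).trans_le (S.k'_le _ _ (ht n))⟩

/-- The proper initial segments of `L` are images of `K`. -/
theorem segL_P (S : Sett W K L) (x : L) : ∃ e : K → L, ∀ y < x, ∃ z, e z = y := by
  classical
  obtain ⟨σ⟩ := Cardinal.le_def _ _ |>.1 (S.segL x)
  refine ⟨fun z => if h : ∃ y : Iio x, σ y = z then h.choose.1 else x, fun y hy => ?_⟩
  have hex : ∃ y' : Iio x, σ y' = σ ⟨y, hy⟩ := ⟨⟨y, hy⟩, rfl⟩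
  refine ⟨σ ⟨y, hy⟩, ?_⟩
  show (if h : ∃ y' : Iio x, σ y' = σ ⟨y, hy⟩ then h.choose.1 else x) = y
  rw [dif_pos hex]
  have h1 := σ.injective hex.choose_spec
  rw [h1]

/-- No new `ω`-sequences. -/
theorem dist_P (S : Sett W K L) (A : Type u) (f : ℕ → A → DP S) (hf : ∀ n, (⨆ a, f n a) = ⊤)
    (c : DP S) (hc : c ≠ ⊥) : ∃ (b : DP S) (g : ℕ → A), b ≠ ⊥ ∧ b ≤ c ∧ ∀ n, b ≤ f n (g n) := by
  have hJ : #(ULift.{u} ℕ) ≤ ℵ₁ := by
    rw [mk_uLift, mk_nat, lift_aleph0]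
    exact aleph0_lt_aleph_one.le
  obtain ⟨b, g, h1, h2, h3⟩ := dist0 (S := S) hJ (fun n : ULift.{u} ℕ => f n.down) c hc
    (fun n => by rw [hf]; exact le_top)
  exact ⟨b, fun n => g ⟨n⟩, h1, h2, fun n => h3 ⟨n⟩⟩

theorem coreF (S : Sett W K L) : CoreF K L (DP S) where
  infK := Cardinal.infinite_iff.2 (aleph0_le_K S)
  sing := sing_P S
  cof := cof_P S
  segL := segL_P S
  dist := dist_P S
  cardK := cardK_P
  cardL := cardL_P
  gch := fun A _ _ hA => gch_P S A hA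
  rel := rel_P S

theorem top_ne_bot_DP (S : Sett W K L) : (⊤ : DP S) ≠ ⊥ := by
  obtain ⟨p⟩ := nonempty_cond S
  intro h
  exact io_ne_bot (L := Le (S := S)) p (le_bot_iff.1 (h ▸ le_top))

end F61
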