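import Pool.Agent.W_MP_f61043_lc.CardsK
import Pool.Agent.W_MP_f61043_lc.Pieces

/-!
# MP_f61043_lc : the cardinals below `κ` are regular or have countable cofinality

So `κ` is the least singular cardinal of uncountable cofinality of the extension.
-/

universe u

open Cardinal Set Filter

namespace F61

open Pool.Agent.W_MP_315f31_lc

variable {W K L : Type u} [LinearOrder W] [LinearOrder K] [LinearOrder L]
  [WellFoundedLT W] [WellFoundedLT K] [WellFoundedLT L] {S : Sett W K L}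

/-- Bounds for few pieces give a bound. -/
theorem glue {J : Type u} (hJ : #J ≤ ℵ₁) (P : J → Set K) {i : K} (F : K → K → DP S)
    (hreg : ∀ g : J → K, (∀ j, g j < i) → ∃ z < i, ∀ j, g j ≤ z)
    (hb : ∀ j, ∀ c : DP S, c ≠ ⊥ → ∃ (b : DP S) (z : K), b ≠ ⊥ ∧ b ≤ c ∧ z < i ∧
      ∀ a ∈ P j, ∀ y, z ≤ y → y < i → b ⊓ F a y = ⊥) (c : DP S) (hc : c ≠ ⊥) :
    ∃ (b : DP S) (z : K), b ≠ ⊥ ∧ b ≤ c ∧ z < i ∧
      ∀ j, ∀ a ∈ P j, ∀ y, z ≤ y → y < i → b ⊓ F a y = ⊥ := by
  set f : J → Iio i → DP S := fun j z =>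
    (⨆ a : P j, ⨆ y : {y // z.1 ≤ y ∧ y < i}, F a.1 y.1)ᶜ with hf
  have hfle : ∀ j z (b : DP S), b ≤ f j z ↔ ∀ a ∈ P j, ∀ y, z.1 ≤ y → y < i → b ⊓ F a y = ⊥ := by
    intro j z b
    rw [hf, le_compl_iff_disjoint_right, disjoint_iSup_iff]
    simp only [disjoint_iSup_iff]
    constructor
    · intro h a ha y hy hy'
      exact disjoint_iff.1 (h ⟨a, ha⟩ ⟨y, hy, hy'⟩)
    · intro h a y
      exact disjoint_iff.2 (h a.1 a.2 y.1 y.2.1 y.2.2)
  have hcov : ∀ j, c ≤ ⨆ z, f j z := by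
    intro j
    by_contra hcon
    have hu : c ⊓ (⨆ z, f j z)ᶜ ≠ ⊥ := by
      intro h
      apply hcon
      rw [← disjoint_iff, disjoint_compl_right_iff] at h
      exact h
    obtain ⟨b, z, hb0, hbu, hz, hbz⟩ := hb j _ hu
    have h1 : b ≤ f j ⟨z, hz⟩ := (hfle _ _ _).2 hbz
    apply hb0
    have h2 : b ≤ (⨆ z, f j z) := h1.trans (le_iSup (f j) _)
    have h3 : b ≤ (⨆ z, f j z)ᶜ := hbu.trans inf_le_right
    have h4 : b ≤ (⨆ z, f j z) ⊓ (⨆ z, f j z)ᶜ := le_inf h2 h3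
    rw [inf_compl_eq_bot] at h4
    exact le_bot_iff.1 h4
  obtain ⟨b, g, hb0, hbc, hg⟩ := dist0 (S := S) hJ f c hc hcov
  obtain ⟨z, hz, hgz⟩ := hreg (fun j => (g j).1) fun j => (g j).2
  exact ⟨b, z, hb0, hbc, hz, fun j a ha y hy hy' => (hfle _ _ _).1 (hg j) a ha y ((hgz j).trans hy) hy'⟩

/-- The elements `i` of `K` : `i` is not a cardinal, or has countable cofinality, or is regular in the
extension. -/
theorem least_P (S : Sett W K L) (i : K) :
    (∃ j < i, ∃ e : K → K, ∀ x < i, ∃ y < j, e y = x) ∨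
    (∃ f : ℕ → K, (∀ n, f n < i) ∧ ∀ x < i, ∃ n, x ≤ f n) ∨
    (∀ j < i, ∀ F : K → K → DP S, (∀ a x y, x ≠ y → F a x ⊓ F a y = ⊥) → ∀ c : DP S, c ≠ ⊥ →
      ∃ (b : DP S) (z : K), b ≠ ⊥ ∧ b ≤ c ∧ z < i ∧
        ∀ a < j, ∀ y, z ≤ y → y < i → b ⊓ F a y = ⊥) := by
  classical
  by_cases h0 : ∃ j, j < i
  swap
  · exact Or.inr (Or.inr fun j hj => absurd ⟨j, hj⟩ h0)
  by_cases h1 : ∃ j < i, #(Iio i) ≤ #(Iio j)
  · obtain ⟨j, hj, hle⟩ := h1
    left
    refine ⟨j, hj, ?_⟩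
    obtain ⟨x0, hx0⟩ := h0
    obtain ⟨f⟩ := (Cardinal.le_def _ _).1 hle
    refine ⟨fun y => if h : ∃ x : Iio i, (f x).1 = y then h.choose.1 else y, fun x hx => ?_⟩
    refine ⟨(f ⟨x, hx⟩).1, (f ⟨x, hx⟩).2, ?_⟩
    have h2 : ∃ x' : Iio i, (f x').1 = (f ⟨x, hx⟩).1 := ⟨⟨x, hx⟩, rfl⟩
    show (if h : ∃ x' : Iio i, (f x').1 = (f ⟨x, hx⟩).1 then h.choose.1 else _) = x
    rw [dif_pos h2]
    have h3 := f.injective (Subtype.ext h2.choose_spec)
    exact congrArg Subtype.val h3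
  push Not at h1
  by_cases h2 : #(Iio i) ≤ ℵ₀
  · -- countable
    right; left
    have hc : (Iio i).Countable := Cardinal.le_aleph0_iff_set_countable.1 h2
    obtain ⟨f, hf⟩ := hc.exists_eq_range h0
    refine ⟨f, fun n => ?_, fun x hx => ?_⟩
    · have : f n ∈ Iio i := by rw [hf]; exact mem_range_self n
      exact this
    · have : x ∈ range f := by rw [← hf]; exact hx
      obtain ⟨n, hn⟩ := this
      exact ⟨n, hn.ge⟩
  have h3 : ℵ₁ ≤ #(Iio i) := by
    rw [← succ_aleph0]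
    exact Order.succ_le_of_lt (not_le.1 h2)
  have hinf : ℵ₀ ≤ #(Iio i) := aleph0_lt_aleph_one.le.trans h3
  have hIic : ∀ x < i, #(Iic x) < #(Iio i) := by
    intro x hx
    have h4 : Iic x = insert x (Iio x) := by
      ext y
      simp [le_iff_eq_or_lt]
    rw [h4]
    refine (mk_insert_le).trans_lt ?_
    exact add_lt_of_lt hinf (h1 x hx) (one_lt_aleph0.trans_le hinf)
  have hlim : ∀ x < i, ∃ y, x < y ∧ y < i := by
    intro x hx
    by_contra hc
    push Not at hc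
    have h4 : Iio i ⊆ Iic x := fun y hy => not_lt.1 fun h => absurd hy (not_lt.2 (hc y h))
    exact absurd (mk_le_mk_of_subset h4) (not_le.2 (hIic x hx))
  -- the case of `ω₁`
  have hω1 : #(Iio i) = ℵ₁ → ∀ j < i, ∀ F : K → K → DP S, (∀ a x y, x ≠ y → F a x ⊓ F a y = ⊥) →
      ∀ c : DP S, c ≠ ⊥ → ∃ (b : DP S) (z : K), b ≠ ⊥ ∧ b ≤ c ∧ z < i ∧
        ∀ a < j, ∀ y, z ≤ y → y < i → b ⊓ F a y = ⊥ := by
    intro hi j hj F hF c hc
    have hjc : #(Iio j) ≤ ℵ₀ := by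
      have h5 := h1 j hj
      rw [hi, ← succ_aleph0] at h5
      exact Order.lt_succ_iff.1 h5
    have hreg : ∀ g : Iio j → K, (∀ a, g a < i) → ∃ z < i, ∀ a, g a ≤ z := by
      intro g hg
      by_contra hcon
      push Not at hcon
      have hU : Iio i ⊆ ⋃ a, Iic (g a) := by
        intro x hx
        obtain ⟨a, ha⟩ := hcon x hx
        exact mem_iUnion.2 ⟨a, ha.le⟩
      have h6 : ∀ a, #(Iic (g a)) ≤ ℵ₀ := by
        intro a
        have h7 := hIic _ (hg a)
        rw [hi, ← succ_aleph0] at h7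
        exact Order.lt_succ_iff.1 h7
      have h8 : #(Iio i) ≤ ℵ₀ := by
        refine (mk_le_mk_of_subset hU).trans ((mk_iUnion_le _).trans ?_)
        exact (mul_le_mul' hjc (ciSup_le' h6)).trans (mul_eq_self le_rfl).le
      exact h2 h8
    obtain ⟨b, z, hb0, hbc, hz, hbz⟩ := glue (S := S) (hjc.trans aleph0_lt_aleph_one.le)
      (fun a : Iio j => {a.1}) F hreg (by
        intro a c hc
        by_cases hy : ∃ y < i, c ⊓ F a.1 y ≠ ⊥
        · obtain ⟨y, hy, hy'⟩ := hy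
          obtain ⟨z, hz, hz'⟩ := hlim y hy
          refine ⟨c ⊓ F a.1 y, z, hy', inf_le_left, hz', ?_⟩
          rintro a' rfl y' hzy hy'i
          rw [inf_assoc, hF _ _ _ (hz.trans_le hzy).ne, inf_bot_eq]
        · push Not at hy
          obtain ⟨x0, hx0⟩ := h0
          refine ⟨c, x0, hc, le_rfl, hx0, ?_⟩
          rintro a' rfl y' _ hy'i
          exact hy y' hy'i) c hc
    exact ⟨b, z, hb0, hbc, hz, fun a ha y hy hy' => hbz ⟨a, ha⟩ a rfl y hy hy'⟩
  -- the level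
  have hil : i ≤ S.k (lev S i) := by
    by_contra hc
    exact absurd (S.card_le _ _ (lt_k'_lev S i)) (not_le.2 (h1 _ (not_le.1 hc)))
  rcases hil.eq_or_lt with hik | hik
  swap
  · by_cases ht : ∀ s, lev S i ≤ s
    · right; right
      apply hω1
      refine le_antisymm ?_ h3
      rw [← S.card_bot _ ht]
      exact mk_le_mk_of_subset (Iio_subset_Iio hik.le)
    · exact absurd (lev_lt_of_lt_k S hik ht) (lt_irrefl _)
  generalize lev S i = t at hik
  by_cases ht : ∀ s, t ≤ s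
  · right; right
    apply hω1
    rw [hik]
    exact S.card_bot t ht
  by_cases hs : ∃ s, s < t ∧ ∀ r, r < t → r ≤ s
  · -- `i = k' s`
    obtain ⟨s, hst, hs⟩ := hs
    have his : i = S.k' s := by
      rw [hik]
      refine le_antisymm ?_ (S.k'_le s t hst)
      by_contra hc
      rcases S.k_cont t _ (not_le.1 hc) with ⟨r, hr, hr'⟩ | h
      · exact absurd (hr'.trans_le (k'_mono S (hs r hr))) (lt_irrefl _)
      · exact ht h
    right; right
    intro j hj F hF c hc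
    have hjs : #(Iio j) ≤ #(Iio (S.k s)) := S.card_le s j (by rw [← his]; exact hj)
    obtain ⟨emb⟩ := (Cardinal.le_def _ _).1 hjs
    obtain ⟨J, P, tt, hJ, hcov, hgood, hP⟩ := exists_pieces S (Iio (S.k s)) (aleph_one_le_ck S s)
      (ck_lt_K S s).le
    have hJs : #J ≤ #(Iio (S.k s)) := hJ.trans (aleph_one_le_ck S s)
    obtain ⟨b, z, hb0, hbc, hz, hbz⟩ := glue (S := S) (i := i) hJ
      (fun l => {a | ∃ h : a < j, emb ⟨a, h⟩ ∈ P l}) F (by
        intro g hg
        obtain ⟨z, hz, hz'⟩ := regK S s g (fun l => by rw [← his]; exact hg l) hJs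
        exact ⟨z, by rw [his]; exact hz, fun l => (hz' l).le⟩) (by
        intro l c hc
        have hX : #({a : Iio j | emb a ∈ P l}) ≤ #(Iio (S.k (tt l))) := by
          refine (Cardinal.mk_le_of_injective (f := fun a : {a : Iio j | emb a ∈ P l} =>
            (⟨emb a.1, a.2⟩ : P l)) ?_).trans (hP l).1
          intro a a' haa
          exact Subtype.ext (emb.injective (congrArg Subtype.val haa))
        obtain ⟨b, Z, hb0, hbc, hZ, hbZ⟩ := bd (S := S) (hgood l) hX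
          (fun a y => F a.1.1 y) (fun a y y' hy => hF _ y y' hy) c hc
        obtain ⟨z, hz, hz'⟩ := regK S s (J := {y : Z | y.1 < S.k' s}) (fun y => y.1.1)
          (fun y => y.2) ((mk_subtype_le _).trans (hZ.trans (hP l).2))
        refine ⟨b, z, hb0, hbc, by rw [his]; exact hz, ?_⟩
        rintro a ⟨ha, ha'⟩ y hzy hyi
        refine hbZ ⟨⟨a, ha⟩, ha'⟩ y fun hyZ => ?_
        exact absurd (hz' ⟨⟨y, hyZ⟩, by rw [← his]; exact hyi⟩) (not_lt.2 hzy)) c hc
    refine ⟨b, z, hb0, hbc, hz, fun a ha y hy hy' => ?_⟩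
    obtain ⟨l, hl⟩ := hcov (emb ⟨a, ha⟩)
    exact hbz l a ⟨ha, hl⟩ y hy hy'
  · -- `t` is a limit
    right; left
    push Not at hs
    have hne : (Iio t).Nonempty := by
      by_contra hc
      apply ht
      intro r
      by_contra hr
      exact hc ⟨r, not_le.1 hr⟩
    obtain ⟨f, hf⟩ := (S.w_ctbl t).exists_eq_range hne
    refine ⟨fun n => S.k' (f n), fun n => ?_, fun x hx => ?_⟩
    · have hn : f n ∈ Iio t := by rw [hf]; exact mem_range_self n
      obtain ⟨r, hr, hr'⟩ := hs (f n) hn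
      rw [hik]
      exact (S.k'_le _ _ hr').trans_lt ((S.k_lt r).trans_le (S.k'_le r t hr))
    · rw [hik] at hx
      rcases S.k_cont t x hx with ⟨r, hr, hr'⟩ | h
      · have hr2 : r ∈ range f := by rw [← hf]; exact hr
        obtain ⟨n, hn⟩ := hr2
        exact ⟨n, by show x ≤ S.k' (f n); rw [hn]; exact hr'.le⟩
      · exact absurd h ht

end F61
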