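import Pool.Agent.W_MP_f61043_lc.Rank

/-!
# MP_f61043_lc : the bad set and the chains

`card_bad`: the map `nxt` is injective on the set `{α | lev α = t, α < g ξ t}` for `t ≥ ts` (`nxt_inj`; `t` is not the least
element) and lowers the level (`lev_nxt`).  By strong induction on `t`: `#{α | lev α = t ∧ BadC α} ≤ κ_ts`: for `t < ts` the set is
contained in `Iio (k ts)` (`α < k' t ≤ k ts`); for `t ≥ ts`, `nxt` maps the set injectively into the union over the countably many `s < t`
of the sets for `s`.  Finally take the union over the `ℵ₁` elements `t` of `W`.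

`Ch.mono`: `q ≤ p`: by induction; `q.g ξ = p.g ξ`, `p.γ ≤ q.γ`, `q.w t x z = p.w t x z` for `z ≤ p.γ t`, `nxt_congr`.
(For `stop`: `q.w t (g ξ t) α = p.w t (g ξ t) α` as `α ≤ p.γ t`.)
`Ch.det`: by induction on the first and cases on the second.
-/

universe u

open Cardinal Set Filter

namespace F61

open Pool.Agent.W_MP_315f31_lc

variable {W K L : Type u} [LinearOrder W] [LinearOrder K] [LinearOrder L]
  [WellFoundedLT W] [WellFoundedLT K] [WellFoundedLT L] {S : Sett W K L}

/-- The chain of `α` reaches a level `< ts`. -/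
inductive BadC (pr : K → K → K) (p : Cond S) (ξ : L) (ts : W) : K → Prop
  | low (α : K) : lev S α < ts → BadC pr p ξ ts α
  | step (α : K) : ts ≤ lev S α → α < p.g ξ (lev S α) →
      BadC pr p ξ ts (nxt S pr (p.w (lev S α)) (p.g ξ (lev S α)) α) → BadC pr p ξ ts α

theorem card_bad {pr : K → K → K} (hpr : IsPr S pr) (p : Cond S) (ξ : L) (ts : W)
    (h0 : ¬ ∀ s, ts ≤ s) (hts : ∀ t, ts ≤ t → p.g ξ t ≤ p.γ t) :
    #{α | BadC pr p ξ ts α} ≤ #(Iio (S.k ts)) := by
  have hk0 := aleph0_le_ck S ts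
  have hlev : ∀ t : W, #{α : K | lev S α = t ∧ BadC pr p ξ ts α} ≤ #(Iio (S.k ts)) := by
    intro t
    induction t using WellFoundedLT.induction with
    | ind t ih =>
      rcases lt_or_ge t ts with hlt | hge
      · refine mk_le_mk_of_subset ?_
        rintro α ⟨h1, -⟩
        have h2 := lt_k'_lev S α
        rw [h1] at h2
        exact h2.trans_le (S.k'_le t ts hlt)
      · have ht : ¬ ∀ s, t ≤ s := fun h => h0 fun s => hge.trans (h s)
        have hstep : ∀ α, lev S α = t → BadC pr p ξ ts α → α < p.g ξ t ∧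
            BadC pr p ξ ts (nxt S pr (p.w t) (p.g ξ t) α) := by
          intro α h1 h2
          cases h2 with
          | low _ h3 =>
            rw [h1] at h3
            exact absurd h3 (not_lt.2 hge)
          | step _ h3 h4 h5 =>
            rw [h1] at h4 h5
            exact ⟨h4, h5⟩
        have hU : #(⋃ s : Iio t, {α : K | lev S α = s.1 ∧ BadC pr p ξ ts α}) ≤
            #(Iio (S.k ts)) := by
          refine (mk_iUnion_le _).trans ?_
          refine (mul_le_mul' ((Cardinal.le_aleph0_iff_set_countable.2 (S.w_ctbl t)).trans hk0)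
            (ciSup_le' fun s : Iio t => ih s.1 s.2)).trans (mul_eq_self hk0).le
        refine le_trans ?_ hU
        refine mk_le_of_injective
          (f := fun α : {α : K | lev S α = t ∧ BadC pr p ξ ts α} =>
            (⟨nxt S pr (p.w t) (p.g ξ t) α.1, ?_⟩ :
              (⋃ s : Iio t, {α : K | lev S α = s.1 ∧ BadC pr p ξ ts α} : Set K))) ?_
        · obtain ⟨h1, h2⟩ := hstep α.1 α.2.1 α.2.2
          have h3 := lev_nxt hpr (p.str t) ht h1 (hts t hge)
          exact mem_iUnion.2 ⟨⟨_, h3.2⟩, rfl, h2⟩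
        · intro α α' h1
          have h2 : nxt S pr (p.w t) (p.g ξ t) α.1 = nxt S pr (p.w t) (p.g ξ t) α'.1 :=
            congrArg Subtype.val h1
          exact Subtype.ext (nxt_inj hpr (p.str t) ht (hstep α.1 α.2.1 α.2.2).1
            (hstep α'.1 α'.2.1 α'.2.2).1 (hts t hge) h2)
  have hU : {α | BadC pr p ξ ts α} ⊆ ⋃ t : W, {α : K | lev S α = t ∧ BadC pr p ξ ts α} :=
    fun α hα => mem_iUnion.2 ⟨lev S α, rfl, hα⟩
  refine (mk_le_mk_of_subset hU).trans ((mk_iUnion_le _).trans ?_)
  refine (mul_le_mul' (S.w_card.le.trans (aleph_one_le_ck S ts)) (ciSup_le' hlev)).trans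
    (mul_eq_self hk0).le

theorem Ch.mono {pr : K → K → K} {e : W → Finset W → Bool} {p q : Cond S} (h : Le q p) {ξ : L}
    (hξ : ξ ≤ p.ζ) {α : K} {c : Bool} (hc : Ch pr e p ξ α c) : Ch pr e q ξ α c := by
  obtain ⟨-, hg, hγ, hw⟩ := h
  have hg' := hg ξ hξ
  induction hc with
  | stop α h1 h2 =>
    have h3 : p.w (lev S α) (p.g ξ (lev S α)) α = q.w (lev S α) (q.g ξ (lev S α)) α := by
      rw [hg', hw _ _ _ h2]
    rw [h3]
    refine Ch.stop α ?_ (h2.trans (hγ _))
    rw [hg']
    exact h1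
  | zero α h1 h2 =>
    refine Ch.zero α ?_ h2
    rw [hg']
    exact h1
  | step α c h1 h2 h3 _ ih =>
    refine Ch.step α c ?_ ?_ h3 ?_
    · rw [hg']
      exact h1
    · rw [hg']
      exact h2.trans (hγ _)
    · have h4 : nxt S pr (q.w (lev S α)) (q.g ξ (lev S α)) α =
          nxt S pr (p.w (lev S α)) (p.g ξ (lev S α)) α := by
        rw [hg']
        exact nxt_congr S pr h1.le fun x y hy => hw _ _ _ (hy.trans h2)
      rw [h4]
      exact ih

theorem Ch.det {pr : K → K → K} {e : W → Finset W → Bool} {p : Cond S} {ξ : L} {α : K} {c c' : Bool}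
    (h : Ch pr e p ξ α c) (h' : Ch pr e p ξ α c') : c = c' := by
  induction h generalizing c' with
  | stop α h1 h2 =>
    cases h' with
    | stop _ h3 h4 => rfl
    | zero _ h3 h4 => exact absurd h1 (not_le.2 h3)
    | step _ _ h3 h4 h5 h6 => exact absurd h1 (not_le.2 h3)
  | zero α h1 h2 =>
    cases h' with
    | stop _ h3 h4 => exact absurd h3 (not_le.2 h1)
    | zero _ h3 h4 => rfl
    | step _ _ h3 h4 h5 h6 => exact absurd h2 h5
  | step α c h1 h2 h3 _ ih =>
    cases h' with
    | stop _ h4 h5 => exact absurd h4 (not_le.2 h1)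
    | zero _ h4 h5 => exact absurd h5 h3
    | step _ _ h4 h5 h6 h7 => exact ih h7

theorem labs_union (S : Sett W K L) (s s' : Finset K) : labs S (s ∪ s') = labs S s ∪ labs S s' := by
  classical
  ext a
  simp only [labs, Finset.mem_image, Finset.mem_union]
  constructor
  · rintro ⟨b, hb | hb, rfl⟩
    · exact Or.inl ⟨b, hb, rfl⟩
    · exact Or.inr ⟨b, hb, rfl⟩
  · rintro (⟨b, hb, rfl⟩ | ⟨b, hb, rfl⟩)
    · exact ⟨b, Or.inl hb, rfl⟩
    · exact ⟨b, Or.inr hb, rfl⟩

end F61
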