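import Pool.Agent.W_MP_f61043_lc.Setup

/-!
# MP_f61043_lc : elementary facts about the setting
-/

universe u

open Cardinal Set Filter

namespace F61

open Pool.Agent.W_MP_315f31_lc

variable {W K L : Type u} [LinearOrder W] [LinearOrder K] [LinearOrder L]
  [WellFoundedLT W] [WellFoundedLT K] [WellFoundedLT L]

/-! ### levels -/

theorem lt_k'_lev (S : Sett W K L) (v : K) : v < S.k' (lev S v) :=
  WellFounded.min_mem (wellFounded_lt (α := W)) {t | v < S.k' t} (S.cofin v)

theorem lev_le (S : Sett W K L) {s : W} {v : K} (h : v < S.k' s) : lev S v ≤ s :=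
  not_lt.1 (WellFounded.not_lt_min (wellFounded_lt (α := W)) {t | v < S.k' t} h)

theorem le_of_lt_lev (S : Sett W K L) {s : W} {v : K} (h : s < lev S v) : S.k' s ≤ v := by
  by_contra hc
  exact absurd (lev_le S (not_le.1 hc)) (not_le.2 h)

theorem lev_le_of_lt_k (S : Sett W K L) {t : W} {v : K} (h : v < S.k t) : lev S v ≤ t :=
  lev_le S (h.trans (S.k_lt t))

theorem lev_lt_of_lt_k (S : Sett W K L) {t : W} {v : K} (h : v < S.k t) (ht : ¬ ∀ s, t ≤ s) :
    lev S v < t := by
  rcases S.k_cont t v h with ⟨s, hs, hv⟩ | h1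
  · exact (lev_le S hv).trans_lt hs
  · exact absurd h1 ht

/-- If `t` is not the least element, `a < k t` and `t ≤ lev v`, then `a < v`. -/
theorem lt_of_le_lev (S : Sett W K L) {t : W} (ht : ¬ ∀ s, t ≤ s) {a v : K} (ha : a < S.k t)
    (hv : t ≤ lev S v) : a < v := by
  rcases S.k_cont t a ha with ⟨s, hs, h⟩ | h1
  · exact h.trans_le (le_of_lt_lev S (hs.trans_le hv))
  · exact absurd h1 ht

theorem k_mono (S : Sett W K L) {s t : W} (h : s ≤ t) : S.k s ≤ S.k t := by
  rcases h.eq_or_lt with h | h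
  · rw [h]
  · exact (S.k_lt s).le.trans (S.k'_le s t h)

theorem k'_mono (S : Sett W K L) {s t : W} (h : s ≤ t) : S.k' s ≤ S.k' t := by
  rcases h.eq_or_lt with h | h
  · rw [h]
  · exact (S.k'_le s t h).trans (S.k_lt t).le

/-! ### cardinalities -/

theorem nonemptyW (S : Sett W K L) : Nonempty W := by
  rw [← mk_ne_zero_iff, S.w_card]
  exact (aleph0_pos.trans aleph0_lt_aleph_one).ne'

/-- the least element of `W` -/
theorem exists_leastW (S : Sett W K L) : ∃ t : W, ∀ s, t ≤ s := by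
  have : Nonempty W := nonemptyW S
  exact ⟨WellFounded.min (wellFounded_lt (α := W)) Set.univ Set.univ_nonempty,
    fun s => not_lt.1 (WellFounded.not_lt_min (wellFounded_lt (α := W)) Set.univ (mem_univ s))⟩

theorem ck_mono (S : Sett W K L) {s t : W} (h : s ≤ t) : #(Iio (S.k s)) ≤ #(Iio (S.k t)) :=
  mk_le_mk_of_subset (Iio_subset_Iio (k_mono S h))

theorem aleph_one_le_ck (S : Sett W K L) (t : W) : ℵ₁ ≤ #(Iio (S.k t)) := by
  obtain ⟨t0, h0⟩ := exists_leastW S
  rw [← S.card_bot t0 h0]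
  exact ck_mono S (h0 t)

theorem aleph0_le_ck (S : Sett W K L) (t : W) : ℵ₀ ≤ #(Iio (S.k t)) :=
  aleph0_lt_aleph_one.le.trans (aleph_one_le_ck S t)

theorem ck_lt (S : Sett W K L) {s t : W} (h : s < t) : #(Iio (S.k s)) < #(Iio (S.k t)) := by
  have h1 : #(Iio (S.k s)) < #(Iio (S.k' s)) := by
    rw [S.card_succ]
    exact Order.lt_succ _
  exact h1.trans_le (mk_le_mk_of_subset (Iio_subset_Iio (S.k'_le s t h)))

theorem ck_lt_K (S : Sett W K L) (t : W) : #(Iio (S.k t)) < #K := by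
  have h1 : #(Iio (S.k t)) < #(Iio (S.k' t)) := by
    rw [S.card_succ]
    exact Order.lt_succ _
  exact h1.trans_le (mk_set_le _)

theorem card_Iio_lt_K (S : Sett W K L) (v : K) : #(Iio v) < #K :=
  (S.card_le _ v (lt_k'_lev S v)).trans_lt (ck_lt_K S _)

theorem aleph0_le_K (S : Sett W K L) : ℵ₀ ≤ #K := by
  obtain ⟨t⟩ := nonemptyW S
  exact (aleph0_le_ck S t).trans (ck_lt_K S t).le

theorem aleph_one_lt_K (S : Sett W K L) : ℵ₁ < #K := by
  obtain ⟨t⟩ := nonemptyW S
  exact (aleph_one_le_ck S t).trans_lt (ck_lt_K S t)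

/-- every cardinal below `κ` is at most some `κ_t` -/
theorem exists_le_ck (S : Sett W K L) {c : Cardinal.{u}} (hc : c < #K) :
    ∃ t, c ≤ #(Iio (S.k t)) := by
  by_contra h
  push Not at h
  have h1 : ∀ t, #(Iio (S.k' t)) ≤ c := fun t => by
    rw [S.card_succ]
    exact Order.succ_le_of_lt (h t)
  have hU : (Set.univ : Set K) ⊆ ⋃ t, Iio (S.k' t) := by
    intro v _
    obtain ⟨t, ht⟩ := S.cofin v
    exact mem_iUnion.2 ⟨t, ht⟩
  have h2 : #K ≤ c := by
    obtain ⟨t⟩ := nonemptyW S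
    have hc1 : ℵ₁ ≤ c := (aleph_one_le_ck S t).trans (h t).le
    rw [← mk_univ]
    refine (mk_le_mk_of_subset hU).trans ?_
    refine (mk_iUnion_le _).trans ?_
    refine (mul_le_mul' (S.w_card.le.trans hc1) (ciSup_le' h1)).trans (le_of_eq ?_)
    exact mul_eq_self (aleph0_lt_aleph_one.le.trans hc1)
  exact absurd h2 (not_le.2 hc)

/-! ### regularity -/

/-- `k' t` is regular -/
theorem regK (S : Sett W K L) (t : W) {J : Type u} (f : J → K) (hf : ∀ j, f j < S.k' t)
    (hJ : #J ≤ #(Iio (S.k t))) : ∃ b < S.k' t, ∀ j, f j < b := by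
  by_contra h
  push Not at h
  have hU : Iio (S.k' t) ⊆ ⋃ j, Iic (f j) := by
    intro b hb
    obtain ⟨j, hj⟩ := h b hb
    exact mem_iUnion.2 ⟨j, hj⟩
  have h0 := aleph0_le_ck S t
  have h1 : ∀ j, #(Iic (f j)) ≤ #(Iio (S.k t)) := by
    intro j
    have h2 : Iic (f j) = insert (f j) (Iio (f j)) := by
      ext x
      simp [le_iff_eq_or_lt]
    rw [h2]
    refine (mk_insert_le).trans ?_
    refine (add_le_add (S.card_le t _ (hf j)) (one_le_aleph0.trans h0)).trans ?_
    exact (add_eq_self h0).le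
  have h3 : #(Iio (S.k' t)) ≤ #(Iio (S.k t)) := by
    refine (mk_le_mk_of_subset hU).trans ?_
    refine (mk_iUnion_le _).trans ?_
    exact (mul_le_mul' hJ (ciSup_le' h1)).trans (mul_eq_self h0).le
  rw [S.card_succ] at h3
  exact absurd (Order.lt_succ _) (not_lt.2 h3)

/-- `L` is regular -/
theorem regL (S : Sett W K L) {J : Type u} (f : J → L) (hJ : #J ≤ #K) : ∃ b, ∀ j, f j < b := by
  by_contra h
  push Not at h
  have hU : (Set.univ : Set L) ⊆ ⋃ j, Iic (f j) := by
    intro b _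
    obtain ⟨j, hj⟩ := h b
    exact mem_iUnion.2 ⟨j, hj⟩
  have h0 := aleph0_le_K S
  have h1 : ∀ j, #(Iic (f j)) ≤ #K := by
    intro j
    have h2 : Iic (f j) = insert (f j) (Iio (f j)) := by
      ext x
      simp [le_iff_eq_or_lt]
    rw [h2]
    refine (mk_insert_le).trans ?_
    refine (add_le_add (S.segL _) (one_le_aleph0.trans h0)).trans ?_
    exact (add_eq_self h0).le
  have h3 : #L ≤ #K := by
    rw [← mk_univ]
    refine (mk_le_mk_of_subset hU).trans ?_
    refine (mk_iUnion_le _).trans ?_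
    exact (mul_le_mul' hJ (ciSup_le' h1)).trans (mul_eq_self h0).le
  rw [S.cardL] at h3
  exact absurd (Order.lt_succ _) (not_lt.2 h3)

/-- the next element -/
theorem exists_next {A : Type u} [LinearOrder A] [WellFoundedLT A] {a b : A} (h : a < b) :
    ∃ a' ≤ b, ∀ x, x < a' ↔ x ≤ a := by
  refine ⟨WellFounded.min (wellFounded_lt (α := A)) {x | a < x} ⟨b, h⟩,
    not_lt.1 (WellFounded.not_lt_min (wellFounded_lt (α := A)) {x | a < x} h), fun x => ⟨?_, ?_⟩⟩
  · intro hx
    by_contra hc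
    exact WellFounded.not_lt_min (wellFounded_lt (α := A)) {x | a < x} (not_le.1 hc) hx
  · intro hx
    exact hx.trans_lt (WellFounded.min_mem (wellFounded_lt (α := A)) {x | a < x} ⟨b, h⟩)

/-- the next element of `K`, below `k' t` -/
theorem exists_nextK (S : Sett W K L) (t : W) {v : K} (hv : v < S.k' t) :
    ∃ v', v' < S.k' t ∧ ∀ x, x < v' ↔ x ≤ v := by
  obtain ⟨b, hb, hb'⟩ := regK S t (J := PUnit.{u+1}) (fun _ => v) (fun _ => hv) (by
    rw [mk_punit]
    exact one_le_aleph0.trans (aleph0_le_ck S t))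
  obtain ⟨a', ha', h⟩ := exists_next (hb' PUnit.unit)
  exact ⟨a', ha'.trans_lt hb, h⟩

/-- the next element of `L` -/
theorem exists_nextL (S : Sett W K L) (ξ : L) : ∃ ξ', ∀ x, x < ξ' ↔ x ≤ ξ := by
  obtain ⟨b, hb⟩ := regL S (J := PUnit.{u+1}) (fun _ => ξ) (by
    rw [mk_punit]
    exact one_le_aleph0.trans (aleph0_le_K S))
  obtain ⟨a', _, h⟩ := exists_next (hb PUnit.unit)
  exact ⟨a', h⟩

/-- countable sets of elements of `W` are bounded -/
theorem exists_boundW (S : Sett W K L) {ι : Type*} [Countable ι] (f : ι → W) : ∃ t, ∀ i, f i < t := by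
  by_contra h
  push Not at h
  have hU : (Set.univ : Set W) ⊆ ⋃ i, Iic (f i) := by
    intro b _
    obtain ⟨j, hj⟩ := h b
    exact mem_iUnion.2 ⟨j, hj⟩
  have h1 : ∀ t : W, (Iic t).Countable := by
    intro t
    have h2 : Iic t = insert t (Iio t) := by
      ext x
      simp [le_iff_eq_or_lt]
    rw [h2]
    exact (S.w_ctbl t).insert t
  have h2 : (Set.univ : Set W).Countable := (countable_iUnion fun i => h1 (f i)).mono hU
  have h3 : #W ≤ ℵ₀ := by
    rw [← mk_univ]
    exact Cardinal.le_aleph0_iff_set_countable.2 h2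
  rw [S.w_card] at h3
  exact absurd h3 (not_le.2 aleph0_lt_aleph_one)

/-- the next element of `W` -/
theorem exists_nextW (S : Sett W K L) (t : W) : ∃ t', ∀ x, x < t' ↔ x ≤ t := by
  obtain ⟨b, hb⟩ := exists_boundW S (fun _ : Unit => t)
  obtain ⟨a', _, h⟩ := exists_next (hb ())
  exact ⟨a', h⟩

/-- Least upper bounds in a well-order. -/
theorem exists_lub {A : Type u} [LinearOrder A] [WellFoundedLT A] {J : Type u} (f : J → A) {b : A}
    (hb : ∀ j, f j ≤ b) : ∃ z ≤ b, (∀ j, f j ≤ z) ∧ ∀ y < z, ∃ j, y < f j := by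
  refine ⟨WellFounded.min (wellFounded_lt (α := A)) {x | ∀ j, f j ≤ x} ⟨b, hb⟩,
    not_lt.1 (WellFounded.not_lt_min (wellFounded_lt (α := A)) {x | ∀ j, f j ≤ x} hb),
    WellFounded.min_mem (wellFounded_lt (α := A)) {x | ∀ j, f j ≤ x} ⟨b, hb⟩, fun y hy => ?_⟩
  by_contra hc
  push Not at hc
  exact WellFounded.not_lt_min (wellFounded_lt (α := A)) {x | ∀ j, f j ≤ x} hc hy

/-! ### large `t` -/

theorem neBotW (S : Sett W K L) : (atTop : Filter W).NeBot := by
  have := nonemptyW S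
  infer_instance

/-- countably many statements about large `t` can be intersected -/
theorem ev_all (S : Sett W K L) {ι : Type*} [Countable ι] {P : ι → W → Prop}
    (h : ∀ i, ∀ᶠ t in atTop, P i t) : ∀ᶠ t in atTop, ∀ i, P i t := by
  have := nonemptyW S
  have h1 : ∀ i, ∃ a, ∀ t, a ≤ t → P i t := fun i => by
    have h2 := h i
    rw [eventually_atTop] at h2
    exact h2
  choose a ha using h1
  obtain ⟨b, hb⟩ := exists_boundW S a
  rw [eventually_atTop]
  exact ⟨b, fun t ht i => ha i t ((hb i).le.trans ht)⟩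

end F61
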