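import Pool.Agent.W_MP_f61043_lc.Names0

/-!
# MP_f61043_lc : the cardinals and GCH in the extension

`exists_good_gt`: every `v : K` is `< k t` for some successor `t` (`S.cofin` gives `v < k' r`; `t` the next element of `W` after `r`;
`k' r ≤ k t`).

`cardK_P`: take `t` good with `i < k t`; `bd ht` for `X = Iio i`, `h a y = F a y`; as `#Z ≤ κ_t < #K` there is `y ∉ Z`.

`cardL_P`: For every good `t` (`T = {t // Good t}`, `#T ≤ ℵ₁`) let
`f t δ = ⨆ {b | ∀ a < k t, ∀ x ≥ δ, b ⊓ F a x = ⊥}` (in this element the same holds, as `⊓` distributes over `⨆`), i.e.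
`f t δ = (⨆ a : Iio (k t), ⨆ x : Ici δ, F a x)ᶜ`.  By `bd` (for `X = Iio (k t)`; `Z : Set L` of size `≤ κ_t` is bounded by
`regL`) `⨆ δ, f t δ = ⊤`.  By `dist0` there are `b ≤ c` and `g : T → L` with `b ≤ f t (g t)` for all `t`; `δ` is an upper bound of the
`g t` (`regL`); every `a : K` is below some `k t`.
-/

universe u

open Cardinal Set Filter

namespace F61

open Pool.Agent.W_MP_315f31_lc

variable {W K L : Type u} [LinearOrder W] [LinearOrder K] [LinearOrder L]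
  [WellFoundedLT W] [WellFoundedLT K] [WellFoundedLT L] {S : Sett W K L}

theorem exists_good_gt (S : Sett W K L) (v : K) : ∃ t, Good t ∧ v < S.k t := by
  obtain ⟨r, hr⟩ := S.cofin v
  obtain ⟨t, ht⟩ := exists_nextW S r
  have hrt : r < t := (ht r).2 le_rfl
  exact ⟨t, Or.inr ⟨r, hrt, fun s hs => (ht s).1 hs⟩, hr.trans_le (S.k'_le r t hrt)⟩

/-- `κ` remains a cardinal. -/
theorem cardK_P (i : K) (F : K → K → DP S) (hF : ∀ a x y, x ≠ y → F a x ⊓ F a y = ⊥) (c : DP S)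
    (hc : c ≠ ⊥) : ∃ (b : DP S) (y : K), b ≠ ⊥ ∧ b ≤ c ∧ ∀ a < i, b ⊓ F a y = ⊥ := by
  obtain ⟨t, ht, hit⟩ := exists_good_gt S i
  obtain ⟨b, Z, hb, hbc, hZ, hbZ⟩ := bd ht (X := Iio i) (Y := K)
    (mk_le_mk_of_subset (Iio_subset_Iio hit.le)) (fun a y => F a y)
    (fun a y y' hy => hF a y y' hy) c hc
  have h1 : ∃ y, y ∉ Z := by
    by_contra hcon
    push Not at hcon
    have h2 : Z = Set.univ := Set.eq_univ_of_forall hcon
    rw [h2, mk_univ] at hZ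
    exact absurd (ck_lt_K S t) (not_lt.2 hZ)
  obtain ⟨y, hy⟩ := h1
  exact ⟨b, y, hb, hbc, fun a ha => hbZ ⟨a, ha⟩ y hy⟩

/-- Functions from `κ` to `κ⁺` are bounded. -/
theorem cardL_P (F : K → L → DP S) (hF : ∀ a x y, x ≠ y → F a x ⊓ F a y = ⊥) (c : DP S)
    (hc : c ≠ ⊥) : ∃ (b : DP S) (δ : L), b ≠ ⊥ ∧ b ≤ c ∧ ∀ a x, δ ≤ x → b ⊓ F a x = ⊥ := by
  set f : {t : W // Good t} → L → DP S := fun t δ =>
    (⨆ a : Iio (S.k t.1), ⨆ x : Ici δ, F a.1 x.1)ᶜ with hf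
  have hfle : ∀ t δ (b : DP S), b ≤ f t δ ↔ ∀ a < S.k t.1, ∀ x, δ ≤ x → b ⊓ F a x = ⊥ := by
    intro t δ b
    rw [hf, le_compl_iff_disjoint_right, disjoint_iSup_iff]
    simp only [disjoint_iSup_iff]
    constructor
    · intro h a ha x hx
      exact disjoint_iff.1 (h ⟨a, ha⟩ ⟨x, hx⟩)
    · intro h a x
      exact disjoint_iff.2 (h a.1 a.2 x.1 x.2)
  have hT : #{t : W // Good t} ≤ ℵ₁ := (mk_subtype_le _).trans S.w_card.le
  have hcov : ∀ t, c ≤ ⨆ δ, f t δ := by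
    intro t
    by_contra hcon
    have hu : c ⊓ (⨆ δ, f t δ)ᶜ ≠ ⊥ := by
      intro h
      apply hcon
      rw [← disjoint_iff, disjoint_compl_right_iff] at h
      exact h
    obtain ⟨b, Z, hb, hbu, hZ, hbZ⟩ := bd t.2 (X := Iio (S.k t.1)) (Y := L) le_rfl
      (fun a y => F a y) (fun a y y' hy => hF a y y' hy) _ hu
    obtain ⟨δ, hδ⟩ := regL S (J := Z) (fun z => z.1) (hZ.trans (ck_lt_K S t.1).le)
    have h1 : b ≤ f t δ := by
      rw [hfle]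
      intro a ha x hx
      refine hbZ ⟨a, ha⟩ x fun hxZ => ?_
      exact absurd (hδ ⟨x, hxZ⟩) (not_lt.2 hx)
    apply hb
    have h2 : b ≤ (⨆ δ, f t δ) := h1.trans (le_iSup (f t) δ)
    have h3 : b ≤ (⨆ δ, f t δ)ᶜ := hbu.trans inf_le_right
    have h4 : b ≤ (⨆ δ, f t δ) ⊓ (⨆ δ, f t δ)ᶜ := le_inf h2 h3
    rw [inf_compl_eq_bot] at h4
    exact le_bot_iff.1 h4
  obtain ⟨b, g, hb, hbc, hg⟩ := dist0 (S := S) hT f c hc hcov
  obtain ⟨δ, hδ⟩ := regL S g (hT.trans (aleph_one_lt_K S).le)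
  refine ⟨b, δ, hb, hbc, fun a x hx => ?_⟩
  obtain ⟨t, ht, hat⟩ := exists_good_gt S a
  exact (hfle ⟨t, ht⟩ _ b).1 (hg ⟨t, ht⟩) a hat x ((hδ ⟨t, ht⟩).le.trans hx)

end F61
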