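import Mathlib

/-!
# MP_f61043_lc : what the native part delivers about the forcing

`K` is a well-order of type `κ` (a singular cardinal of uncountable cofinality), `L` one of type `κ⁺`, `D` is the
regular open algebra of the forcing.
-/

universe u

open Cardinal Set

namespace F61

/-- A name of a function from `A` to `T`, injective, below `c`. -/
structure InjN {A T D : Type u} [CompleteBooleanAlgebra D] (c : D) (F : A → T → D) : Prop where
  tot : ∀ a, c ≤ ⨆ x, F a x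
  sv : ∀ a x y, x ≠ y → F a x ⊓ F a y ⊓ c = ⊥
  inj : ∀ a b x, a ≠ b → F a x ⊓ F b x ⊓ c = ⊥

/-- The properties of the forcing. -/
structure CoreF (K L : Type u) [LinearOrder K] [LinearOrder L] (D : Type u)
    [CompleteBooleanAlgebra D] : Prop where
  /-- `K` is infinite -/
  infK : Infinite K
  /-- `K` has a small cofinal subset -/
  sing : ∃ (i : K) (e : K → K), ∀ x, ∃ y < i, x ≤ e y
  /-- the cofinality of `K` is uncountable -/
  cof : ∀ f : ℕ → K, ∃ x, ∀ n, f n < x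
  /-- the proper initial segments of `L` are images of `K` -/
  segL : ∀ x : L, ∃ e : K → L, ∀ y < x, ∃ z, e z = y
  /-- no new `ω`-sequences -/
  dist : ∀ (A : Type u) (f : ℕ → A → D), (∀ n, (⨆ a, f n a) = ⊤) → ∀ c : D, c ≠ ⊥ →
    ∃ (b : D) (g : ℕ → A), b ≠ ⊥ ∧ b ≤ c ∧ ∀ n, b ≤ f n (g n)
  /-- no function of the extension maps a proper initial segment of `K` onto `K` -/
  cardK : ∀ (i : K) (F : K → K → D), (∀ a x y, x ≠ y → F a x ⊓ F a y = ⊥) → ∀ c : D, c ≠ ⊥ →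
    ∃ (b : D) (y : K), b ≠ ⊥ ∧ b ≤ c ∧ ∀ a < i, b ⊓ F a y = ⊥
  /-- the functions of the extension from `K` to `L` are bounded -/
  cardL : ∀ F : K → L → D, (∀ a x y, x ≠ y → F a x ⊓ F a y = ⊥) → ∀ c : D, c ≠ ⊥ →
    ∃ (b : D) (δ : L), b ≠ ⊥ ∧ b ≤ c ∧ ∀ a x, δ ≤ x → b ⊓ F a x = ⊥
  /-- the powerset of an infinite well-order `A` is an image of a well-order all of whose proper
  initial segments are images of `A` -/
  gch : ∀ (A : Type u) [LinearOrder A] [WellFoundedLT A], Infinite A →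
    ∃ (B : Type u) (_ : LinearOrder B) (_ : WellFoundedLT B) (F : B → A → D),
      (∀ g : A → D, ∀ c : D, c ≠ ⊥ → ∃ (b : D) (i : B), b ≠ ⊥ ∧ b ≤ c ∧ ∀ a, b ⊓ g a = b ⊓ F i a) ∧
      ∀ i : B, ∃ G : A → B → D, (∀ a x y, x ≠ y → G a x ⊓ G a y = ⊥) ∧ ∀ x < i, (⨆ a, G a x) = ⊤
  /-- there is a name `col` of a subset of `L × K` such that for all (names of) injective functions
  `F : K → L`, `G : K → K` some pair `(F a, G b)` is in the set and some pair is not in the set -/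
  rel : ∃ col : L → K → D, ∀ (F : K → L → D) (G : K → K → D) (c : D), c ≠ ⊥ → InjN c F → InjN c G →
    (∃ (b : D) (a : K) (x : L) (a' y : K), b ≠ ⊥ ∧ b ≤ c ∧ b ≤ F a x ∧ b ≤ G a' y ∧ b ≤ col x y) ∧
    ∃ (b : D) (a : K) (x : L) (a' y : K), b ≠ ⊥ ∧ b ≤ c ∧ b ≤ F a x ∧ b ≤ G a' y ∧ b ≤ (col x y)ᶜ

end F61
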