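import Pool.Agent.W_MP_f61043_lc.Merge

/-!
# MP_f61043_lc : the number of the small parts and of the conditions

`mk_sp`: the number of the small parts, for `t` the least element or a successor.  If `t` is the least element there is only one.
If `t` is the successor of `r`: `k' s ≤ k' r = k t` for `s ≤ r` (`S.k'_le`, `S.k_cont` for `≥`).  A small part is determined by the function
on the countable set `Iio t` with the values `(p.γ s, p.w s)`; `p.γ s < k' s`, so there are `#(Iio (k' s)) ≤ κ_t` possibilities; `p.w s` is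
determined by its restriction to `Iic (γ s) × Iic (γ s)` (of size `≤ κ_s`, `S.card_le`), a function with values in `Finset (Iio (k s))`:
at most `κ_s ^ κ_s = 2 ^ κ_s = κ_s⁺ ≤ κ_t` possibilities.  So there are at most `κ_t ^ ℵ₀` small parts, and
`κ_t ^ ℵ₀ = κ_t` since `κ_t = (κ_r)⁺ = 2 ^ κ_r` (`S.gch`, `power_mul`).

`mk_cond`: a condition is determined by `ζ : L`, the restriction of `g` to `Iic ζ` (`g_junk`; at most `(#K ^ #W) ^ #K` possibilities,
`#(Iic ζ) ≤ #K`), `γ : W → K` and `w : W → K → K → Finset K` (at most `#K ^ #K`); all this is at most `#K ^ #K = 2 ^ #K = #L`.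
-/

universe u

open Cardinal Set Filter

namespace F61

open Pool.Agent.W_MP_315f31_lc

variable {W K L : Type u} [LinearOrder W] [LinearOrder K] [LinearOrder L]
  [WellFoundedLT W] [WellFoundedLT K] [WellFoundedLT L] {S : Sett W K L}

theorem cnt_Iic_le {A : Type u} [LinearOrder A] {v : A} {c : Cardinal.{u}} (hc : ℵ₀ ≤ c)
    (h : #(Iio v) ≤ c) : #(Iic v) ≤ c := by
  have h2 : Iic v = insert v (Iio v) := by
    ext x
    simp [le_iff_eq_or_lt]
  rw [h2]
  refine (mk_insert_le).trans ?_
  refine (add_le_add h (one_le_aleph0.trans hc)).trans ?_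
  exact (add_eq_self hc).le

/-- the structures of the level `s` -/
def cntA (S : Sett W K L) (s : W) : Set (K × (K → K → Finset K)) := {y | TStr S s y.1 y.2}

theorem cntA_card (S : Sett W K L) (s : W) : #(cntA S s) ≤ #(Iio (S.k' s)) := by
  classical
  let G : (Σ γ : Iio (S.k' s), (Iic γ.1 → Iic γ.1 → Finset (Iio (S.k s)))) →
      K × (K → K → Finset K) := fun y =>
    (y.1.1, fun x z => if h : x ≤ y.1.1 ∧ z ≤ y.1.1 then
      (y.2 ⟨x, h.1⟩ ⟨z, h.2⟩).map (Function.Embedding.subtype _) else ∅)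
  have h1 : cntA S s ⊆ range G := by
    rintro ⟨γ, w⟩ hy
    have hy' : TStr S s γ w := hy
    refine ⟨⟨⟨γ, hy'.lt⟩, fun x z => (w x.1 z.1).subtype (fun a => a ∈ Iio (S.k s))⟩, ?_⟩
    refine Prod.ext rfl ?_
    funext x z
    show (if h : x ≤ γ ∧ z ≤ γ then
      ((w x z).subtype (fun a => a ∈ Iio (S.k s))).map (Function.Embedding.subtype _) else ∅) = w x z
    split_ifs with h
    · have hval : ∀ a ∈ w x z, a ∈ Iio (S.k s) := fun a ha => hy'.val x z a ha
      exact Finset.subtype_map_of_mem hval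
    · rw [hy'.junk x z]
      intro h'
      exact h ⟨h'.1.le.trans h'.2, h'.2⟩
  have hinf := aleph0_le_ck S s
  have hI : Infinite (Iio (S.k s)) := Cardinal.infinite_iff.2 hinf
  have h2 : ∀ γ : Iio (S.k' s), #(Iic γ.1 → Iic γ.1 → Finset (Iio (S.k s))) ≤ #(Iio (S.k' s)) := by
    intro γ
    have h3 : #(Iic γ.1) ≤ #(Iio (S.k s)) := cnt_Iic_le hinf (S.card_le s _ γ.2)
    rw [← Cardinal.power_def, ← Cardinal.power_def, Cardinal.mk_finset_of_infinite, ← power_mul,
      S.card_succ, ← S.gch _ hinf, ← power_self_eq hinf]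
    refine power_le_power_left (aleph0_pos.trans_le hinf).ne' ?_
    exact (mul_le_mul' h3 h3).trans (mul_eq_self hinf).le
  have hinf' : ℵ₀ ≤ #(Iio (S.k' s)) := by
    rw [S.card_succ]
    exact hinf.trans (Order.le_succ _)
  calc #(cntA S s) ≤ #(range G) := mk_le_mk_of_subset h1
    _ ≤ #(Σ γ : Iio (S.k' s), (Iic γ.1 → Iic γ.1 → Finset (Iio (S.k s)))) := mk_range_le
    _ = Cardinal.sum fun γ : Iio (S.k' s) =>
        #(Iic γ.1 → Iic γ.1 → Finset (Iio (S.k s))) := mk_sigma _
    _ ≤ Cardinal.sum fun _ : Iio (S.k' s) => #(Iio (S.k' s)) := sum_le_sum _ _ h2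
    _ = #(Iio (S.k' s)) * #(Iio (S.k' s)) := sum_const' _ _
    _ = #(Iio (S.k' s)) := mul_eq_self hinf'

/-- The number of the small parts. -/
theorem mk_sp {t : W} (ht : Good t) : #(range (sp (S := S) t)) ≤ #(Iio (S.k t)) := by
  classical
  have hinf := aleph0_le_ck S t
  rcases ht with ht | ⟨r, hr, hr'⟩
  · have h1 : (range (sp (S := S) t)).Subsingleton := by
      rintro _ ⟨p, rfl⟩ _ ⟨q, rfl⟩
      funext s
      unfold sp
      rw [if_neg (not_lt.2 (ht s)), if_neg (not_lt.2 (ht s))]
    exact (mk_le_one_iff_set_subsingleton.2 h1).trans (one_le_aleph0.trans hinf)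
  · have hkt : Iio (S.k t) = Iio (S.k' r) := by
      ext v
      rw [mem_Iio, mem_Iio]
      constructor
      · intro hv
        rcases S.k_cont t v hv with ⟨s, hs, hvs⟩ | h
        · exact hvs.trans_le (k'_mono S (hr' s hs))
        · exact absurd (h r) (not_le.2 hr)
      · intro hv
        exact hv.trans_le (S.k'_le r t hr)
    have hκ : #(Iio (S.k t)) = 2 ^ #(Iio (S.k r)) := by
      rw [hkt, S.card_succ, S.gch _ (aleph0_le_ck S r)]
    have hpow : #(Iio (S.k t)) ^ ℵ₀ ≤ #(Iio (S.k t)) := by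
      rw [hκ, ← power_mul, mul_aleph0_eq (aleph0_le_ck S r)]
    let H : ((s : Iio t) → cntA S s.1) → (W → K × (K → K → Finset K)) := fun F s =>
      if h : s < t then (F ⟨s, h⟩).1 else (S.k s, fun _ _ => ∅)
    have h1 : range (sp (S := S) t) ⊆ range H := by
      rintro _ ⟨p, rfl⟩
      refine ⟨fun s => ⟨(p.γ s.1, p.w s.1), p.str s.1⟩, ?_⟩
      funext s
      unfold sp
      by_cases h : s < t
      · show (if h : s < t then (p.γ s, p.w s) else (S.k s, fun _ _ => ∅)) = _
        rw [dif_pos h, if_pos h]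
      · show (if h : s < t then (p.γ s, p.w s) else (S.k s, fun _ _ => ∅)) = _
        rw [dif_neg h, if_neg h]
    calc #(range (sp (S := S) t)) ≤ #(range H) := mk_le_mk_of_subset h1
      _ ≤ #((s : Iio t) → cntA S s.1) := mk_range_le
      _ = Cardinal.prod fun s : Iio t => #(cntA S s.1) := mk_pi _
      _ ≤ Cardinal.prod fun _ : Iio t => #(Iio (S.k t)) := by
          refine prod_le_prod _ _ fun s => ?_
          exact (cntA_card S s.1).trans (mk_le_mk_of_subset (Iio_subset_Iio (S.k'_le s.1 t s.2)))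
      _ = #(Iio (S.k t)) ^ #(Iio t) := prod_const' _ _
      _ ≤ #(Iio (S.k t)) ^ ℵ₀ := by
          refine power_le_power_left (aleph0_pos.trans_le hinf).ne' ?_
          exact Cardinal.le_aleph0_iff_set_countable.2 (S.w_ctbl t)
      _ ≤ #(Iio (S.k t)) := hpow

/-- The number of the conditions. -/
theorem mk_cond (S : Sett W K L) : #(Cond S) ≤ #L := by
  classical
  have hinf := aleph0_le_K S
  have hL : #L = 2 ^ #K := by rw [S.cardL, S.gch _ hinf]
  have hLinf : ℵ₀ ≤ #L := by
    rw [S.cardL]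
    exact hinf.trans (Order.le_succ _)
  have hWK : #W ≤ #K := by
    rw [S.w_card]
    exact (aleph_one_lt_K S).le
  have hKne : #K ≠ 0 := (aleph0_pos.trans_le hinf).ne'
  have hKI : Infinite K := Cardinal.infinite_iff.2 hinf
  have hLK : #L ^ #K ≤ #L := by rw [hL, ← power_mul, mul_eq_self hinf]
  have hLne : #L ≠ 0 := (aleph0_pos.trans_le hLinf).ne'
  have hKL : #K ≤ #L := by rw [S.cardL]; exact Order.le_succ _
  have hF : Function.Injective (fun p : Cond S =>
      ((⟨p.ζ, fun ξ t => p.g ξ.1 t⟩, p.γ, p.w) :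
        (Σ ζ : L, (Iic ζ → W → K)) × (W → K) × (W → K → K → Finset K))) := by
    rintro ⟨ζ, g, γ, w, str, g_junk, g_lt, mono, top, cont, lim⟩
      ⟨ζ', g', γ', w', str', g_junk', g_lt', mono', top', cont', lim'⟩ h
    simp only [Prod.mk.injEq, Sigma.mk.injEq] at h
    obtain ⟨⟨hζ, hg⟩, hγ, hw⟩ := h
    subst hζ
    subst hγ
    subst hw
    rw [heq_iff_eq] at hg
    have hg' : g = g' := by
      funext ξ t
      by_cases hξ : ξ ≤ ζ
      · exact congrFun (congrFun hg ⟨ξ, hξ⟩) t
      · rw [g_junk ξ (not_le.1 hξ), g_junk' ξ (not_le.1 hξ)]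
    subst hg'
    rfl
  have h1 : #(Σ ζ : L, (Iic ζ → W → K)) ≤ #L := by
    calc #(Σ ζ : L, (Iic ζ → W → K)) = Cardinal.sum fun ζ : L => #(Iic ζ → W → K) := mk_sigma _
      _ ≤ Cardinal.sum fun _ : L => #L := by
          refine sum_le_sum _ _ fun ζ => ?_
          rw [← Cardinal.power_def, ← Cardinal.power_def]
          calc (#K ^ #W) ^ #(Iic ζ) ≤ (#L ^ #K) ^ #(Iic ζ) := by
                refine power_le_power_right ?_
                exact (power_le_power_right hKL).trans (power_le_power_left hLne hWK)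
            _ ≤ #L ^ #(Iic ζ) := power_le_power_right hLK
            _ ≤ #L ^ #K := power_le_power_left hLne (cnt_Iic_le hinf (S.segL ζ))
            _ ≤ #L := hLK
      _ = #L * #L := sum_const' _ _
      _ = #L := mul_eq_self hLinf
  have h2 : #(W → K) ≤ #L := by
    rw [← Cardinal.power_def]
    exact ((power_le_power_right hKL).trans (power_le_power_left hLne hWK)).trans hLK
  have h3 : #(W → K → K → Finset K) ≤ #L := by
    rw [← Cardinal.power_def, ← Cardinal.power_def, ← Cardinal.power_def,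
      Cardinal.mk_finset_of_infinite]
    have e1 : #K ^ #K ≤ #L := (power_le_power_right hKL).trans hLK
    have e2 : (#K ^ #K) ^ #K ≤ #L := (power_le_power_right e1).trans hLK
    exact ((power_le_power_right e2).trans (power_le_power_left hLne hWK)).trans hLK
  calc #(Cond S) ≤ #((Σ ζ : L, (Iic ζ → W → K)) × (W → K) × (W → K → K → Finset K)) :=
        mk_le_of_injective hF
    _ = #(Σ ζ : L, (Iic ζ → W → K)) * (#(W → K) * #(W → K → K → Finset K)) := by
        rw [← mul_def, ← mul_def]
    _ ≤ #L * (#L * #L) := mul_le_mul' h1 (mul_le_mul' h2 h3)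
    _ = #L := by rw [mul_eq_self hLinf, mul_eq_self hLinf]

end F61
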