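import Pool.Agent.W_MP_f61043_lc.Dist

/-!
# MP_f61043_lc : Lemma 4, density, and the existence of conditions

`nonempty_cond`: `ζ` is the least element of `L`, `γ t = z0`, `g ξ t = z0` for `ξ = ζ`, `k t` for `ξ > ζ` (every `ξ` is `≥ ζ`),
`w = ∅`, where `z0` is the least element of `K`.

`dense_γ`: well-founded induction on `a` (for all `p`).  If `a` is the least element: `q = p`.  If `a` is the successor of `a'`:
take `q` for `a'` and then `exists_top` (with `ν` the least element of `K`, `LeI t q q`) which gives `q.γ t < r.γ t`.  Otherwise `IsLim a`: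
`distI t` for `J = Iio a` (`S.card_le`) and `U x = {q | x ≤ q.γ t}`; then `a ≤ q.γ t` (otherwise `q.γ t < x < a`).

`exists_cofinal`: take a map `f : K → L` whose range contains `Iio η` and is contained in it (`S.segL`; `Iio η` is not empty).  If
for some `t` the set `f '' (Iio (k' t))` is not bounded below `η`: `i' = ` the next element of `W` after `t` (then
`#(Iio (k' t)) ≤ #(Iio (k i'))`, `S.k'_le`).  Otherwise choose bounds `b t < η` for `t : W`; these are cofinal (`S.cofin`), and
`#W = ℵ₁ ≤ #(Iio (k i'))` for all `i'`.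

`dense_ζ`: well-founded induction on `η` (for all `i`, `p`).  Least element: `q = p`; successor: `exists_top` gives `q.ζ < r.ζ`;
limit: `exists_cofinal` gives `i'`, `f : J → L`; `distI (max i i')` with `U j = {q | f j ≤ q.ζ}`, and `LeI.mono`.
-/

universe u

open Cardinal Set Filter

namespace F61

open Pool.Agent.W_MP_315f31_lc

variable {W K L : Type u} [LinearOrder W] [LinearOrder K] [LinearOrder L]
  [WellFoundedLT W] [WellFoundedLT K] [WellFoundedLT L]

theorem nonempty_cond (S : Sett W K L) : Nonempty (Cond S) := by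
  classical
  have hK : Nonempty K := by
    rw [← mk_ne_zero_iff]
    exact (aleph0_pos.trans_le (aleph0_le_K S)).ne'
  have hL : Nonempty L := by
    rw [← mk_ne_zero_iff, S.cardL]
    exact ((aleph0_pos.trans_le (aleph0_le_K S)).trans (Order.lt_succ _)).ne'
  obtain ⟨z0, hz0⟩ : ∃ z0 : K, ∀ x, z0 ≤ x :=
    ⟨WellFounded.min (wellFounded_lt (α := K)) Set.univ Set.univ_nonempty,
      fun s => not_lt.1 (WellFounded.not_lt_min (wellFounded_lt (α := K)) Set.univ (mem_univ s))⟩
  obtain ⟨ζ, hζ⟩ : ∃ ζ : L, ∀ x, ζ ≤ x :=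
    ⟨WellFounded.min (wellFounded_lt (α := L)) Set.univ Set.univ_nonempty,
      fun s => not_lt.1 (WellFounded.not_lt_min (wellFounded_lt (α := L)) Set.univ (mem_univ s))⟩
  refine ⟨{ ζ := ζ
            g := fun ξ t => if ξ = ζ then z0 else S.k t
            γ := fun _ => z0
            w := fun _ _ _ => ∅
            str := fun t => ?_
            g_junk := fun ξ h t => if_neg h.ne'
            g_lt := fun ξ t => ?_
            mono := fun ξ ξ' h h' => absurd (h.trans_le h') (not_lt.2 (hζ ξ))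
            top := Eventually.of_forall fun t => (if_pos rfl).symm
            cont := fun δ hδ s _ hs' _ => absurd ((hs' 0).trans_le hδ) (not_lt.2 (hζ _))
            lim := fun ξ ξ' h h' => absurd (h.trans_le h') (not_lt.2 (hζ ξ)) }⟩
  · exact
      { lt := (hz0 (S.k t)).trans_lt (S.k_lt t)
        junk := fun _ _ _ => rfl
        ne := fun x z h h' => absurd (h.trans_le h') (not_lt.2 (hz0 x))
        val := fun _ _ a ha => absurd ha (Finset.notMem_empty a)
        coh := fun x y z h h' h'' => absurd ((h.trans h').trans_le h'') (not_lt.2 (hz0 x))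
        small := fun s _ v _ z hz => by
          have h0 : {x : K | x < z ∧ Bd (∅ : Finset K) v} = ∅ := by
            ext x
            simp only [mem_setOf_eq, mem_empty_iff_false, iff_false, not_and]
            intro hx
            exact absurd (hx.trans_le hz) (not_lt.2 (hz0 x))
          rw [h0, mk_emptyCollection]
          exact zero_le
        loc := fun δ z h h' => absurd (h.trans_le h') (not_lt.2 (hz0 δ)) }
  · split_ifs
    · exact (hz0 (S.k t)).trans_lt (S.k_lt t)
    · exact S.k_lt t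

variable {S : Sett W K L}

theorem Dense_exists_lt_k (S : Sett W K L) (t : W) : ∃ ν, ν < S.k t := by
  have h : #(Iio (S.k t)) ≠ 0 := (aleph0_pos.trans_le (aleph0_le_ck S t)).ne'
  obtain ⟨ν⟩ := mk_ne_zero_iff.1 h
  exact ⟨ν.1, ν.2⟩

/-- least element, successor or limit -/
theorem Dense_cases {A : Type u} [LinearOrder A] (a : A) :
    (∀ x, a ≤ x) ∨ IsLim a ∨ ∃ a' < a, ∀ x, a' < x → a ≤ x := by
  by_cases h : ∀ x, a ≤ x
  · exact Or.inl h
  · push Not at h
    by_cases h' : ∀ x < a, ∃ y, x < y ∧ y < a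
    · exact Or.inr (Or.inl ⟨h, h'⟩)
    · push Not at h'
      exact Or.inr (Or.inr h')

theorem dense_γ (t : W) (a : K) (ha : a < S.k' t) (p : Cond S) : ∃ q, LeI t q p ∧ a ≤ q.γ t := by
  induction a using WellFoundedLT.induction generalizing p with
  | ind a ih =>
    rcases Dense_cases a with h | h | ⟨a', ha', h⟩
    · exact ⟨p, LeI.refl t p, h _⟩
    · obtain ⟨q, hq, hU⟩ := distI (S := S) t (J := Iio a) (S.card_le t a ha)
        (fun x => {q | x.1 ≤ q.γ t}) (fun x q r hq hr => le_trans hq (hr.1.2.2.1 t)) p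
        (fun x q _ => ih x.1 x.2 (lt_trans x.2 ha) q)
      refine ⟨q, hq, ?_⟩
      by_contra hc
      obtain ⟨y, hy, hy'⟩ := h.2 _ (not_le.1 hc)
      exact absurd (hU ⟨y, hy'⟩) (not_le.2 hy)
    · obtain ⟨q, hq, hq'⟩ := ih a' ha' (ha'.trans ha) p
      obtain ⟨ν, hν⟩ := Dense_exists_lt_k S t
      obtain ⟨r, hr, hr'⟩ := exists_top t hν (LeI.refl t q)
      exact ⟨r, hr.trans hq, h _ (hq'.trans_lt (hr'.2.2 t le_rfl).1)⟩

theorem exists_cofinal (S : Sett W K L) {η : L} (hη : IsLim η) :
    ∃ (i : W) (J : Type u) (f : J → L), #J ≤ #(Iio (S.k i)) ∧ (∀ j, f j < η) ∧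
      ∀ x < η, ∃ j, x ≤ f j := by
  obtain ⟨x0, hx0⟩ := hη.1
  have : Nonempty (Iio η) := ⟨⟨x0, hx0⟩⟩
  obtain ⟨e⟩ : Nonempty (Iio η ↪ K) := (Cardinal.le_def _ _).1 (S.segL η)
  obtain ⟨f, hf⟩ : ∃ f : K → Iio η, ∀ x, f (e x) = x :=
    ⟨Function.invFun e, Function.leftInverse_invFun e.injective⟩
  by_cases h : ∃ t : W, ∀ x < η, ∃ v, v < S.k' t ∧ x ≤ (f v).1
  · obtain ⟨t, ht⟩ := h
    obtain ⟨t', ht'⟩ := exists_nextW S t
    have htt : t < t' := (ht' t).2 le_rfl
    refine ⟨t', Iio (S.k' t), fun v => (f v.1).1, ?_, fun v => (f v.1).2, fun x hx => ?_⟩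
    · exact mk_le_mk_of_subset (Iio_subset_Iio (S.k'_le t t' htt))
    · obtain ⟨v, hv, hv'⟩ := ht x hx
      exact ⟨⟨v, hv⟩, hv'⟩
  · push Not at h
    choose b hb hb' using h
    obtain ⟨i⟩ := nonemptyW S
    refine ⟨i, W, b, S.w_card.le.trans (aleph_one_le_ck S i), hb, fun x hx => ?_⟩
    obtain ⟨t, ht⟩ := S.cofin (e ⟨x, hx⟩)
    refine ⟨t, ?_⟩
    have h1 := hb' t _ ht
    rw [hf] at h1
    exact h1.le

theorem dense_ζ (i : W) (η : L) (p : Cond S) : ∃ q, LeI i q p ∧ η ≤ q.ζ := by
  induction η using WellFoundedLT.induction generalizing i p with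
  | ind η ih =>
    rcases Dense_cases η with h | h | ⟨η', hη', h⟩
    · exact ⟨p, LeI.refl i p, h _⟩
    · obtain ⟨i', J, f, hJ, hf, hf'⟩ := exists_cofinal S h
      obtain ⟨q, hq, hU⟩ := distI (S := S) (max i i') (J := J)
        (hJ.trans (ck_mono S (le_max_right i i')))
        (fun j => {q | f j ≤ q.ζ}) (fun j q r hq hr => le_trans hq hr.1.1) p
        (fun j q _ => ih (f j) (hf j) (max i i') q)
      refine ⟨q, hq.mono (le_max_left i i'), ?_⟩
      by_contra hc
      obtain ⟨y, hy, hy'⟩ := h.2 _ (not_le.1 hc)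
      obtain ⟨j, hj⟩ := hf' y hy'
      exact absurd (hj.trans (hU j)) (not_le.2 hy)
    · obtain ⟨q, hq, hq'⟩ := ih η' hη' i p
      obtain ⟨ν, hν⟩ := Dense_exists_lt_k S i
      obtain ⟨r, hr, hr'⟩ := exists_top i hν (LeI.refl i q)
      exact ⟨r, hr.trans hq, h _ (hq'.trans_lt hr'.2.1)⟩

end F61
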