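import Pool.Agent.W_MP_f61043_lc.LimT

/-!
# MP_f61043_lc : Lemma 2, limits of sequences of conditions

Let `j0` be any index.  `ζ` is the least upper bound of the `(p j).ζ` (`regL`, `exists_lub`; strictly above all of them since
there is no greatest index); for `t ≥ i` let `γ t` be the least upper bound of the `(p j).γ t` (`regK t`, since
`#J ≤ #(Iio (k i)) ≤ #(Iio (k t))`), again strictly above all of them.  For `ξ < ζ` choose `jL ξ : J` with `ξ < (p (jL ξ)).ζ`.
For `t ≥ i` choose `jj t : K → J` with `x < (p (jj t x)).γ t` for `x < γ t`.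
* `q.γ t = if i ≤ t then γ t else (p j0).γ t`;
* `q.g ξ t = if ξ < ζ then (p (jL ξ)).g ξ t else if ξ = ζ then q.γ t else k t`;
* `q.w t = if i ≤ t then limW (fun j => (p j).γ t) (fun j => (p j).w t) (γ t) (jj t) else (p j0).w t`.
For `t < i` all `(p j).γ t`, `(p j).w t` are the same (`LeI`; `Le` and `TStr.junk`; compare `j` with `j0`).
For `ξ ≤ (p j).ζ`: `q.g ξ = (p j).g ξ` (compare `jL ξ` with `j`, `Le`).
`str`: `TStr.limit`; its hypothesis `hs` for `v < k' s`, `s < t`: `lev v ≤ s` (`lev_le`), so by `hs` either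
`#J ≤ #(Iio (k (lev v))) ≤ #(Iio (k s))` or `v < ℓ j`, and then for `j' > j` and `x` between the tops there is a label `≥ ℓ j > v`.
`mono` at `ζ`: `ξ < ζ`: take `j` with `ξ < (p j).ζ`: for large `t`, `(p j).g ξ t < (p j).g (p j).ζ t = (p j).γ t < γ t`.
`top`: all `t`.
`cont` at `δ = ζ` for the sequence `s n`: for every `n` choose `j n` with `s n < (p (j n)).ζ`; for every `j` there is `n` with `(p j).ζ < s n`,
so `(p j).ζ < (p (j n)).ζ`, `j < j n` (otherwise `j n ≤ j` and `Le`), so the `(p (j n)).γ t` have the supremum `γ t` for all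
`t ≥ i`.  For every `n` choose `m n` with `(p (j n)).ζ < s (m n)`.  For large `t` (`ev_all`), for all `n`:
`(p (j n)).γ t = q.g (p (j n)).ζ t < q.g (s (m n)) t`.
`lim` at `ζ`: `ξ < ζ`: take `j` with `ξ < (p j).ζ`; for large `t`: `q.g ξ t = (p j).g ξ t < (p j).γ t = (p j).g (p j).ζ t`, so
`q.w t (q.g ξ t) (γ t) = (p j).w t ((p j).g ξ t) ((p j).γ t)` (`limW_top`): `(p j).lim ξ (p j).ζ`.
For `ξ' < ζ`: everything comes from `p j` with `ξ' < (p j).ζ` (`limW_of_le`, `(p j).g ξ' t ≤ (p j).γ t` for large `t`).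
`Sq i (ℓ j) q (p j)`: `Le`: clear; for `(p j).γ t ≤ x < γ t` take `j' > j` with `x < (p j').γ t`.
-/

universe u

open Cardinal Set Filter

namespace F61

open Pool.Agent.W_MP_315f31_lc

variable {W K L : Type u} [LinearOrder W] [LinearOrder K] [LinearOrder L]
  [WellFoundedLT W] [WellFoundedLT K] [WellFoundedLT L]

omit [WellFoundedLT W] [WellFoundedLT K] [WellFoundedLT L] in
theorem LeI.w_eq {S : Sett W K L} {i : W} {q p : Cond S} (h : LeI i q p) {t : W} (ht : t < i) :
    q.w t = p.w t := by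
  funext x z
  by_cases hz : z ≤ p.γ t
  · exact h.1.2.2.2 t x z hz
  · rw [(p.str t).junk x z fun h1 => hz h1.2, (q.str t).junk x z]
    intro h1
    rw [h.2 t ht] at h1
    exact hz h1.2

/-- Lemma 2, limits. -/
theorem exists_lim {S : Sett W K L} {J : Type u} [LinearOrder J] [NoMaxOrder J] [Nonempty J] (i : W)
    (hJ : #J ≤ #(Iio (S.k i))) (ℓ : J → K) (p : J → Cond S)
    (hp : ∀ j j', j < j' → Sq i (ℓ j) (p j') (p j))
    (hs : ∀ v : K, #J ≤ #(Iio (S.k (lev S v))) ∨ ∃ j, v < ℓ j) :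
    ∃ q : Cond S, ∀ j, Sq i (ℓ j) q (p j) := by
  classical
  obtain ⟨j0⟩ := (inferInstance : Nonempty J)
  have hJK : #J ≤ #K := hJ.trans (ck_lt_K S i).le
  -- the height
  obtain ⟨ζ, hζ, hζ'⟩ : ∃ ζ : L, (∀ j, (p j).ζ < ζ) ∧ ∀ ξ < ζ, ∃ j, ξ < (p j).ζ := by
    obtain ⟨b, hb⟩ := regL S (fun j => (p j).ζ) hJK
    obtain ⟨z, _, h1, h2⟩ := exists_lub (fun j => (p j).ζ) (fun j => (hb j).le)
    refine ⟨z, fun j => ?_, h2⟩
    obtain ⟨j', hj'⟩ := exists_gt j
    exact (hp j j' hj').2.1.trans_le (h1 j')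
  -- the tops
  have hex : ∀ t, ∃ γ : K, (i ≤ t → (∀ j, (p j).γ t < γ) ∧ ∀ x < γ, ∃ j, x < (p j).γ t) ∧
      (¬ i ≤ t → γ = (p j0).γ t) ∧ γ < S.k' t := by
    intro t
    by_cases ht : i ≤ t
    · obtain ⟨b, hbk, hb⟩ := regK S t (fun j => (p j).γ t) (fun j => ((p j).str t).lt)
        (hJ.trans (ck_mono S ht))
      obtain ⟨z, hz, h1, h2⟩ := exists_lub (fun j => (p j).γ t) (fun j => (hb j).le)
      refine ⟨z, fun _ => ⟨fun j => ?_, h2⟩, fun h => absurd ht h, hz.trans_lt hbk⟩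
      obtain ⟨j', hj'⟩ := exists_gt j
      exact ((hp j j' hj').2.2 t ht).1.trans_le (h1 j')
    · exact ⟨(p j0).γ t, fun h => absurd h ht, fun _ => rfl, ((p j0).str t).lt⟩
  choose Γ hΓ1 hΓ2 hΓ3 using hex
  -- the indices
  have hexL : ∀ ξ, ∃ j, ξ < ζ → ξ < (p j).ζ := by
    intro ξ
    by_cases h : ξ < ζ
    · obtain ⟨j, hj⟩ := hζ' ξ h
      exact ⟨j, fun _ => hj⟩
    · exact ⟨j0, fun h' => absurd h' h⟩
  choose jL hjL using hexL
  have hexj : ∀ t x, ∃ j, i ≤ t → x < Γ t → x < (p j).γ t := by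
    intro t x
    by_cases h : i ≤ t ∧ x < Γ t
    · obtain ⟨j, hj⟩ := (hΓ1 t h.1).2 x h.2
      exact ⟨j, fun _ _ => hj⟩
    · exact ⟨j0, fun h1 h2 => absurd ⟨h1, h2⟩ h⟩
  choose jj hjj using hexj
  -- the values
  let G : L → W → K := fun ξ t => if ξ < ζ then (p (jL ξ)).g ξ t else if ξ = ζ then Γ t else S.k t
  have hGζ : ∀ t, G ζ t = Γ t := fun t => by
    show (if ζ < ζ then _ else if ζ = ζ then Γ t else S.k t) = Γ t
    rw [if_neg (lt_irrefl _), if_pos rfl]
  have hG : ∀ j ξ, ξ ≤ (p j).ζ → G ξ = (p j).g ξ := by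
    intro j ξ hξ
    have h1 : ξ < ζ := hξ.trans_lt (hζ j)
    have h2 : G ξ = (p (jL ξ)).g ξ := by
      funext t
      exact if_pos h1
    rw [h2]
    rcases lt_trichotomy j (jL ξ) with h | h | h
    · exact (hp _ _ h).1.1.2.1 ξ hξ
    · rw [← h]
    · exact ((hp _ _ h).1.1.2.1 ξ (hjL ξ h1).le).symm
  -- the structures
  let Wt : W → K → K → Finset K := fun t =>
    if i ≤ t then limW (fun j => (p j).γ t) (fun j => (p j).w t) (Γ t) (jj t) else (p j0).w t
  have hH : ∀ t, i ≤ t → LimH (fun j => (p j).γ t) (fun j => (p j).w t) (Γ t) (jj t) := by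
    intro t ht
    refine ⟨fun j j' h => ((hp j j' h).2.2 t ht).1, fun j j' h x z hz => (hp j j' h).1.1.2.2.2 t x z hz,
      fun j j' h x hx => ((hp j j' h).2.2 t ht).2.1 x hx, (hΓ1 t ht).1, fun z hz => hjj t z ht hz⟩
  have hWt : ∀ t, ¬ i ≤ t → ∀ j, (p j).γ t = (p j0).γ t ∧ (p j).w t = (p j0).w t := by
    intro t ht j
    have ht' : t < i := not_le.1 ht
    rcases lt_trichotomy j j0 with h | h | h
    · exact ⟨((hp _ _ h).1.2 t ht').symm, ((hp _ _ h).1.w_eq ht').symm⟩
    · rw [h]; exact ⟨rfl, rfl⟩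
    · exact ⟨(hp _ _ h).1.2 t ht', (hp _ _ h).1.w_eq ht'⟩
  have hW1 : ∀ t j x z, z ≤ (p j).γ t → Wt t x z = (p j).w t x z := by
    intro t j x z hz
    by_cases ht : i ≤ t
    · show (if i ≤ t then _ else _ : K → K → Finset K) x z = _
      rw [if_pos ht]
      exact limW_of_le (hH t ht) j hz
    · show (if i ≤ t then _ else _ : K → K → Finset K) x z = _
      rw [if_neg ht, (hWt t ht j).2]
  have hW2 : ∀ t, i ≤ t → ∀ j x, x < (p j).γ t → Wt t x (Γ t) = (p j).w t x ((p j).γ t) := by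
    intro t ht j x hx
    show (if i ≤ t then _ else _ : K → K → Finset K) x (Γ t) = _
    rw [if_pos ht]
    exact limW_top (hH t ht) j hx
  have hγle : ∀ j t, (p j).γ t ≤ Γ t := by
    intro j t
    by_cases ht : i ≤ t
    · exact ((hΓ1 t ht).1 j).le
    · rw [hΓ2 t ht, (hWt t ht j).1]
  -- large t
  have hGtop : ∀ j, ∀ᶠ t in atTop, (p j).γ t = G (p j).ζ t := by
    intro j
    filter_upwards [(p j).top] with t ht
    rw [hG j _ le_rfl]
    exact ht
  have hGγ : ∀ j ξ, ξ ≤ (p j).ζ → ∀ᶠ t in atTop, G ξ t ≤ (p j).γ t := by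
    intro j ξ hξ
    rcases hξ.eq_or_lt with h | h
    · filter_upwards [hGtop j] with t ht
      rw [ht, h]
    · filter_upwards [hGtop j, (p j).mono ξ _ h le_rfl] with t ht ht'
      rw [ht, hG j _ le_rfl, hG j _ hξ]
      exact ht'.le
  have hGγ' : ∀ j ξ, ξ < (p j).ζ → ∀ᶠ t in atTop, G ξ t < (p j).γ t := by
    intro j ξ hξ
    filter_upwards [hGtop j, (p j).mono ξ _ hξ le_rfl] with t ht ht'
    rw [ht, hG j _ le_rfl, hG j _ hξ.le]
    exact ht'
  have hGmono : ∀ ξ ξ', ξ < ξ' → ξ' ≤ ζ → ∀ᶠ t in atTop, G ξ t < G ξ' t := by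
    intro ξ ξ' h h'
    rcases h'.eq_or_lt with h1 | h1
    · rw [h1] at h ⊢
      filter_upwards [hGγ' (jL ξ) ξ (hjL ξ h), eventually_ge_atTop i] with t ht ht'
      rw [hGζ]
      exact ht.trans ((hΓ1 t ht').1 _)
    · have h2 := hjL ξ' h1
      filter_upwards [(p (jL ξ')).mono ξ ξ' h h2.le] with t ht
      rw [hG _ _ (h.trans h2).le, hG _ _ h2.le]
      exact ht
  let q : Cond S :=
    { ζ := ζ
      g := G
      γ := Γ
      w := Wt
      str := by
        intro t
        by_cases ht : i ≤ t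
        · show TStr S t (Γ t) (if i ≤ t then _ else _)
          rw [if_pos ht]
          refine TStr.limit (hH t ht) (fun j => (p j).str t) (hΓ3 t) ?_
          intro s hst v hv
          have hlv := lev_le S hv
          rcases hs v with h | ⟨j, hj⟩
          · exact Or.inl (h.trans (ck_mono S hlv))
          · refine Or.inr ⟨j, fun j' hj' x hx hx' hb => ?_⟩
            obtain ⟨a, ha, hla⟩ := ((hp j j' hj').2.2 t ht).2.2 x hx hx'
            exact absurd (hb a ha) (not_le.2 (hj.trans_le hla))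
        · show TStr S t (Γ t) (if i ≤ t then _ else _)
          rw [if_neg ht, hΓ2 t ht]
          exact (p j0).str t
      g_junk := by
        intro ξ hξ t
        show (if ξ < ζ then _ else if ξ = ζ then Γ t else S.k t) = S.k t
        rw [if_neg hξ.le.not_gt, if_neg hξ.ne']
      g_lt := by
        intro ξ t
        show (if ξ < ζ then _ else if ξ = ζ then Γ t else S.k t) < _
        split_ifs
        · exact (p _).g_lt _ _
        · exact hΓ3 t
        · exact S.k_lt t
      mono := hGmono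
      top := Filter.Eventually.of_forall fun t => (hGζ t).symm
      cont := by
        intro δ hδ s hsm hsδ hsup
        rcases hδ.eq_or_lt with h | h
        · subst h
          choose jn hjn using fun n => hζ' (s n) (hsδ n)
          choose m hm using fun n => hsup _ (hζ (jn n))
          have hcof : ∀ j, ∃ n, j < jn n := by
            intro j
            obtain ⟨n, hn⟩ := hsup _ (hζ j)
            refine ⟨n, ?_⟩
            by_contra hc
            have h1 : (p (jn n)).ζ ≤ (p j).ζ := by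
              rcases (not_lt.1 hc).eq_or_lt with h | h
              · rw [h]
              · exact (hp _ _ h).2.1.le
            exact absurd ((hn.trans (hjn n)).trans_le h1) (lt_irrefl _)
          filter_upwards [ev_all S fun n => hGtop (jn n),
            ev_all S fun n => hGmono _ _ (hm n) (hsδ (m n)).le, eventually_ge_atTop i] with t h1 h2 h3
          intro x hx
          rw [hGζ] at hx
          obtain ⟨j, hj⟩ := (hΓ1 t h3).2 x hx
          obtain ⟨n, hn⟩ := hcof j
          refine ⟨m n, hj.trans (((hp _ _ hn).2.2 t h3).1.trans ?_)⟩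
          rw [h1 n]
          exact h2 n
        · have h2 := hjL δ h
          filter_upwards [(p (jL δ)).cont δ h2.le s hsm hsδ hsup] with t ht
          intro x hx
          rw [hG _ _ h2.le] at hx
          obtain ⟨n, hn⟩ := ht x hx
          refine ⟨n, ?_⟩
          rw [hG _ _ ((hsδ n).trans h2).le]
          exact hn
      lim := by
        intro ξ ξ' h h'
        rcases h'.eq_or_lt with h1 | h1
        · rw [h1] at h ⊢
          have h2 := hjL ξ h
          obtain ⟨V, hV⟩ := (p (jL ξ)).lim ξ _ h2 le_rfl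
          refine ⟨V, ?_⟩
          filter_upwards [hV, hGγ' _ ξ h2, (p (jL ξ)).top, eventually_ge_atTop i] with t h3 h4 h5 h6
          rw [hGζ, hW2 t h6 _ _ h4, ← h3, hG _ _ h2.le, h5]
        · have h2 := hjL ξ' h1
          obtain ⟨V, hV⟩ := (p (jL ξ')).lim ξ ξ' h h2.le
          refine ⟨V, ?_⟩
          filter_upwards [hV, hGγ _ ξ' h2.le] with t h3 h4
          rw [hW1 t _ _ _ h4, ← h3, hG _ _ h2.le, hG _ _ (h.trans h2).le] }
  refine ⟨q, fun j => ⟨⟨⟨(hζ j).le, fun ξ hξ => hG j ξ hξ, hγle j, fun t x z hz => hW1 t j x z hz⟩,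
    fun t ht => ?_⟩, hζ j, fun t ht => ⟨(hΓ1 t ht).1 j, fun x hx => hW2 t ht j x hx, ?_⟩⟩⟩
  · show Γ t = _
    rw [hΓ2 t (not_le.2 ht), (hWt t (not_le.2 ht) j).1]
  · intro x hx hx'
    obtain ⟨j1, hj1⟩ := (hΓ1 t ht).2 x hx'
    have hjj1 : j < j1 := by
      by_contra hc
      have h1 : (p j1).γ t ≤ (p j).γ t := by
        rcases (not_lt.1 hc).eq_or_lt with h | h
        · rw [h]
        · exact ((hp _ _ h).2.2 t ht).1.le
      exact absurd (hj1.trans_le (h1.trans hx)) (lt_irrefl _)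
    obtain ⟨a, ha, hla⟩ := ((hp j j1 hjj1).2.2 t ht).2.2 x hx hj1
    refine ⟨a, ?_, hla⟩
    show a ∈ Wt t x (Γ t)
    rw [hW2 t ht j1 x hj1]
    exact ha

end F61
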