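import Pool.Agent.W_MP_f61043_lc.Top
import Pool.Agent.W_MP_f61043_lc.LimC

/-!
# MP_f61043_lc : Lemma 3, the distributivity of the tails

`distI`: first for `J = Iio (k i)` (in general use an injection of `J` into `Iio (k i)`, `U' ν = U j` if `ν` is the image of `j`,
`Set.univ` if there is no such `j`).  Let `U ν`, `ν < k i`, be given.  Define `s : K → Cond S` by well-founded recursion (as in
`W61.dist_closed`): `s ν` is some `q` with `LeI i q p` and, for all `μ < ν`, `Sq i μ q (s μ)` and (if `μ < k i`) `q ∈ U μ`, if there is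
one, and `p` otherwise.  By strong induction there is one for all `ν ≤ k i`:
* no `μ < ν`: `q = p`;
* `ν` is the successor of `μ` (`∀ x, x < ν ↔ x ≤ μ`; then `μ < k i`): by density take `q ≤_i s μ` in `U μ` and
  `r ≤_i q` with `Sq i μ r (s μ)` (`exists_top`); for `μ' < μ` `Sq.trans`;
* otherwise `IsLim ν`: `exists_lim` for `J = Iio ν` (no greatest element, not empty), `ℓ = Subtype.val`, `#J ≤ #(Iio (k i))`; its
  `hs`: if `v < ν` then there is `j` with `v < j < ν`; if `ν ≤ v` then `#(Iio ν) ≤ #(Iio v) ≤ #(Iio (k (lev v)))` (`S.card_le`,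
  `lt_k'_lev`).
The condition `s (k i)` is in all `U ν`, `ν < k i`.
-/

universe u

open Cardinal Set Filter

namespace F61

open Pool.Agent.W_MP_315f31_lc

variable {W K L : Type u} [LinearOrder W] [LinearOrder K] [LinearOrder L]
  [WellFoundedLT W] [WellFoundedLT K] [WellFoundedLT L] {S : Sett W K L}

/-- `U` is closed under `≤_i`. -/
def OpnI (i : W) (U : Set (Cond S)) : Prop := ∀ p q, p ∈ U → LeI i q p → q ∈ U

/-- `U` is `i`-dense below `p`. -/
def DnsI (i : W) (p : Cond S) (U : Set (Cond S)) : Prop := ∀ q, LeI i q p → ∃ r, LeI i r q ∧ r ∈ U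

omit [WellFoundedLT W] [WellFoundedLT K] [WellFoundedLT L] in
theorem Le.refl (p : Cond S) : Le p p := IsPre.refl p

omit [WellFoundedLT W] [WellFoundedLT K] [WellFoundedLT L] in
theorem Le.trans {p q r : Cond S} (h1 : Le r q) (h2 : Le q p) : Le r p := IsPre.trans _ _ _ h1 h2

omit [WellFoundedLT W] [WellFoundedLT K] [WellFoundedLT L] in
theorem LeI.refl (i : W) (p : Cond S) : LeI i p p := ⟨IsPre.refl p, fun _ _ => rfl⟩

omit [WellFoundedLT W] [WellFoundedLT K] [WellFoundedLT L] in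
theorem LeI.trans {i : W} {p q r : Cond S} (h1 : LeI i r q) (h2 : LeI i q p) : LeI i r p :=
  ⟨IsPre.trans _ _ _ h1.1 h2.1, fun t ht => (h1.2 t ht).trans (h2.2 t ht)⟩

omit [WellFoundedLT W] [WellFoundedLT K] [WellFoundedLT L] in
theorem LeI.mono {i j : W} (hij : i ≤ j) {p q : Cond S} (h : LeI j q p) : LeI i q p :=
  ⟨h.1, fun t ht => h.2 t (ht.trans_le hij)⟩

omit [WellFoundedLT W] [WellFoundedLT K] [WellFoundedLT L] in
theorem LeI.of_least {i : W} (hi : ∀ s, i ≤ s) {p q : Cond S} (h : Le q p) : LeI i q p :=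
  ⟨h, fun t ht => absurd ht (not_lt.2 (hi t))⟩

omit [WellFoundedLT W] [WellFoundedLT K] [WellFoundedLT L] in
theorem Sq.trans {i : W} {ν ν' : K} (hν : ν ≤ ν') {p q r : Cond S} (h1 : Sq i ν' r q) (h2 : Sq i ν q p) :
    Sq i ν r p := by
  refine ⟨LeI.trans h1.1 h2.1, h2.2.1.trans h1.2.1, fun t ht => ?_⟩
  obtain ⟨a1, a2, a3⟩ := h1.2.2 t ht
  obtain ⟨b1, b2, b3⟩ := h2.2.2 t ht
  refine ⟨b1.trans a1, fun x hx => ?_, fun x hx hx' => ?_⟩
  · rw [a2 x (hx.trans b1), b2 x hx]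
  · rcases lt_or_ge x (q.γ t) with h | h
    · rw [a2 x h]
      exact b3 x hx h
    · obtain ⟨a, ha, hva⟩ := a3 x h hx'
      exact ⟨a, ha, hν.trans hva⟩

/-- Lemma 3, distributivity. -/
theorem distI (i : W) {J : Type u} (hJ : #J ≤ #(Iio (S.k i))) (U : J → Set (Cond S))
    (ho : ∀ j, OpnI i (U j)) (p : Cond S) (hd : ∀ j, DnsI i p (U j)) :
    ∃ q, LeI i q p ∧ ∀ j, q ∈ U j := by
  classical
  obtain ⟨f⟩ := (Cardinal.le_def _ _).1 hJ
  let U' : K → Set (Cond S) := fun ν => {q | ∀ j, (f j).1 = ν → q ∈ U j}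
  have ho' : ∀ ν, OpnI i (U' ν) := fun ν q r hq hr j hj => ho j q r (hq j hj) hr
  have hd' : ∀ ν, DnsI i p (U' ν) := by
    intro ν q hq
    by_cases h : ∃ j, (f j).1 = ν
    · obtain ⟨j, hj⟩ := h
      obtain ⟨r, hr, hrU⟩ := hd j q hq
      refine ⟨r, hr, fun j' hj' => ?_⟩
      have h1 : j' = j := f.injective (Subtype.ext (hj'.trans hj.symm))
      rw [h1]
      exact hrU
    · exact ⟨q, LeI.refl i q, fun j hj => absurd ⟨j, hj⟩ h⟩
  have wf : WellFounded (fun a b : K => a < b) := wellFounded_lt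
  let F : (ν : K) → ((μ : K) → μ < ν → Cond S) → Cond S := fun ν ih =>
    if h : ∃ q, LeI i q p ∧ ∀ μ (hμ : μ < ν), Sq i μ q (ih μ hμ) ∧ q ∈ U' μ then h.choose else p
  let s : K → Cond S := wf.fix F
  have hs : ∀ ν, s ν = F ν (fun μ _ => s μ) := fun ν => wf.fix_eq F ν
  have key : ∀ ν, ν ≤ S.k i →
      LeI i (s ν) p ∧ ∀ μ, μ < ν → Sq i μ (s ν) (s μ) ∧ s ν ∈ U' μ := by
    intro ν
    refine wf.induction (C := fun ν => ν ≤ S.k i →
      LeI i (s ν) p ∧ ∀ μ, μ < ν → Sq i μ (s ν) (s μ) ∧ s ν ∈ U' μ) ν ?_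
    intro ν ih hν
    have hex : ∃ q, LeI i q p ∧ ∀ μ (_ : μ < ν), Sq i μ q (s μ) ∧ q ∈ U' μ := by
      by_cases h0 : ∃ x, x < ν
      · by_cases h1 : ∀ x < ν, ∃ y, x < y ∧ y < ν
        · -- limit
          have : Nonempty (Iio ν) := by
            obtain ⟨x, hx⟩ := h0
            exact ⟨⟨x, hx⟩⟩
          have : NoMaxOrder (Iio ν) := ⟨fun x => by
            obtain ⟨y, hy, hy'⟩ := h1 x.1 x.2
            exact ⟨⟨y, hy'⟩, hy⟩⟩
          obtain ⟨q, hq⟩ := exists_lim (S := S) (J := Iio ν) i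
            (mk_le_mk_of_subset (Iio_subset_Iio hν)) Subtype.val (fun j => s j.1)
            (fun j j' hjj => ((ih j'.1 j'.2 (le_of_lt (lt_of_lt_of_le j'.2 hν))).2 j.1 hjj).1)
            (fun v => by
              rcases lt_or_ge v ν with h | h
              · obtain ⟨y, hy, hy'⟩ := h1 v h
                exact Or.inr ⟨⟨y, hy'⟩, hy⟩
              · exact Or.inl ((mk_le_mk_of_subset (Iio_subset_Iio h)).trans
                  (S.card_le (lev S v) v (lt_k'_lev S v))))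
          have hle : ∀ μ, μ < ν → μ ≤ S.k i := fun μ hμ => hμ.le.trans hν
          refine ⟨q, ?_, fun μ hμ => ⟨hq ⟨μ, hμ⟩, ?_⟩⟩
          · obtain ⟨x, hx⟩ := h0
            exact LeI.trans (hq ⟨x, hx⟩).1 (ih x hx (hle x hx)).1
          · obtain ⟨y, hy, hy'⟩ := h1 μ hμ
            exact ho' μ _ _ ((ih y hy' (hle y hy')).2 μ hy).2 (hq ⟨y, hy'⟩).1
        · -- successor
          push Not at h1
          obtain ⟨μ, hμ, hμ'⟩ := h1
          obtain ⟨h2, h3⟩ := ih μ hμ (hμ.le.trans hν)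
          obtain ⟨q, hq, hqU⟩ := hd' μ (s μ) h2
          obtain ⟨r, hr, hrs⟩ := exists_top i (hμ.trans_le hν) hq
          refine ⟨r, LeI.trans hrs.1 h2, fun x hx => ?_⟩
          have hxμ : x ≤ μ := by
            by_contra hc
            exact absurd hx (not_lt.2 (hμ' x (not_le.1 hc)))
          rcases hxμ.eq_or_lt with h4 | h4
          · rw [h4]
            exact ⟨hrs, ho' μ _ _ hqU hr⟩
          · exact ⟨Sq.trans h4.le hrs (h3 x h4).1, ho' x _ _ (h3 x h4).2 hrs.1⟩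
      · exact ⟨p, LeI.refl i p, fun μ hμ => absurd ⟨μ, hμ⟩ h0⟩
    have hsν : s ν = hex.choose := by
      rw [hs]
      exact dif_pos hex
    rw [hsν]
    exact hex.choose_spec
  obtain ⟨h1, h2⟩ := key (S.k i) le_rfl
  exact ⟨s (S.k i), h1, fun j => (h2 (f j).1 (f j).2).2 j rfl⟩

end F61
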