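import Pool.Agent.W_MP_f61043_lc.Basic

/-!
# MP_f61043_lc : the setting for `κ = ℵ_{ω₁}`, and the properties of the forcing

`exists_sett`: `W = Wo = (ℵ₁).ord.ToType`, `K = To (ℵ_ ω₁)` (`ℵ_ (Ordinal.omega 1)`, i.e. `Cardinal.aleph (ω_ 1)`), `L = To (succ (ℵ_ ω₁))`.
For `t : W` let `o t < ω_ 1` be the ordinal of `t` (`Ordinal.typein`), `k t` is the element of `K` of the type `(ℵ_ (1 + o t)).ord`,
`k' t` of the type `(ℵ_ (1 + o t + 1)).ord`.  (Use the order isomorphism of `K` with the ordinals below `(ℵ_ ω₁).ord`; then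
`#(Iio x) = (the ordinal of x).card`.)
* `k_cont`: `ℵ_ (1 + o)` is the supremum of the `ℵ_ (1 + o' + 1)`, `o' < o`, for a limit `o`; for a successor `o = o' + 1` it is equal to
  `ℵ_ (1 + o' + 1)`.
* `cofin`: `ℵ_ ω₁` is the supremum of the `ℵ_ (1 + o + 1)`, `o < ω₁`.
* `card_bot`: the least element has `o = 0`.
* `segL`: `mk_Iio_To`.
-/

universe u

open Cardinal Set Filter

namespace F61

open Pool.Agent.W_MP_315f31_lc W61

/-- the ordinal of an element -/
noncomputable def oT {c : Cardinal.{u}} (t : To c) : Ordinal.{u} :=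
  Ordinal.typein (α := To c) (· < ·) t

theorem oT_lt {c : Cardinal.{u}} (t : To c) : oT t < c.ord := Ordinal.typein_lt_self t

theorem oT_lt_oT {c : Cardinal.{u}} {s t : To c} : oT s < oT t ↔ s < t :=
  Ordinal.typein_lt_typein (α := To c) (· < ·)

theorem oT_surj {c : Cardinal.{u}} {o : Ordinal.{u}} (h : o < c.ord) : ∃ t : To c, oT t = o :=
  Ordinal.typein_surj (α := To c) (· < ·) (by rw [Ordinal.type_toType]; exact h)

theorem oT_card {c : Cardinal.{u}} (t : To c) : #(Iio t) = (oT t).card := by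
  have := Ordinal.card_typein (α := To c) (r := (· < ·)) t
  exact this

/-- cardinals in terms of alephs -/
theorem exists_idx {c : Cardinal.{u}} {o : Ordinal.{u}} (h : c < ℵ_ o) (ho : 0 < o) :
    ∃ a < o, c ≤ ℵ_ a := by
  rcases lt_or_ge c ℵ₀ with h1 | h1
  · exact ⟨0, ho, by rw [aleph_zero]; exact h1.le⟩
  · obtain ⟨a, rfl⟩ := Cardinal.mem_range_aleph_iff.2 h1
    exact ⟨a, aleph_lt_aleph.1 h, le_rfl⟩

theorem om1_lt {o : Ordinal.{u}} (h : o < (ℵ₁ : Cardinal.{u}).ord) :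
    1 + o + 1 < (ℵ₁ : Cardinal.{u}).ord := by
  rw [Cardinal.lt_ord, lt_aleph_one_iff] at h ⊢
  rw [Ordinal.card_add, Ordinal.card_add, Ordinal.card_one]
  exact add_le_aleph0.2 ⟨add_le_aleph0.2 ⟨one_le_aleph0, h⟩, one_le_aleph0⟩

theorem exists_kk (t : Wo.{u}) : ∃ x y : To (ℵ_ (Ordinal.omega 1) : Cardinal.{u}),
    oT x = (ℵ_ (1 + oT t)).ord ∧ oT y = (ℵ_ (1 + oT t + 1)).ord := by
  have h1 : 1 + oT t + 1 < Ordinal.omega 1 := by
    have h2 := om1_lt (oT_lt t)
    rwa [ord_aleph] at h2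
  obtain ⟨y, hy⟩ := oT_surj (c := ℵ_ (Ordinal.omega 1)) (o := (ℵ_ (1 + oT t + 1)).ord)
    (ord_lt_ord.2 (aleph_lt_aleph.2 h1))
  obtain ⟨x, hx⟩ := oT_surj (c := ℵ_ (Ordinal.omega 1)) (o := (ℵ_ (1 + oT t)).ord)
    (ord_lt_ord.2 (aleph_lt_aleph.2 ((lt_add_one _).trans h1)))
  exact ⟨x, y, hx, hy⟩

theorem exists_sett (hG : GCH0.{u}) :
    Nonempty (Sett Wo.{u} (To (ℵ_ (Ordinal.omega 1))) (To (Order.succ (ℵ_ (Ordinal.omega 1)))) ) := by
  choose k k' hk hk' using exists_kk.{u}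
  -- small cardinals are below `k' s`
  have key : ∀ (c : Cardinal.{u}) (o : Ordinal.{u}), o ≤ (ℵ₁ : Cardinal.{u}).ord → 0 < o →
      c < ℵ_ (1 + o) → ∃ s : Wo.{u}, oT s < o ∧ c < ℵ_ (1 + oT s + 1) := by
    intro c o ho ho0 hc
    obtain ⟨a, ha, hca⟩ := exists_idx hc (lt_of_lt_of_le ho0 le_add_self)
    rcases eq_or_ne a 0 with h0 | h0
    · obtain ⟨s, hs⟩ := oT_surj (c := (ℵ₁ : Cardinal.{u})) (ho0.trans_le ho)
      refine ⟨s, by rw [hs]; exact ho0, hca.trans_lt ?_⟩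
      rw [h0, aleph_lt_aleph]
      exact pos_iff_ne_zero.2 (by simp)
    · have h1 : (1 : Ordinal.{u}) ≤ a := Order.one_le_iff_ne_zero.2 h0
      have h2 : 1 + (a - 1) = a := Ordinal.add_sub_cancel_of_le h1
      have h3 : a - 1 < o := by
        rw [← h2] at ha
        exact (add_lt_add_iff_left 1).1 ha
      obtain ⟨s, hs⟩ := oT_surj (c := (ℵ₁ : Cardinal.{u})) (h3.trans_le ho)
      refine ⟨s, by rw [hs]; exact h3, hca.trans_lt ?_⟩
      rw [aleph_lt_aleph, hs, h2]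
      exact lt_add_one _
  refine ⟨{
    k := k
    k' := k'
    w_ctbl := fun t => ?_
    w_card := mk_ord_toType _
    k_lt := fun t => ?_
    k'_le := fun s t h => ?_
    k_cont := fun t v h => ?_
    cofin := fun v => ?_
    card_bot := fun t ht => ?_
    card_succ := fun t => ?_
    card_le := fun t v h => ?_
    segL := fun ξ => ?_
    cardL := ?_
    gch := hG }⟩
  · rw [← Cardinal.le_aleph0_iff_set_countable, ← lt_aleph_one_iff]
    exact mk_Iio_lt_To t
  · rw [← oT_lt_oT, hk, hk', ord_lt_ord, aleph_lt_aleph]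
    exact lt_add_one _
  · rw [← not_lt, ← oT_lt_oT, not_lt, hk, hk', ord_le_ord, aleph_le_aleph]
    rw [Order.add_one_le_iff]
    exact (add_lt_add_iff_left 1).2 (oT_lt_oT.2 h)
  · rcases eq_or_ne (oT t) 0 with h0 | h0
    · right
      intro s
      rw [← not_lt, ← oT_lt_oT, not_lt, h0]
      exact zero_le
    · left
      rw [← oT_lt_oT, hk, Cardinal.lt_ord] at h
      obtain ⟨s, hs, hc⟩ := key _ _ (oT_lt t).le (pos_iff_ne_zero.2 h0) h
      refine ⟨s, oT_lt_oT.1 hs, ?_⟩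
      rw [← oT_lt_oT, hk', Cardinal.lt_ord]
      exact hc
  · have h : (oT v).card < ℵ_ (1 + (ℵ₁ : Cardinal.{u}).ord) := by
      refine (Cardinal.lt_ord.1 (oT_lt v)).trans_le ?_
      rw [aleph_le_aleph, ord_aleph]
      exact le_add_self
    obtain ⟨s, hs, hc⟩ := key _ _ le_rfl (by
      rw [ord_aleph]
      exact Ordinal.omega_pos 1) h
    refine ⟨s, ?_⟩
    rw [← oT_lt_oT, hk', Cardinal.lt_ord]
    exact hc
  · have h0 : oT t = 0 := by
      by_contra hc
      obtain ⟨s, hs⟩ := oT_surj (c := (ℵ₁ : Cardinal.{u})) (o := 0)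
        ((pos_iff_ne_zero.2 hc).trans (oT_lt t))
      have h1 : s < t := by
        rw [← oT_lt_oT, hs]
        exact pos_iff_ne_zero.2 hc
      exact absurd (ht s) (not_le.2 h1)
    rw [oT_card, hk, card_ord, h0, add_zero]
  · rw [oT_card, oT_card, hk, hk', card_ord, card_ord, succ_aleph]
  · rw [oT_card, oT_card, hk, card_ord]
    rw [← oT_lt_oT, hk', Cardinal.lt_ord, ← succ_aleph, Order.lt_succ_iff] at h
    exact h
  · rw [mk_ord_toType]
    exact mk_Iio_To ξ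
  · rw [mk_ord_toType, mk_ord_toType]

end F61
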