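import Pool.Agent.W_MP_f61043_lc.Bad
import Pool.Agent.W_MP_f61043_lc.Dense

/-!
# MP_f61043_lc : the main argument

`kill_chain`.  Choose `ts` (not the least element) such that for all `t ≥ ts`:
`p.g (s n) t < p.g (s m) t` for `n < m`, `p.g (s n) t < p.g γ t ≤ p.γ t`, `∀ x < p.g γ t, ∃ n, x < p.g (s n) t` (`p.cont`),
`p.w t (p.g (s n) t) (p.g γ t) = V n`, and `ts ≥ t0`, `t0` for the sequence `labs S (V n)` and `e` (`IsSplit`) (`ev_all`, `ev_all`).
`X = {α | BadC pr p γ ts α}`.  Claim: for `α ∉ X` and `q ≤ p` there are `q' ≤ q`, `τ ≥ ts`, `V' : Finset W` with `∀ a ∈ V', a ≤ τ`, and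
`n0` such that for all `n ≥ n0`, `Ch pr e q' (s n) α (e τ (labs S (V n) ∪ V'))`.  Then the splitting property finishes the proof.
Proof of the claim by strong induction on `t = lev α`; `t ≥ ts` since `α ∉ X`.
1. `α < p.g γ t =: z`.  `α' = nxt pr (p.w t) z α ∉ X` (`BadC.step`), `lev α' = lev v < t`, `v = mx (p.w t α z) α`
(`lev_nxt`), and `ts ≤ lev α'` (otherwise `BadC.low`).  Take `q', τ, V', n0` for `α'`.  Let `n1` be such that `α < p.g (s n1) t`.  For
`n ≥ n0, n1`: `y = p.g (s n) t` satisfies `α < y < z`; the elements of `w y z = V n` are `< k ts` (`TStr.val` at the level `ts`!: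
`V n = p.w ts _ _`), so they are `< v` (`lt_of_le_lev`), so `nxt_eq_of` gives `nxt pr (p.w t) y α = α'`, also for `q'` instead of `p`
(`nxt_congr`), and `Ch.step` applies (`α < q'.g (s n) t ≤ q'.γ t`).
2. `z = p.g γ t ≤ α`.  By `dense_γ` (`α < k' t` by `lt_k'_lev`) take `q' ≤ q` with `α ≤ q'.γ t`; `τ = t`.  `z` is a limit: `IsLim z`.  If
`z = α` put `V' = ∅`, `n0 = 0`.  If `z < α`, let `x0 < z`, `V` be given by `TStr.loc` of `q'.w t` at `(z, α)`, `V' = labs S V` after
intersecting: if some `x` exists with `x0 ≤ x < z` (it does: `x = x0`) then `V ⊆ q'.w t x0 α`, so the elements of `V` are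
`< k t` and their levels are `≤ t` (`lev_le_of_lt_k`).  Let `n0` be such that `x0 < p.g (s n0) t`; for `n ≥ n0`, `y = p.g (s n) t`:
`q'.w t y α = q'.w t y z ∪ V = V n ∪ V`, `labs S (V n ∪ V) = labs S (V n) ∪ labs S V` (`labs_union`), and `Ch.stop` applies
(`y ≤ α ≤ q'.γ t`).
-/

universe u

open Cardinal Set Filter

namespace F61

open Pool.Agent.W_MP_315f31_lc

variable {W K L : Type u} [LinearOrder W] [LinearOrder K] [LinearOrder L]
  [WellFoundedLT W] [WellFoundedLT K] [WellFoundedLT L] {S : Sett W K L}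

/-- The main argument. -/
theorem kill_chain {pr : K → K → K} (hpr : IsPr S pr) {e : W → Finset W → Bool} (he : IsSplit e)
    (p : Cond S) {γ : L} (hγ : γ ≤ p.ζ) (s : ℕ → L) (hs : StrictMono s) (hsγ : ∀ n, s n < γ)
    (hsup : ∀ ξ < γ, ∃ n, ξ < s n) (V : ℕ → Finset K)
    (hV : ∀ n, ∀ᶠ t in atTop, p.w t (p.g (s n) t) (p.g γ t) = V n)
    (hinj : Function.Injective fun n => labs S (V n)) :
    ∃ X : Set K, #X < #K ∧ ∀ α ∉ X, ∀ q, Le q p → ∃ q', Le q' q ∧
      ∀ c : Bool, ∃ n, Ch pr e q' (s n) α c := by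
  classical
  obtain ⟨t0, ht0⟩ := he _ hinj
  have E1 : ∀ᶠ t in atTop, ∀ n m, n < m → p.g (s n) t < p.g (s m) t := by
    refine ev_all S fun n => ev_all S fun m => ?_
    by_cases hnm : n < m
    · filter_upwards [p.mono (s n) (s m) (hs hnm) ((hsγ m).le.trans hγ)] with t ht _
      exact ht
    · exact Filter.Eventually.of_forall fun t h => absurd h hnm
  have E2 : ∀ᶠ t in atTop, ∀ n, p.g (s n) t < p.g γ t :=
    ev_all S fun n => p.mono (s n) γ (hsγ n) hγ
  have E3 : ∀ᶠ t in atTop, p.g γ t ≤ p.γ t := by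
    rcases hγ.eq_or_lt with h | h
    · filter_upwards [p.top] with t ht
      rw [ht, h]
    · filter_upwards [p.top, p.mono γ p.ζ h le_rfl] with t ht ht'
      rw [ht]
      exact ht'.le
  have E4 := p.cont γ hγ s hs hsγ hsup
  have E5 : ∀ᶠ t in atTop, ∀ n, p.w t (p.g (s n) t) (p.g γ t) = V n := ev_all S hV
  have := nonemptyW S
  obtain ⟨t1, ht1⟩ := eventually_atTop.1 (E1.and (E2.and (E3.and (E4.and E5))))
  obtain ⟨ts, hts⟩ := exists_nextW S (max t0 t1)
  have hts0 : t0 ≤ ts := ((le_max_left _ _).trans_lt ((hts _).2 le_rfl)).le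
  have hts1 : t1 ≤ ts := ((le_max_right _ _).trans_lt ((hts _).2 le_rfl)).le
  have htsl : ∀ t, ts ≤ t → ¬ ∀ r, t ≤ r := by
    intro t ht h
    exact absurd ((h (max t0 t1)).trans_lt ((hts _).2 le_rfl)) (not_lt.2 ht)
  have F1 : ∀ t, ts ≤ t → ∀ n m, n ≤ m → p.g (s n) t ≤ p.g (s m) t := by
    intro t ht n m hnm
    rcases hnm.eq_or_lt with h | h
    · rw [h]
    · exact ((ht1 t (hts1.trans ht)).1 n m h).le
  have F2 : ∀ t, ts ≤ t → ∀ n, p.g (s n) t < p.g γ t := fun t ht => (ht1 t (hts1.trans ht)).2.1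
  have F3 : ∀ t, ts ≤ t → p.g γ t ≤ p.γ t := fun t ht => (ht1 t (hts1.trans ht)).2.2.1
  have F4 : ∀ t, ts ≤ t → ∀ x < p.g γ t, ∃ n, x < p.g (s n) t :=
    fun t ht => (ht1 t (hts1.trans ht)).2.2.2.1
  have F5 : ∀ t, ts ≤ t → ∀ n, p.w t (p.g (s n) t) (p.g γ t) = V n :=
    fun t ht => (ht1 t (hts1.trans ht)).2.2.2.2
  have hVk : ∀ n, ∀ a ∈ V n, a < S.k ts := by
    intro n a ha
    rw [← F5 ts le_rfl n] at ha
    exact (p.str ts).val _ _ a ha
  have hlim : ∀ t, ts ≤ t → IsLim (p.g γ t) := by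
    intro t ht
    refine ⟨⟨_, F2 t ht 0⟩, fun x hx => ?_⟩
    obtain ⟨n, hn⟩ := F4 t ht x hx
    exact ⟨_, hn, F2 t ht n⟩
  have hsζ : ∀ n, s n ≤ p.ζ := fun n => (hsγ n).le.trans hγ
  have claim : ∀ (t : W) (α : K), lev S α = t → ¬ BadC pr p γ ts α → ∀ q, Le q p →
      ∃ (q' : Cond S) (τ : W) (V' : Finset W) (n0 : ℕ), Le q' q ∧ ts ≤ τ ∧ (∀ a ∈ V', a ≤ τ) ∧
        ∀ n, n0 ≤ n → Ch pr e q' (s n) α (e τ (labs S (V n) ∪ V')) := by
    intro t
    induction t using WellFoundedLT.induction with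
    | ind t ih =>
    intro α hαt hbad q hq
    have hts' : ts ≤ t := by
      by_contra hc
      exact hbad (BadC.low α (by rw [hαt]; exact not_le.1 hc))
    rcases lt_or_ge α (p.g γ t) with hα | hα
    · -- the chain goes on
      have hl := lev_nxt hpr (p.str t) (htsl t hts') hα (F3 t hts')
      have hnb : ¬ BadC pr p γ ts (nxt S pr (p.w t) (p.g γ t) α) := by
        intro hb
        refine hbad (BadC.step α ?_ ?_ ?_)
        · rw [hαt]; exact hts'
        · rw [hαt]; exact hα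
        · rw [hαt]; exact hb
      have hle : ts ≤ lev S (nxt S pr (p.w t) (p.g γ t) α) := by
        by_contra hc
        exact hnb (BadC.low _ (not_le.1 hc))
      obtain ⟨q', τ, V', n0, hq', hτ, hV', hn0⟩ := ih _ hl.2 _ rfl hnb q hq
      obtain ⟨n1, hn1⟩ := F4 t hts' α hα
      refine ⟨q', τ, V', max n0 n1, hq', hτ, hV', fun n hn => ?_⟩
      have hqp : Le q' p := IsPre.trans _ _ _ hq' hq
      have hαn : α < p.g (s n) t := hn1.trans_le (F1 t hts' n1 n ((le_max_right _ _).trans hn))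
      have hgs : q'.g (s n) = p.g (s n) := hqp.2.1 _ (hsζ n)
      have hgle : p.g (s n) t ≤ p.γ t := (F2 t hts' n).le.trans (F3 t hts')
      have hmx : ∀ a ∈ p.w t (p.g (s n) t) (p.g γ t), a < mx (p.w t α (p.g γ t)) α := by
        intro a ha
        rw [F5 t hts' n] at ha
        exact lt_of_le_lev S (htsl ts le_rfl) (hVk n a ha) (by rw [← hl.1]; exact hle)
      have hnx : nxt S pr (p.w t) (p.g (s n) t) α = nxt S pr (p.w t) (p.g γ t) α :=
        nxt_eq_of pr (p.str t) hαn (F2 t hts' n) (F3 t hts') hmx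
      have hnx' : nxt S pr (q'.w t) (p.g (s n) t) α = nxt S pr (p.w t) (p.g (s n) t) α :=
        nxt_congr S pr hαn.le fun x y hy => hqp.2.2.2 t x y (hy.trans hgle)
      refine Ch.step α _ ?_ ?_ ?_ ?_
      · rw [hαt, hgs]; exact hαn
      · rw [hαt, hgs]; exact hgle.trans (hqp.2.2.1 t)
      · rw [hαt]; exact htsl t hts'
      · rw [hαt, hgs, hnx', hnx]
        exact hn0 n ((le_max_left _ _).trans hn)
    · -- the chain ends
      obtain ⟨q', hq', hαq⟩ := dense_γ t α (by rw [← hαt]; exact lt_k'_lev S α) q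
      have hqp : Le q' p := IsPre.trans _ _ _ hq'.1 hq
      have hgs : ∀ n, q'.g (s n) = p.g (s n) := fun n => hqp.2.1 _ (hsζ n)
      have hwz : ∀ x, q'.w t x (p.g γ t) = p.w t x (p.g γ t) := fun x => hqp.2.2.2 t x _ (F3 t hts')
      have hstop : ∀ n, Ch pr e q' (s n) α (e t (labs S (q'.w t (p.g (s n) t) α))) := by
        intro n
        have h1 : Ch pr e q' (s n) α (e (lev S α) (labs S (q'.w (lev S α) (q'.g (s n) (lev S α)) α))) := by
          refine Ch.stop α ?_ ?_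
          · rw [hαt, hgs]; exact (F2 t hts' n).le.trans hα
          · rw [hαt]; exact hαq
        rw [hαt, hgs] at h1
        exact h1
      rcases hα.eq_or_lt with h | h
      · refine ⟨q', t, ∅, 0, hq'.1, hts', by simp, fun n _ => ?_⟩
        have h1 := hstop n
        rw [← h, hwz, F5 t hts' n] at h1
        rw [← h, Finset.union_empty]
        exact h1
      · obtain ⟨x0, hx0, V1, hV1⟩ := (q'.str t).loc _ α h hαq (hlim t hts')
        obtain ⟨n0, hn0⟩ := F4 t hts' x0 hx0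
        refine ⟨q', t, labs S V1, n0, hq'.1, hts', ?_, fun n hn => ?_⟩
        · intro a ha
          obtain ⟨v, hv, rfl⟩ := Finset.mem_image.1 ha
          refine lev_le_of_lt_k S ((q'.str t).val x0 α v ?_)
          rw [hV1 x0 le_rfl hx0]
          exact Finset.mem_union_right _ hv
        · have h1 := hstop n
          rw [hV1 _ (hn0.le.trans (F1 t hts' n0 n hn)) (F2 t hts' n), hwz, F5 t hts' n,
            labs_union] at h1
          exact h1
  refine ⟨{α | BadC pr p γ ts α}, (card_bad hpr p γ ts (htsl ts le_rfl) F3).trans_lt (ck_lt_K S ts), ?_⟩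
  intro α hα q hq
  obtain ⟨q', τ, V', n0, hq', hτ, hV', hn0⟩ := claim _ α rfl hα q hq
  refine ⟨q', hq', fun c => ?_⟩
  obtain ⟨n, hn, hc⟩ := ht0 τ (hts0.trans hτ) V' hV' n0 c
  refine ⟨n, ?_⟩
  have h1 := hn0 n hn
  rw [hc] at h1
  exact h1

end F61
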