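import Pool.Agent.W_MP_f61043_lc.Basic

/-!
# MP_f61043_lc : limits of the structures

`w j` is a structure on `c j`, `c` is strictly increasing with the supremum `γ`, the structures are coherent
(`hext`) and the tops are coherent (`htop`).  `jj z` is an index with `z < c (jj z)`, for `z < γ`.

`limW_of_le`, `limW_top`: compare `jj z` with `i` (`lt_trichotomy`), `hext` or `htop` (for `jj x = i` nothing, for `i < jj x` and
`jj x < i` `htop`).
`TStr.limit`: `coh`, `loc` at `z = γ`: take `j` with `y < c j` (`δ < c j`) and use `coh` (`loc`) of `w j` at the point `c j`.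
`small` at `z = γ`, for `v < k' s`, `s < t`: if `#J ≤ #(Iio (k s))` then the set is the union over `j` of the sets
`{x < c j, Bd (w j x (c j)) v}` (`Cardinal.mk_iUnion_le_sum_mk`, `sum_le_...`, `mul_eq_self`).  Otherwise let `i` be as in
`hs`: the set is contained in `{x < c i, Bd (w i x (c i)) v}` (if `c i ≤ x` take `j > i` with `x < c j`; there is no greatest
index since `c i < γ` gives some `j` with `c i < c j`).
-/

universe u

open Cardinal Set Filter

namespace F61

open Pool.Agent.W_MP_315f31_lc

variable {W K L : Type u} [LinearOrder W] [LinearOrder K] [LinearOrder L]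
  [WellFoundedLT W] [WellFoundedLT K] [WellFoundedLT L]

/-- The limit of the structures. -/
noncomputable def limW {J : Type u} (c : J → K) (w : J → K → K → Finset K) (γ : K) (jj : K → J)
    (x z : K) : Finset K :=
  if z < γ then w (jj z) x z else if z = γ ∧ x < γ then w (jj x) x (c (jj x)) else ∅

/-- The assumptions on the family. -/
structure LimH {K J : Type u} [LinearOrder K] [LinearOrder J] (c : J → K)
    (w : J → K → K → Finset K) (γ : K) (jj : K → J) : Prop where
  mono : StrictMono c
  ext : ∀ i j, i < j → ∀ x z, z ≤ c i → w j x z = w i x z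
  top : ∀ i j, i < j → ∀ x, x < c i → w j x (c j) = w i x (c i)
  lt : ∀ j, c j < γ
  jj : ∀ z < γ, z < c (jj z)

omit [WellFoundedLT K] in
theorem limW_of_le {J : Type u} [LinearOrder J] {c : J → K} {w : J → K → K → Finset K} {γ : K}
    {jj : K → J} (h : LimH c w γ jj) (i : J) {x z : K} (hz : z ≤ c i) :
    limW c w γ jj x z = w i x z := by
  have hzγ : z < γ := hz.trans_lt (h.lt i)
  unfold limW
  rw [if_pos hzγ]
  rcases lt_trichotomy (jj z) i with h1 | h1 | h1
  · exact (h.ext _ _ h1 x z (h.jj z hzγ).le).symm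
  · rw [h1]
  · exact h.ext _ _ h1 x z hz

omit [WellFoundedLT K] in
theorem limW_top {J : Type u} [LinearOrder J] {c : J → K} {w : J → K → K → Finset K} {γ : K}
    {jj : K → J} (h : LimH c w γ jj) (i : J) {x : K} (hx : x < c i) :
    limW c w γ jj x γ = w i x (c i) := by
  have hxγ : x < γ := hx.trans (h.lt i)
  unfold limW
  rw [if_neg (lt_irrefl γ), if_pos ⟨rfl, hxγ⟩]
  rcases lt_trichotomy (jj x) i with h1 | h1 | h1
  · exact (h.top _ _ h1 x (h.jj x hxγ)).symm
  · rw [h1]
  · exact h.top _ _ h1 x hx

/-- The limit of the structures. -/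
theorem TStr.limit {S : Sett W K L} {t : W} {J : Type u} [LinearOrder J] {c : J → K}
    {w : J → K → K → Finset K} {γ : K} {jj : K → J} (h : LimH c w γ jj)
    (hw : ∀ j, TStr S t (c j) (w j)) (hlt : γ < S.k' t)
    (hs : ∀ s < t, ∀ v < S.k' s, #J ≤ #(Iio (S.k s)) ∨
      ∃ i, ∀ j, i < j → ∀ x, c i ≤ x → x < c j → ¬ Bd (w j x (c j)) v) :
    TStr S t γ (limW c w γ jj) := by
  refine ⟨hlt, ?_, ?_, ?_, ?_, ?_, ?_⟩
  · -- junk
    intro x z hxz
    unfold limW
    split_ifs with h1 h2
    · exact (hw (jj z)).junk x z fun h3 => hxz ⟨h3.1, h1.le⟩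
    · exact absurd ⟨h2.2.trans_eq h2.1.symm, h2.1.le⟩ hxz
    · rfl
  · -- ne
    intro x z hxz hz
    rcases hz.lt_or_eq with h1 | h1
    · rw [limW_of_le h (jj z) (h.jj z h1).le]
      exact (hw _).ne x z hxz (h.jj z h1).le
    · subst h1
      rw [limW_top h (jj x) (h.jj x hxz)]
      exact (hw _).ne x _ (h.jj x hxz) le_rfl
  · -- val
    intro x z a ha
    unfold limW at ha
    split_ifs at ha with h1 h2
    · exact (hw _).val x z a ha
    · exact (hw _).val x _ a ha
    · exact absurd ha (Finset.notMem_empty a)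
  · -- coh
    intro x y z hxy hyz hz v hv
    rcases hz.lt_or_eq with h1 | h1
    · have h2 := (h.jj z h1).le
      rw [limW_of_le h (jj z) h2] at hv
      rw [limW_of_le h (jj z) (hyz.le.trans h2), limW_of_le h (jj z) h2]
      exact (hw _).coh x y z hxy hyz h2 v hv
    · subst h1
      have h2 := h.jj y hyz
      rw [limW_top h (jj y) h2] at hv
      rw [limW_of_le h (jj y) h2.le, limW_top h (jj y) (hxy.trans h2)]
      exact (hw _).coh x y _ hxy h2 le_rfl v hv
  · -- small
    intro s hst v hv z hz
    rcases hz.lt_or_eq with h1 | h1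
    · have h2 := (h.jj z h1).le
      have h3 : {x | x < z ∧ Bd (limW c w γ jj x z) v} =
          {x | x < z ∧ Bd (w (jj z) x z) v} := by
        ext x
        rw [mem_setOf_eq, mem_setOf_eq, limW_of_le h (jj z) h2]
      rw [h3]
      exact (hw _).small s hst v hv z h2
    · subst h1
      rcases hs s hst v hv with hJ | ⟨i, hi⟩
      · have h3 : {x | x < z ∧ Bd (limW c w z jj x z) v} ⊆
            ⋃ j, {x | x < c j ∧ Bd (w j x (c j)) v} := by
          rintro x ⟨hx, hxv⟩
          rw [limW_top h (jj x) (h.jj x hx)] at hxv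
          exact mem_iUnion.2 ⟨jj x, h.jj x hx, hxv⟩
        refine (mk_le_mk_of_subset h3).trans ?_
        refine (mk_iUnion_le _).trans ?_
        refine (mul_le_mul' hJ (ciSup_le' fun j => (hw j).small s hst v hv (c j) le_rfl)).trans ?_
        exact (mul_eq_self (aleph0_le_ck S s)).le
      · have h3 : {x | x < z ∧ Bd (limW c w z jj x z) v} ⊆
            {x | x < c i ∧ Bd (w i x (c i)) v} := by
          rintro x ⟨hx, hxv⟩
          rcases lt_or_ge x (c i) with h4 | h4
          · rw [limW_top h i h4] at hxv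
            exact ⟨h4, hxv⟩
          · have h5 := h.jj x hx
            rw [limW_top h (jj x) h5] at hxv
            have h6 : i < jj x := h.mono.lt_iff_lt.1 (h4.trans_lt h5)
            exact absurd hxv (hi _ h6 x h4 h5)
        exact (mk_le_mk_of_subset h3).trans ((hw i).small s hst v hv (c i) le_rfl)
  · -- loc
    intro δ z hδ hz hlim
    rcases hz.lt_or_eq with h1 | h1
    · have h2 := (h.jj z h1).le
      obtain ⟨x0, hx0, V, hV⟩ := (hw (jj z)).loc δ z hδ h2 hlim
      refine ⟨x0, hx0, V, fun x hx hxδ => ?_⟩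
      rw [limW_of_le h (jj z) h2, limW_of_le h (jj z) (hδ.le.trans h2)]
      exact hV x hx hxδ
    · subst h1
      have h2 := h.jj δ hδ
      obtain ⟨x0, hx0, V, hV⟩ := (hw (jj δ)).loc δ (c (jj δ)) h2 le_rfl hlim
      refine ⟨x0, hx0, V, fun x hx hxδ => ?_⟩
      rw [limW_top h (jj δ) (hxδ.trans h2), limW_of_le h (jj δ) h2.le]
      exact hV x hx hxδ

end F61
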