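import Pool.Agent.W_MP_f61043_lc.Basic

/-!
# MP_f61043_lc : the small parts of the conditions

`repl t a p` is the condition `p` with the coordinates below `t` replaced by those of `a`.  The values `g` are those of `p`
(the conditions on them are about large `t` only).
-/

set_option linter.unusedSectionVars false

universe u

open Cardinal Set Filter

namespace F61

open Pool.Agent.W_MP_315f31_lc

variable {W K L : Type u} [LinearOrder W] [LinearOrder K] [LinearOrder L]
  [WellFoundedLT W] [WellFoundedLT K] [WellFoundedLT L] {S : Sett W K L}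

/-- The coordinates of `q` below `t` are stronger than those of `p`. -/
def LeS (t : W) (q p : Cond S) : Prop :=
  ∀ s < t, p.γ s ≤ q.γ s ∧ ∀ x z, z ≤ p.γ s → q.w s x z = p.w s x z

/-- The coordinates below `t`. -/
noncomputable def sp (t : W) (p : Cond S) : W → K × (K → K → Finset K) :=
  fun s => if s < t then (p.γ s, p.w s) else (S.k s, fun _ _ => ∅)

/-- Replace the coordinates below `t` of `p` by those of `a`. -/
noncomputable def repl (t : W) (a p : Cond S) : Cond S where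
  ζ := p.ζ
  g := p.g
  γ s := if s < t then a.γ s else p.γ s
  w s := if s < t then a.w s else p.w s
  str s := by
    by_cases h : s < t
    · rw [if_pos h, if_pos h]
      exact a.str s
    · rw [if_neg h, if_neg h]
      exact p.str s
  g_junk := p.g_junk
  g_lt := p.g_lt
  mono := p.mono
  top := by
    filter_upwards [p.top, eventually_ge_atTop t] with s hs hts
    rw [if_neg (not_lt.2 hts)]
    exact hs
  cont := p.cont
  lim := by
    intro ξ ξ' h1 h2
    obtain ⟨V, hV⟩ := p.lim ξ ξ' h1 h2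
    refine ⟨V, ?_⟩
    filter_upwards [hV, eventually_ge_atTop t] with s hs hts
    rw [if_neg (not_lt.2 hts)]
    exact hs

theorem mrg_γ_of_lt {t s : W} (h : s < t) (a p : Cond S) : (repl t a p).γ s = a.γ s := if_pos h

theorem mrg_γ_of_le {t s : W} (h : t ≤ s) (a p : Cond S) : (repl t a p).γ s = p.γ s :=
  if_neg (not_lt.2 h)

theorem mrg_w_of_lt {t s : W} (h : s < t) (a p : Cond S) : (repl t a p).w s = a.w s := if_pos h

theorem mrg_w_of_le {t s : W} (h : t ≤ s) (a p : Cond S) : (repl t a p).w s = p.w s :=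
  if_neg (not_lt.2 h)

theorem mrg_sp_eq_iff {t : W} {a b : Cond S} :
    sp t a = sp t b ↔ ∀ s < t, a.γ s = b.γ s ∧ a.w s = b.w s := by
  constructor
  · intro h s hs
    have h1 := congrFun h s
    unfold sp at h1
    rw [if_pos hs, if_pos hs, Prod.mk.injEq] at h1
    exact h1
  · intro h
    funext s
    unfold sp
    by_cases hs : s < t
    · rw [if_pos hs, if_pos hs, (h s hs).1, (h s hs).2]
    · rw [if_neg hs, if_neg hs]

theorem sp_repl (t : W) (a p : Cond S) : sp t (repl t a p) = sp t a :=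
  mrg_sp_eq_iff.2 fun _ hs => ⟨mrg_γ_of_lt hs a p, mrg_w_of_lt hs a p⟩

theorem mrg_w_eq {q p : Cond S} (h : Le q p) {s : W} (hs : q.γ s = p.γ s) : q.w s = p.w s := by
  funext x z
  by_cases hz : z ≤ p.γ s
  · exact h.2.2.2 s x z hz
  · rw [(q.str s).junk x z (fun hc => hz (hs ▸ hc.2)), (p.str s).junk x z (fun hc => hz hc.2)]

theorem sp_eq_of_leI {t : W} {q p : Cond S} (h : LeI t q p) : sp t q = sp t p :=
  mrg_sp_eq_iff.2 fun s hs => ⟨h.2 s hs, mrg_w_eq h.1 (h.2 s hs)⟩

theorem LeS.refl (t : W) (p : Cond S) : LeS t p p :=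
  fun _ _ => ⟨le_rfl, fun _ _ _ => rfl⟩

theorem LeS.trans {t : W} {p q r : Cond S} (h1 : LeS t r q) (h2 : LeS t q p) : LeS t r p :=
  fun s hs => ⟨(h2 s hs).1.trans (h1 s hs).1, fun x z hz =>
    ((h1 s hs).2 x z (hz.trans (h2 s hs).1)).trans ((h2 s hs).2 x z hz)⟩

theorem Le.leS {q p : Cond S} (h : Le q p) (t : W) : LeS t q p :=
  fun s _ => ⟨h.2.2.1 s, fun x z hz => h.2.2.2 s x z hz⟩

theorem leS_congr {t : W} {a a' p p' : Cond S} (ha : sp t a = sp t a') (hp : sp t p = sp t p') :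
    LeS t a p ↔ LeS t a' p' := by
  rw [mrg_sp_eq_iff] at ha hp
  unfold LeS
  refine forall_congr' fun s => forall_congr' fun hs => ?_
  rw [(ha s hs).1, (ha s hs).2, (hp s hs).1, (hp s hs).2]

theorem repl_congr {t : W} {a a' : Cond S} (ha : sp t a = sp t a') (p : Cond S) :
    repl t a p = repl t a' p := by
  rw [mrg_sp_eq_iff] at ha
  refine Cond.ext rfl rfl ?_ ?_
  · funext s
    by_cases hs : s < t
    · rw [mrg_γ_of_lt hs, mrg_γ_of_lt hs, (ha s hs).1]
    · rw [mrg_γ_of_le (not_lt.1 hs), mrg_γ_of_le (not_lt.1 hs)]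
  · funext s
    by_cases hs : s < t
    · rw [mrg_w_of_lt hs, mrg_w_of_lt hs, (ha s hs).2]
    · rw [mrg_w_of_le (not_lt.1 hs), mrg_w_of_le (not_lt.1 hs)]

theorem repl_repl (t : W) (a b p : Cond S) : repl t a (repl t b p) = repl t a p := by
  refine Cond.ext rfl rfl ?_ ?_
  · funext s
    by_cases hs : s < t
    · rw [mrg_γ_of_lt hs, mrg_γ_of_lt hs]
    · rw [mrg_γ_of_le (not_lt.1 hs), mrg_γ_of_le (not_lt.1 hs), mrg_γ_of_le (not_lt.1 hs)]
  · funext s
    by_cases hs : s < t
    · rw [mrg_w_of_lt hs, mrg_w_of_lt hs]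
    · rw [mrg_w_of_le (not_lt.1 hs), mrg_w_of_le (not_lt.1 hs), mrg_w_of_le (not_lt.1 hs)]

theorem repl_self (t : W) (p : Cond S) : repl t p p = p := by
  refine Cond.ext rfl rfl ?_ ?_
  · funext s
    by_cases hs : s < t
    · rw [mrg_γ_of_lt hs]
    · rw [mrg_γ_of_le (not_lt.1 hs)]
  · funext s
    by_cases hs : s < t
    · rw [mrg_w_of_lt hs]
    · rw [mrg_w_of_le (not_lt.1 hs)]

/-- `repl t a q ≤ p` -/
theorem repl_le {t : W} {a q p : Cond S} (h : Le q p) (ha : LeS t a p) : Le (repl t a q) p := by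
  refine ⟨h.1, h.2.1, fun s => ?_, fun s x z hz => ?_⟩
  · by_cases hs : s < t
    · rw [mrg_γ_of_lt hs]
      exact (ha s hs).1
    · rw [mrg_γ_of_le (not_lt.1 hs)]
      exact h.2.2.1 s
  · by_cases hs : s < t
    · rw [mrg_w_of_lt hs]
      exact (ha s hs).2 x z hz
    · rw [mrg_w_of_le (not_lt.1 hs)]
      exact h.2.2.2 s x z hz

/-- `repl` is monotone -/
theorem repl_mono {t : W} {a b q p : Cond S} (h : Le q p) (ha : LeS t a b) :
    Le (repl t a q) (repl t b p) := by
  refine ⟨h.1, h.2.1, fun s => ?_, fun s x z hz => ?_⟩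
  · by_cases hs : s < t
    · rw [mrg_γ_of_lt hs, mrg_γ_of_lt hs]
      exact (ha s hs).1
    · rw [mrg_γ_of_le (not_lt.1 hs), mrg_γ_of_le (not_lt.1 hs)]
      exact h.2.2.1 s
  · by_cases hs : s < t
    · rw [mrg_γ_of_lt hs] at hz
      rw [mrg_w_of_lt hs, mrg_w_of_lt hs]
      exact (ha s hs).2 x z hz
    · rw [mrg_γ_of_le (not_lt.1 hs)] at hz
      rw [mrg_w_of_le (not_lt.1 hs), mrg_w_of_le (not_lt.1 hs)]
      exact h.2.2.2 s x z hz

/-- `repl t q m` is an extension of `q` with the same small part -/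
theorem repl_leI {t : W} {a q m : Cond S} (h : Le m (repl t a q)) : LeI t (repl t q m) q := by
  refine ⟨⟨h.1, h.2.1, fun s => ?_, fun s x z hz => ?_⟩, fun s hs => mrg_γ_of_lt hs q m⟩
  · by_cases hs : s < t
    · rw [mrg_γ_of_lt hs]
    · have h1 := h.2.2.1 s
      rw [mrg_γ_of_le (not_lt.1 hs)] at h1 ⊢
      exact h1
  · by_cases hs : s < t
    · rw [mrg_w_of_lt hs]
    · have h1 := h.2.2.2 s x z
      rw [mrg_γ_of_le (not_lt.1 hs), mrg_w_of_le (not_lt.1 hs)] at h1
      rw [mrg_w_of_le (not_lt.1 hs)]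
      exact h1 hz

end F61
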