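import Pool.Agent.W_MP_f61043_lc.Dist
import Pool.Agent.W_MP_f61043_lc.Count

/-!
# MP_f61043_lc : Lemma 5, names

`dist0`: let `p` be a condition with `io p ≤ c`, and apply `distI` at the least element `i` of `W` (`κ_i = ℵ₁`, `S.card_bot`,
`LeI.of_least`) to `U j = {q | ∃ a, q ∈ (f j a).1}` (`RO.mem_iSup`).

`bd`: Let `io p ≤ c`.  For a condition `m` say that `m` decides `h x` if `(∃ y, m ∈ (h x y).1) ∨ ∀ y, m ∈ ((h x y)ᶜ).1`; every condition
has an extension which decides `h x`, and extensions of deciding conditions decide.  Let `A = range (sp t)` (`mk_sp`), and for `a : A` let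
`r a` be a condition with `sp t (r a) = a`.  For `x : X`, `a : A` let
`U (x, a) = {q | LeS t (r a) q → ∃ a', LeS t a' (r a) ∧ repl t a' q decides h x}`.
Open under `≤_t`: `sp_eq_of_leI`, `leS_congr`, `repl_mono`.  `t`-dense: let `q` be given with `LeS t (r a) q`; let `m` be an extension of
`repl t (r a) q` which decides `h x`; take `q' = repl t q m` (`repl_leI`), `a' = m`: `repl t m (repl t q m) = m` (`repl_repl`, `repl_self`)
and `LeS t m (r a)` (`Le.leS`, `sp_repl`, `leS_congr`).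
`distI t` for the index set `X × A` gives `q ≤_t p` in all `U (x, a)`.  `Z` is the set of the `y` such that for some `x` and some
condition `a'`, `repl t a' q ∈ (h x y).1`.  `repl t a' q` depends only on `sp t a'` (`repl_congr`), and for every `x`, `a'` there is at most one
`y` (`hd`), so `#Z ≤ #(X × A) ≤ κ_t`.  `b = io q`.  If `io q ⊓ h x y ≠ ⊥` take `m ≤ q` with `m ∈ (h x y).1` (`exists_io_le_of`); for
`a = sp t m`: `LeS t (r a) q`, so there is `a'` with `LeS t a' (r a)` such that `repl t a' q` decides `h x`.  `m' = repl t a' m` is `≤ m`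
(`repl_le`) and `≤ repl t a' q` (`repl_mono`).  So `repl t a' q ∈ (h x y').1` for some `y'` (the other case is impossible) and
`y = y'` by `hd`, `y ∈ Z`.
-/

universe u

open Cardinal Set Filter

namespace F61

open Pool.Agent.W_MP_315f31_lc

variable {W K L : Type u} [LinearOrder W] [LinearOrder K] [LinearOrder L]
  [WellFoundedLT W] [WellFoundedLT K] [WellFoundedLT L] {S : Sett W K L}

/-- The condition `m` decides the value of `h x`. -/
def Dec {X Y : Type u} (h : X → Y → DP S) (x : X) (m : Cond S) : Prop :=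
  (∃ y, (show PL (Le (S := S)) from m) ∈ (h x y).1) ∨
    ∀ y, (show PL (Le (S := S)) from m) ∈ ((h x y)ᶜ).1

/-- No new `ω₁`-sequences. -/
theorem dist0 {J A : Type u} (hJ : #J ≤ ℵ₁) (f : J → A → DP S) (c : DP S) (hc : c ≠ ⊥)
    (hf : ∀ j, c ≤ ⨆ a, f j a) : ∃ (b : DP S) (g : J → A), b ≠ ⊥ ∧ b ≤ c ∧ ∀ j, b ≤ f j (g j) := by
  obtain ⟨p, hp⟩ := exists_io_le hc
  obtain ⟨i, hi⟩ := exists_leastW S
  have hpc : (show PL (Le (S := S)) from p) ∈ c.1 := le_io_iff.1 hp
  obtain ⟨q, hqp, hq⟩ := distI i (J := J) (hJ.trans_eq (S.card_bot i hi).symm)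
    (fun j => {q : Cond S | ∃ a, (show PL (Le (S := S)) from q) ∈ (f j a).1})
    (by
      rintro j p q ⟨a, ha⟩ hq
      exact ⟨a, IM.RO.mem_lower ha hq.1⟩) p
    (by
      intro j q hq
      have h1 : (show PL (Le (S := S)) from q) ∈ (⨆ a, f j a).1 :=
        (IM.RO.le_iff _ _).1 (hf j) _ (IM.RO.mem_lower hpc hq.1)
      obtain ⟨r, hr, a, ha⟩ := (IM.RO.mem_iSup _ _).1 h1 _ (le_refl _)
      exact ⟨r, LeI.of_least hi hr, a, ha⟩)
  choose g hg using hq
  exact ⟨io q, g, io_ne_bot q, (io_mono hqp.1).trans hp, fun j => le_io_iff.2 (hg j)⟩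

/-- Functions on sets of size `κ_t` have few values. -/
theorem bd {t : W} (ht : Good t) {X Y : Type u} (hX : #X ≤ #(Iio (S.k t))) (h : X → Y → DP S)
    (hd : ∀ x y y', y ≠ y' → h x y ⊓ h x y' = ⊥) (c : DP S) (hc : c ≠ ⊥) :
    ∃ (b : DP S) (Z : Set Y), b ≠ ⊥ ∧ b ≤ c ∧ #Z ≤ #(Iio (S.k t)) ∧ ∀ x, ∀ y ∉ Z, b ⊓ h x y = ⊥ := by
  obtain ⟨p, hp⟩ := exists_io_le hc
  have hD1 : ∀ (x : X) (m : Cond S), ∃ m', Le m' m ∧ Dec h x m' := by
    intro x m
    by_cases hm : ∃ m', Le m' m ∧ ∃ y, (show PL (Le (S := S)) from m') ∈ (h x y).1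
    · obtain ⟨m', hm', hy⟩ := hm
      exact ⟨m', hm', Or.inl hy⟩
    · refine ⟨m, Le.refl m, Or.inr fun y => ?_⟩
      rw [IM.RO.mem_compl]
      intro q hq hq'
      exact hm ⟨q, hq, y, hq'⟩
  have hD2 : ∀ (x : X) (m m' : Cond S), Dec h x m → Le m' m → Dec h x m' := by
    intro x m m' hm hle
    rcases hm with ⟨y, hy⟩ | hm
    · exact Or.inl ⟨y, IM.RO.mem_lower hy hle⟩
    · exact Or.inr fun y => IM.RO.mem_lower (hm y) hle
  have hr : ∀ a : range (sp (S := S) t), ∃ r : Cond S, sp t r = a.1 := fun a => a.2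
  choose r hr using hr
  have hκ := aleph0_le_ck S t
  have hXA : #(X × range (sp (S := S) t)) ≤ #(Iio (S.k t)) := by
    rw [Cardinal.mk_prod, Cardinal.lift_id, Cardinal.lift_id]
    exact (mul_le_mul' hX (mk_sp ht)).trans (Cardinal.mul_eq_self hκ).le
  obtain ⟨q, hqp, hq⟩ := distI t (J := X × range (sp (S := S) t)) hXA
    (fun j => {q : Cond S | LeS t (r j.2) q → ∃ a', LeS t a' (r j.2) ∧ Dec h j.1 (repl t a' q)})
    (by
      rintro ⟨x, a⟩ p q hp' hq hle
      obtain ⟨a', h1, h2⟩ := hp' ((leS_congr rfl (sp_eq_of_leI hq)).1 hle)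
      exact ⟨a', h1, hD2 x _ _ h2 (repl_mono hq.1 (LeS.refl t a'))⟩) p
    (by
      rintro ⟨x, a⟩ q hq
      obtain ⟨m, hm, hm'⟩ := hD1 x (repl t (r a) q)
      refine ⟨repl t q m, repl_leI hm, fun _ => ⟨m, ?_, ?_⟩⟩
      · exact (leS_congr rfl (sp_repl t (r a) q)).1 (Le.leS hm t)
      · show Dec h x (repl t m (repl t q m))
        rw [repl_repl, repl_self]
        exact hm')
  refine ⟨io q, {y | ∃ (x : X) (a' : Cond S),
    (show PL (Le (S := S)) from repl t a' q) ∈ (h x y).1}, io_ne_bot q,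
    (io_mono hqp.1).trans hp, ?_, ?_⟩
  · have hch : ∀ y : {y | ∃ (x : X) (a' : Cond S),
        (show PL (Le (S := S)) from repl t a' q) ∈ (h x y).1}, ∃ (x : X) (a' : Cond S),
        (show PL (Le (S := S)) from repl t a' q) ∈ (h x y.1).1 := fun y => y.2
    choose fx fa hfa using hch
    refine (Cardinal.mk_le_of_injective (f := fun y => ((fx y, ⟨sp t (fa y), fa y, rfl⟩) :
      X × range (sp (S := S) t))) ?_).trans hXA
    intro y y' hyy
    have h1 : fx y = fx y' := congrArg Prod.fst hyy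
    have h2 : sp t (fa y) = sp t (fa y') := congrArg (fun z => z.2.1) hyy
    have h3 : repl t (fa y) q = repl t (fa y') q := repl_congr h2 q
    by_contra hne
    have h4 : y.1 ≠ y'.1 := fun he => hne (Subtype.ext he)
    have h5 : (show PL (Le (S := S)) from repl t (fa y) q) ∈
        (h (fx y) y.1 ⊓ h (fx y) y'.1).1 := by
      rw [IM.RO.mem_inf]
      refine ⟨hfa y, ?_⟩
      rw [h3, h1]
      exact hfa y'
    rw [hd (fx y) y.1 y'.1 h4] at h5
    exact IM.RO.mem_bot _ h5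
  · intro x y hy
    by_contra hne
    obtain ⟨m, hm, hm'⟩ := exists_io_le_of hne
    have hmy : (show PL (Le (S := S)) from m) ∈ (h x y).1 := le_io_iff.1 hm'
    have ha : sp t (r ⟨sp t m, m, rfl⟩) = sp t m := hr ⟨sp t m, m, rfl⟩
    obtain ⟨a', h1, h2⟩ := hq (x, ⟨sp t m, m, rfl⟩) ((leS_congr ha rfl).2 (Le.leS hm t))
    have h3 : LeS t a' m := (leS_congr rfl ha).1 h1
    have h4 : Le (repl t a' m) m := repl_le (Le.refl m) h3
    have h5 : Le (repl t a' m) (repl t a' q) := repl_mono hm (LeS.refl t a')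
    have h6 : (show PL (Le (S := S)) from repl t a' m) ∈ (h x y).1 := IM.RO.mem_lower hmy h4
    rcases h2 with ⟨y', hy'⟩ | h2
    · have h7 : (show PL (Le (S := S)) from repl t a' m) ∈ (h x y').1 := IM.RO.mem_lower hy' h5
      by_cases hyy : y = y'
      · exact hy ⟨x, a', by rw [hyy]; exact hy'⟩
      · have h8 : (show PL (Le (S := S)) from repl t a' m) ∈ (h x y ⊓ h x y').1 := by
          rw [IM.RO.mem_inf]
          exact ⟨h6, h7⟩
        rw [hd x y y' hyy] at h8
        exact IM.RO.mem_bot _ h8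
    · exact (IM.RO.mem_compl _ _).1 (h2 y) _ h5 h6

end F61
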