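import Pool.Agent.W_MP_f61043_lc.Names0

/-!
# MP_f61043_lc : Lemma 5, names of subsets

(See the doc string of Names0.lean for the general idea.)

`names`: `N = X → Set A`, `F n x` is the regular open set generated by `{m | ∃ a ∈ n x, LeS t m (r a)}` (`toD'`).  For `τ`, `c`, take
`io p ≤ c` and `q ≤_t p` in all the sets `{q | LeS t (r a) q → ∃ a', LeS t a' (r a) ∧ (repl t a' q ∈ τ x ∨ repl t a' q ∈ (τ x)ᶜ)}` as before;
`b = io q`, `n x = {a | LeS t (r a) q ∧ repl t (r a) q ∈ (τ x).1}`.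
`b ⊓ τ x = b ⊓ F n x`: it is enough that for `m ≤ q`: `m ∈ τ x ↔ m ∈ F n x`.  If `m ∈ τ x` let `m1 ≤ m`, and `a'` with `LeS t a' m1` such
that `repl t a' q` decides `τ x`; `m2 = repl t a' m1 ≤ m1`, `≤ repl t a' q`, so `repl t a' q ∈ τ x`; so `sp t a' ∈ n x`, and
`LeS t m2 a'`.  If `m ∈ F n x` then below every `m0 ≤ m` there is `m1` with `LeS t m1 (r a)`, `a ∈ n x`:
`m1 = repl t m1 m1 ≤ repl t (r a) q ∈ τ x` (`repl_mono`).  (See `W61.pnames`.)
`#N = (2 ^ #A) ^ #X ≤ 2 ^ (κ_t * κ_t)`.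
-/

universe u

open Cardinal Set Filter

namespace F61

open Pool.Agent.W_MP_315f31_lc

variable {W K L : Type u} [LinearOrder W] [LinearOrder K] [LinearOrder L]
  [WellFoundedLT W] [WellFoundedLT K] [WellFoundedLT L] {S : Sett W K L}

theorem Names1_inf {q : Cond S} {u v : DP S}
    (h : ∀ m : Cond S, Le m q → ((show PL (Le (S := S)) from m) ∈ u.1 ↔
      (show PL (Le (S := S)) from m) ∈ v.1)) : io q ⊓ u = io q ⊓ v := by
  refine le_antisymm ?_ ?_
  · rintro r ⟨h1, h2⟩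
    refine ⟨h1, IM.RO.mem_of_dense fun r' hr' => ?_⟩
    obtain ⟨t, ht, ht'⟩ := h1 r' hr'
    exact ⟨t, ht, (h t ht').1 (IM.RO.mem_lower h2 (le_trans (show (show PL (Le (S := S)) from t) ≤ r' from ht) hr'))⟩
  · rintro r ⟨h1, h2⟩
    refine ⟨h1, IM.RO.mem_of_dense fun r' hr' => ?_⟩
    obtain ⟨t, ht, ht'⟩ := h1 r' hr'
    exact ⟨t, ht, (h t ht').2 (IM.RO.mem_lower h2 (le_trans (show (show PL (Le (S := S)) from t) ≤ r' from ht) hr'))⟩

/-- Sets of size `κ_t` have few names of subsets. -/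
theorem names {t : W} (ht : Good t) {X : Type u} (hX : #X ≤ #(Iio (S.k t))) :
    ∃ (N : Type u) (F : N → X → DP S), #N ≤ 2 ^ #(Iio (S.k t)) ∧
      ∀ (τ : X → DP S) (c : DP S), c ≠ ⊥ →
        ∃ (b : DP S) (n : N), b ≠ ⊥ ∧ b ≤ c ∧ ∀ x, b ⊓ τ x = b ⊓ F n x := by
  classical
  have hκ := aleph0_le_ck S t
  have hA : #(range (sp (S := S) t)) ≤ #(Iio (S.k t)) := mk_sp ht
  obtain ⟨r, hr⟩ : ∃ r : range (sp (S := S) t) → Cond S, ∀ a, sp t (r a) = a.1 :=
    ⟨fun a => a.2.choose, fun a => a.2.choose_spec⟩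
  obtain ⟨cl, hcl⟩ : ∃ cl : Cond S → range (sp (S := S) t), ∀ a, sp t (r (cl a)) = sp t a :=
    ⟨fun a => ⟨sp t a, a, rfl⟩, fun a => hr _⟩
  refine ⟨X → Set (range (sp (S := S) t)), fun n x => toD' (fun m => ∃ a ∈ n x, LeS t m (r a))
    (fun p q ⟨a, ha, h1⟩ h2 => ⟨a, ha, (Le.leS h2 t).trans h1⟩), ?_, ?_⟩
  · rw [← Cardinal.power_def, Cardinal.mk_set, ← Cardinal.power_mul]
    exact Cardinal.power_le_power_left two_ne_zero
      ((mul_le_mul' hA hX).trans (mul_eq_self hκ).le)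
  · intro τ c hc
    obtain ⟨p, hp⟩ := exists_io_le hc
    have hJ : #(X × range (sp (S := S) t)) ≤ #(Iio (S.k t)) := by
      rw [Cardinal.mk_prod, Cardinal.lift_id, Cardinal.lift_id]
      exact (mul_le_mul' hX hA).trans (mul_eq_self hκ).le
    obtain ⟨q, hqp, hq⟩ := distI t hJ
      (fun j : X × range (sp (S := S) t) => {q : Cond S | LeS t (r j.2) q → ∃ a', LeS t a' (r j.2) ∧
        ((show PL (Le (S := S)) from repl t a' q) ∈ (τ j.1).1 ∨
          (show PL (Le (S := S)) from repl t a' q) ∈ ((τ j.1)ᶜ).1)})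
      (by
        rintro ⟨x, a⟩ q q' hq hqq hL
        have hsp := sp_eq_of_leI hqq
        obtain ⟨a', h1, h2⟩ := hq ((leS_congr rfl hsp).1 hL)
        refine ⟨a', h1, ?_⟩
        have h3 : Le (repl t a' q') (repl t a' q) := repl_mono hqq.1 (LeS.refl t a')
        rcases h2 with h2 | h2
        · exact Or.inl (IM.RO.mem_lower h2 h3)
        · exact Or.inr (IM.RO.mem_lower h2 h3)) p
      (by
        rintro ⟨x, a⟩ q -
        by_cases hL : LeS t (r a) q
        · obtain ⟨m, hm, hm'⟩ : ∃ m : Cond S, Le m (repl t (r a) q) ∧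
              ((show PL (Le (S := S)) from m) ∈ (τ x).1 ∨
                (show PL (Le (S := S)) from m) ∈ ((τ x)ᶜ).1) := by
            by_cases hd : ∃ m : Cond S, Le m (repl t (r a) q) ∧
                (show PL (Le (S := S)) from m) ∈ (τ x).1
            · obtain ⟨m, h1, h2⟩ := hd
              exact ⟨m, h1, Or.inl h2⟩
            · exact ⟨repl t (r a) q, Le.refl _, Or.inr fun m h1 h2 => hd ⟨m, h1, h2⟩⟩
          refine ⟨repl t q m, repl_leI hm, fun _ => ⟨m, ?_, ?_⟩⟩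
          · exact (leS_congr rfl (sp_repl t (r a) q)).1 (Le.leS hm t)
          · rw [repl_repl, repl_self]
            exact hm'
        · exact ⟨q, LeI.refl t q, fun h => absurd h hL⟩)
    refine ⟨io q, fun x => {a | LeS t (r a) q ∧
      (show PL (Le (S := S)) from repl t (r a) q) ∈ (τ x).1}, io_ne_bot q,
      (io_mono hqp.1).trans hp, fun x => Names1_inf fun m hm => ⟨?_, ?_⟩⟩
    · intro hmτ m1 hm1
      have hm1' : Le m1 m := hm1
      have hm1q : Le m1 q := hm1'.trans hm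
      have hL1 : LeS t (r (cl m1)) q := (leS_congr (hcl m1) rfl).2 (Le.leS hm1q t)
      obtain ⟨a', h1, h2⟩ := hq (x, cl m1) hL1
      have h3 : LeS t a' m1 := (leS_congr rfl (hcl m1)).1 h1
      have h4 : Le (repl t a' m1) m1 := repl_le (Le.refl m1) h3
      have h5 : Le (repl t a' m1) (repl t a' q) := repl_mono hm1q (LeS.refl t a')
      have h6 : (show PL (Le (S := S)) from repl t a' m1) ∈ (τ x).1 :=
        IM.RO.mem_lower hmτ (show (show PL (Le (S := S)) from repl t a' m1) ≤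
          (show PL (Le (S := S)) from m) from h4.trans hm1')
      have h7 : (show PL (Le (S := S)) from repl t a' q) ∈ (τ x).1 := by
        rcases h2 with h2 | h2
        · exact h2
        · exact absurd h6 (h2 (show PL (Le (S := S)) from repl t a' m1) h5)
      refine ⟨repl t a' m1, h4, cl a', ⟨?_, ?_⟩, ?_⟩
      · exact (leS_congr (hcl a') rfl).2 (h1.trans hL1)
      · rw [repl_congr (hcl a') q]
        exact h7
      · exact (leS_congr (sp_repl t a' m1).symm (hcl a').symm).1 (LeS.refl t a')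
    · intro hmF
      refine IM.RO.mem_of_dense fun m0 hm0 => ?_
      obtain ⟨m1, hm1, a, ⟨ha1, ha2⟩, ha3⟩ := hmF m0 hm0
      have hm1q : Le m1 q := Le.trans hm1 (Le.trans hm0 hm)
      have h1 : Le (repl t m1 m1) (repl t (r a) q) := repl_mono hm1q ha3
      rw [repl_self] at h1
      exact ⟨m1, hm1, IM.RO.mem_lower ha2 h1⟩

end F61
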