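import Pool.Agent.W_MP_f61043_lc.CardsK
import Pool.Agent.W_MP_f61043_lc.Core

/-!
# MP_f61043_lc : a value outside of a small set

`pick`: let `i : K` be with `#X ≤ #(Iio i)` (`exists_le_ck`), `f : X → K` an injection with values `< i`.  Apply `cardK_P` to
`F' b y = ⨆ x : X with f x = b, F y x ⊓ c` (the inverse of the function; single-valued by `InjN.inj`) and the element `io p`: there are
`b ≤ io p`, `b ≠ ⊥` and `y` with `b ⊓ F y x = ⊥` for all `x ∈ X`.  As `b ≤ c ≤ ⨆ x, F y x` there are `x` and a condition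
`q ≤ p`, `io q ≤ b`, with `q ∈ (F y x).1` (`exists_io_le`, `RO.mem_iSup`), and `x ∉ X`.
-/

universe u

open Cardinal Set Filter

namespace F61

open Pool.Agent.W_MP_315f31_lc

variable {W K L : Type u} [LinearOrder W] [LinearOrder K] [LinearOrder L]
  [WellFoundedLT W] [WellFoundedLT K] [WellFoundedLT L] {S : Sett W K L}

/-- An injective function from `κ` takes a value outside of a given small set. -/
theorem pick {T : Type u} {F : K → T → DP S} {c : DP S} (hF : InjN c F) (X : Set T) (hX : #X < #K)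
    (p : Cond S) (hp : io p ≤ c) : ∃ (q : Cond S) (a : K) (x : T), Le q p ∧ x ∉ X ∧ io q ≤ F a x := by
  classical
  obtain ⟨t, ht⟩ := exists_le_ck S hX
  obtain ⟨f⟩ : Nonempty (X ↪ (Iio (S.k t) : Set K)) := by
    rw [← Cardinal.le_def]
    exact ht
  obtain ⟨b, y, hb, hbp, hby⟩ := cardK_P (S := S) (S.k t)
    (fun b y => ⨆ x : {x : X // (f x).1 = b}, F y x.1.1 ⊓ c) (by
      intro a y y' hy
      rw [iSup_inf_eq, iSup_eq_bot]
      intro x
      rw [inf_iSup_eq, iSup_eq_bot]
      intro x'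
      have h1 : x = x' := by
        apply Subtype.ext
        apply f.injective
        apply Subtype.ext
        rw [x.2, x'.2]
      subst h1
      have h2 := hF.inj y y' x.1.1 hy
      rw [← inf_inf_distrib_right]
      exact h2) (io p) (io_ne_bot p)
  have hbc : b ≤ c := hbp.trans hp
  have h1 : ∀ x ∈ X, b ⊓ F y x = ⊥ := by
    intro x hx
    have h2 := hby (f ⟨x, hx⟩).1 (f ⟨x, hx⟩).2
    rw [← le_bot_iff] at h2 ⊢
    refine le_trans ?_ h2
    refine le_inf inf_le_left ?_
    refine le_trans ?_ (le_iSup (fun x' : {x' : X // (f x').1 = (f ⟨x, hx⟩).1} =>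
      F y x'.1.1 ⊓ c) ⟨⟨x, hx⟩, rfl⟩)
    exact le_inf inf_le_right (inf_le_left.trans hbc)
  obtain ⟨x, hx⟩ : ∃ x, b ⊓ F y x ≠ ⊥ := by
    by_contra hc
    push Not at hc
    apply hb
    have h2 : b ⊓ (⨆ x, F y x) = b := inf_eq_left.mpr (hbc.trans (hF.tot y))
    rw [← h2, inf_iSup_eq, iSup_eq_bot]
    exact hc
  obtain ⟨q, hq, hq'⟩ := exists_io_le_of (L := Le (S := S)) (p := p) (u := b ⊓ F y x) (by
    rw [inf_eq_right.mpr (inf_le_left.trans hbp)]
    exact hx)
  exact ⟨q, y, x, hq, fun h => hx (h1 x h), hq'.trans inf_le_right⟩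

end F61
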