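import Pool.Agent.W_MP_f61043_lc.Basic

/-!
# MP_f61043_lc : greatest elements, the rank, the pairing function, the map `nxt`

`rk_lt_k'`: unfold by `rk_eq`; `bnd_lt` (both cases of `bnd`).
`rk_lt`: by `rk_eq`, `rk v α = bnd s X`, `X = {rk v x | x < α, Bd (w x α) v}`, `s = lev v < t`; by `TStr.small`
(`v < k' s`) there are at most `#(Iio (k s))` such `x`, so `regK` gives a bound below `k' s` and `bnd` is a bound of `X`.
`rk_congr`: well-founded induction on `α`.
`exists_pr`: it is enough to have for every `s : W` an injection of `{v // lev v = s} × {o // o < k' s}` into `{x // lev x = s}`: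
the first set has at most `#(Iio (k' s))` elements, and the second has exactly so many: it contains
`Iio (k' s) \ Iio (k s)` (if `x < k' s`, `k s ≤ x` and `r < s` then `k' r ≤ k s ≤ x`, so `lev x = s`), and
`#(Iio (k s)) < #(Iio (k' s))` (`Cardinal.mk_diff_...` or `Cardinal.add_eq_..`).
`nxt_inj`: `v = mx (w α z) α = mx (w α' z) α'` by `IsPr.inj` (the ranks are below `k' (lev v)` by `rk_lt_k'`) and the ranks
are the same.  If `α < α'`: `Bd (w α' z) v`, `Bd (w α z) v`, so by `coh` `Bd (w α α') v`, and `rk_lt` gives a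
contradiction (`lev v < t` as `v < k t` by `TStr.val` and `t` is not the least element: `lev_lt_of_lt_k`).
`mx_eq_of`: for `v1` with `Bd (w y z) v1`, `v1 < v := mx (w x z) d`: by `coh` for `v` (`Bd (w y z) v`), `Bd (w x y) v`;
if `mx (w x y) d = v' < v` then `Bd (w x y) (max v' v1)`, `Bd (w y z) (max v' v1)`, so `Bd (w x z) (max v' v1)` by `coh`,
a contradiction with `max v' v1 < v ∈ w x z`.
-/

universe u

open Cardinal Set Filter

namespace F61

open Pool.Agent.W_MP_315f31_lc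

variable {W K L : Type u} [LinearOrder W] [LinearOrder K] [LinearOrder L]
  [WellFoundedLT W] [WellFoundedLT K] [WellFoundedLT L]

theorem mx_mem {s : Finset K} (h : s.Nonempty) (d : K) : mx s d ∈ s := by
  unfold mx
  rw [dif_pos h]
  exact s.max'_mem h

theorem le_mx {s : Finset K} {a : K} (h : a ∈ s) (d : K) : a ≤ mx s d := by
  unfold mx
  rw [dif_pos ⟨a, h⟩]
  exact s.le_max' a h

theorem bnd_lt (S : Sett W K L) (s : W) (X : Set K) : bnd S s X < S.k' s := by
  unfold bnd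
  split_ifs with h
  · exact h.choose_spec.1
  · exact S.k_lt s

theorem lt_bnd (S : Sett W K L) (s : W) (X : Set K) (h : ∃ y, y < S.k' s ∧ ∀ x ∈ X, x < y) :
    ∀ x ∈ X, x < bnd S s X := by
  unfold bnd
  rw [dif_pos h]
  exact h.choose_spec.2

theorem rk_eq (S : Sett W K L) (w : K → K → Finset K) (v α : K) :
    rk S w v α = bnd S (lev S v) {y | ∃ x, x < α ∧ Bd (w x α) v ∧ y = rk S w v x} := by
  have h1 : rk S w v α = bnd S (lev S v)
      {y | ∃ x, ∃ _ : x < α, Bd (w x α) v ∧ y = rk S w v x} := by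
    unfold rk
    exact WellFounded.fix_eq _ _ α
  rw [h1]
  congr 1
  ext y
  constructor
  · rintro ⟨x, h2, h3, h4⟩
    exact ⟨x, h2, h3, h4⟩
  · rintro ⟨x, h2, h3, h4⟩
    exact ⟨x, h2, h3, h4⟩

theorem rk_lt_k' (S : Sett W K L) (w : K → K → Finset K) (v α : K) : rk S w v α < S.k' (lev S v) := by
  rw [rk_eq]
  exact bnd_lt S _ _

theorem rk_lt {S : Sett W K L} {t : W} {γ : K} {w : K → K → Finset K} (h : TStr S t γ w) {v x α : K}
    (hα : α ≤ γ) (hv : lev S v < t) (hx : x < α) (hb : Bd (w x α) v) :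
    rk S w v x < rk S w v α := by
  rw [rk_eq S w v α]
  refine lt_bnd S _ _ ?_ _ ⟨x, hx, hb, rfl⟩
  obtain ⟨b, hb1, hb2⟩ := regK S (lev S v)
    (fun j : {x // x < α ∧ Bd (w x α) v} => rk S w v j.1) (fun j => rk_lt_k' S w v j.1)
    (h.small (lev S v) hv v (lt_k'_lev S v) α hα)
  refine ⟨b, hb1, ?_⟩
  rintro _ ⟨y, hy1, hy2, rfl⟩
  exact hb2 ⟨y, hy1, hy2⟩

theorem rk_congr (S : Sett W K L) {w w' : K → K → Finset K} (v : K) {α : K}
    (h : ∀ x z, z ≤ α → w x z = w' x z) : rk S w v α = rk S w' v α := by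
  induction α using (wellFounded_lt (α := K)).induction with
  | _ α ih =>
    rw [rk_eq, rk_eq]
    congr 1
    ext y
    constructor
    · rintro ⟨x, h1, h2, h3⟩
      refine ⟨x, h1, ?_, ?_⟩
      · rw [← h x α le_rfl]
        exact h2
      · rw [← ih x h1 fun x' z hz => h x' z (hz.trans h1.le)]
        exact h3
    · rintro ⟨x, h1, h2, h3⟩
      refine ⟨x, h1, ?_, ?_⟩
      · rw [h x α le_rfl]
        exact h2
      · rw [ih x h1 fun x' z hz => h x' z (hz.trans h1.le)]
        exact h3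

theorem nxt_congr (S : Sett W K L) (pr : K → K → K) {w w' : K → K → Finset K} {z α : K}
    (h0 : α ≤ z) (h : ∀ x y, y ≤ z → w x y = w' x y) : nxt S pr w z α = nxt S pr w' z α := by
  unfold nxt
  rw [h α z le_rfl, rk_congr S _ fun x y hy => h x y (hy.trans h0)]

theorem exists_pr (S : Sett W K L) : ∃ pr : K → K → K, IsPr S pr := by
  classical
  have hsub : ∀ s : W, Iio (S.k' s) \ Iio (S.k s) ⊆ {x | lev S x = s} := by
    rintro s x ⟨h1, h2⟩
    have h2' : S.k s ≤ x := not_lt.mp h2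
    refine le_antisymm (lev_le S h1) ?_
    by_contra hc
    have h3 := S.k'_le (lev S x) s (not_le.mp hc)
    exact absurd (lt_k'_lev S x) (not_lt.mpr (h3.trans h2'))
  have hsub' : ∀ s : W, {x | lev S x = s} ⊆ Iio (S.k' s) := by
    rintro s x rfl
    exact lt_k'_lev S x
  have hinf : ∀ s : W, ℵ₀ ≤ #(Iio (S.k' s)) := fun s => by
    rw [S.card_succ s]
    exact (aleph0_le_ck S s).trans (Order.le_succ _)
  have hlt : ∀ s : W, #(Iio (S.k s)) < #(Iio (S.k' s)) := fun s => by
    rw [S.card_succ s]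
    exact Order.lt_succ _
  have hbig : ∀ s : W, #(Iio (S.k' s)) ≤ #{x | lev S x = s} := by
    intro s
    have h1 : #(Iio (S.k' s)) ≤ #(Iio (S.k' s) \ Iio (S.k s) : Set K) := by
      by_contra hc
      have h2 : #(Iio (S.k' s)) ≤ #(Iio (S.k' s) \ Iio (S.k s) : Set K) + #(Iio (S.k s)) := by
        refine le_trans (Cardinal.mk_le_mk_of_subset ?_) (Cardinal.mk_union_le _ _)
        intro x hx
        by_cases h3 : x ∈ Iio (S.k s)
        · exact Or.inr h3
        · exact Or.inl ⟨hx, h3⟩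
      exact absurd h2 (not_le.mpr (Cardinal.add_lt_of_lt (hinf s) (not_le.mp hc) (hlt s)))
    exact h1.trans (Cardinal.mk_le_mk_of_subset (hsub s))
  have hex : ∀ s : W, Nonempty (({x | lev S x = s} : Set K) × (Iio (S.k' s) : Set K) ↪
      ({x | lev S x = s} : Set K)) := by
    intro s
    rw [← Cardinal.le_def]
    rw [Cardinal.mk_prod, Cardinal.lift_id, Cardinal.lift_id]
    calc #({x | lev S x = s} : Set K) * #(Iio (S.k' s) : Set K)
        ≤ #(Iio (S.k' s) : Set K) * #(Iio (S.k' s) : Set K) :=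
          mul_le_mul' (Cardinal.mk_le_mk_of_subset (hsub' s)) le_rfl
      _ = #(Iio (S.k' s) : Set K) := Cardinal.mul_eq_self (hinf s)
      _ ≤ _ := hbig s
  have f := fun s => (hex s).some
  let pr : K → K → K := fun v o =>
    if h : o < S.k' (lev S v) then (f (lev S v) (⟨v, rfl⟩, ⟨o, h⟩)).1 else v
  have hlev : ∀ v o, o < S.k' (lev S v) → lev S (pr v o) = lev S v := by
    intro v o ho
    simp only [pr, dif_pos ho]
    exact (f (lev S v) (⟨v, rfl⟩, ⟨o, ho⟩)).2
  refine ⟨pr, hlev, ?_⟩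
  intro v o v' o' ho ho' he
  have h1 : lev S v = lev S v' := by rw [← hlev v o ho, ← hlev v' o' ho', he]
  have key : ∀ (s : W) (hs : lev S v = s) (hs' : lev S v' = s) (ho : o < S.k' s)
      (ho' : o' < S.k' s), (f s (⟨v, hs⟩, ⟨o, ho⟩)).1 = (f s (⟨v', hs'⟩, ⟨o', ho'⟩)).1 →
      v = v' ∧ o = o' := by
    intro s hs hs' ho ho' h2
    have h3 := (f s).injective (Subtype.ext h2)
    have h4 := congrArg Prod.fst h3
    have h5 := congrArg Prod.snd h3
    exact ⟨congrArg Subtype.val h4, congrArg Subtype.val h5⟩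
  have h6 : pr v o = (f (lev S v) (⟨v, rfl⟩, ⟨o, ho⟩)).1 := by simp only [pr, dif_pos ho]
  have h7 : ∀ (s : W) (hs : lev S v' = s) (ho' : o' < S.k' s),
      pr v' o' = (f s (⟨v', hs⟩, ⟨o', ho'⟩)).1 := by
    intro s hs ho'
    subst hs
    simp only [pr, dif_pos ho']
  refine key (lev S v) rfl h1.symm ho (h1 ▸ ho') ?_
  rw [← h6, ← h7 (lev S v) h1.symm (h1 ▸ ho'), he]

theorem mx_nxt_lt {S : Sett W K L} {t : W} {γ : K}
    {w : K → K → Finset K} (h : TStr S t γ w) (ht : ¬ ∀ s, t ≤ s) {α z : K} (hα : α < z) (hz : z ≤ γ)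
    (d : K) : lev S (mx (w α z) d) < t :=
  lev_lt_of_lt_k S (h.val α z _ (mx_mem (h.ne α z hα hz) d)) ht

/-- the level of the next element is smaller -/
theorem lev_nxt {S : Sett W K L} {pr : K → K → K} (hpr : IsPr S pr) {t : W} {γ : K}
    {w : K → K → Finset K} (h : TStr S t γ w) (ht : ¬ ∀ s, t ≤ s) {α z : K} (hα : α < z) (hz : z ≤ γ) :
    lev S (nxt S pr w z α) = lev S (mx (w α z) α) ∧ lev S (nxt S pr w z α) < t := by
  have h1 : lev S (nxt S pr w z α) = lev S (mx (w α z) α) := hpr.lev _ _ (rk_lt_k' S w _ α)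
  refine ⟨h1, ?_⟩
  rw [h1]
  exact mx_nxt_lt h ht hα hz α

/-- the map `nxt` is injective -/
theorem nxt_inj {S : Sett W K L} {pr : K → K → K} (hpr : IsPr S pr) {t : W} {γ : K}
    {w : K → K → Finset K} (h : TStr S t γ w) (ht : ¬ ∀ s, t ≤ s) {α α' z : K} (hα : α < z)
    (hα' : α' < z) (hz : z ≤ γ) (he : nxt S pr w z α = nxt S pr w z α') : α = α' := by
  obtain ⟨h1, h2⟩ := hpr.inj _ _ _ _ (rk_lt_k' S w (mx (w α z) α) α)
    (rk_lt_k' S w (mx (w α' z) α') α') he
  have key : ∀ β β', β < β' → β' < z → mx (w β z) β = mx (w β' z) β' →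
      rk S w (mx (w β z) β) β = rk S w (mx (w β' z) β') β' → False := by
    intro β β' hlt hβ' e1 e2
    have hb1 : Bd (w β z) (mx (w β z) β) := fun a ha => le_mx ha β
    have hb2 : Bd (w β' z) (mx (w β z) β) := by
      rw [e1]
      exact fun a ha => le_mx ha β'
    have hb3 := (h.coh β β' z hlt hβ' hz _ hb2).mpr hb1
    have h3 := rk_lt h (hβ'.le.trans hz) (mx_nxt_lt h ht (hlt.trans hβ') hz β) hlt hb3
    rw [← e1] at e2
    exact absurd h3 (by rw [e2]; exact lt_irrefl _)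
  rcases lt_trichotomy α α' with hlt | heq | hlt
  · exact (key α α' hlt hα' h1 h2).elim
  · exact heq
  · exact (key α' α hlt hα h1.symm h2.symm).elim

theorem mx_eq_of {S : Sett W K L} {t : W} {γ : K} {w : K → K → Finset K} (h : TStr S t γ w)
    {x y z : K} (hxy : x < y) (hyz : y < z) (hz : z ≤ γ) (d : K) (hb : ∀ a ∈ w y z, a < mx (w x z) d) :
    mx (w x y) d = mx (w x z) d := by
  have hne := h.ne x z (hxy.trans hyz) hz
  have hne1 := h.ne x y hxy (hyz.le.trans hz)
  have hne2 := h.ne y z hyz hz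
  have h1 : Bd (w x y) (mx (w x z) d) :=
    (h.coh x y z hxy hyz hz _ fun a ha => (hb a ha).le).mpr fun a ha => le_mx ha d
  refine le_antisymm (h1 _ (mx_mem hne1 d)) ?_
  by_contra hc
  have hc' := not_le.mp hc
  have h2 : Bd (w x z) (max (mx (w x y) d) (mx (w y z) d)) :=
    (h.coh x y z hxy hyz hz _ fun a ha => (le_mx ha d).trans (le_max_right _ _)).mp
      fun a ha => (le_mx ha d).trans (le_max_left _ _)
  have h3 := h2 _ (mx_mem hne d)
  exact absurd h3 (not_le.mpr (max_lt hc' (hb _ (mx_mem hne2 d))))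

theorem nxt_eq_of {S : Sett W K L} (pr : K → K → K) {t : W} {γ : K} {w : K → K → Finset K}
    (h : TStr S t γ w) {x y z : K} (hxy : x < y) (hyz : y < z) (hz : z ≤ γ)
    (hb : ∀ a ∈ w y z, a < mx (w x z) x) : nxt S pr w y x = nxt S pr w z x := by
  unfold nxt
  rw [mx_eq_of h hxy hyz hz x hb]

end F61
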