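import Pool.Agent.W_MP_f61043_lc.Basic

/-!
# MP_f61043_lc : the splitting family (from CH)

`split_one`: enumerate `I × Bool` as a sequence (if `I` is empty there is nothing to do), and choose by recursion distinct points
`x_n ∈ A (i_n)`; give `x_n` the colour `c_n` (and the other points the colour `false`).

`exists_split`: by CH (`S.gch ℵ₀`) there are only `ℵ₁` sequences `ℕ → Finset W`, so they are enumerated by `W` as
`s r`, `r : W`.  For `t : W` apply `split_one` to the type `Finset W` and the countable family, indexed by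
`{r // r ≤ t} × {V : Finset W // V ⊆ [0,t]} × ℕ`, of the sets `{s r n ∪ V | n ≥ n0}` for the injective `s r`
(for the others take `Set.univ`, which is infinite).
The set `{w n ∪ V | n ≥ n0}` is infinite for an injective `w`, since `w n ∪ V = X` implies `w n ⊆ X`, so this holds for finitely
many `n` only.
-/

universe u

open Cardinal Set Filter

namespace F61

open Pool.Agent.W_MP_315f31_lc

/-- A system of distinct representatives for a sequence of infinite sets. -/
theorem Split_seq {T : Type u} (A : ℕ → Set T) (hA : ∀ i, (A i).Infinite) :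
    ∃ x : ℕ → T, Function.Injective x ∧ ∀ n, x n ∈ A n := by
  classical
  choose pick hpick using fun (n : ℕ) (s : Finset T) => (hA n).exists_notMem_finset s
  let F : ℕ → Finset T := fun n => Nat.rec ∅ (fun n s => insert (pick n s) s) n
  have hF : ∀ n, F (n + 1) = insert (pick n (F n)) (F n) := fun n => rfl
  have hmono : ∀ m n, m ≤ n → F m ⊆ F n := by
    intro m n h
    induction n, h using Nat.le_induction with
    | base => exact Finset.Subset.refl _
    | succ n _ ih => exact ih.trans (by rw [hF]; exact Finset.subset_insert _ _)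
  have hlt : ∀ m n, m < n → pick m (F m) ≠ pick n (F n) := by
    intro m n h he
    have h1 : pick m (F m) ∈ F n := by
      apply hmono (m + 1) n h
      rw [hF]
      exact Finset.mem_insert_self _ _
    rw [he] at h1
    exact (hpick n (F n)).2 h1
  refine ⟨fun n => pick n (F n), ?_, fun n => (hpick n (F n)).1⟩
  intro m n h
  rcases lt_trichotomy m n with h1 | h1 | h1
  · exact absurd h (hlt m n h1)
  · exact h1
  · exact absurd h.symm (hlt n m h1)

/-- Countably many infinite sets can be split. -/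
theorem split_one {T : Type u} {I : Type u} [Countable I] (A : I → Set T) (hA : ∀ i, (A i).Infinite) :
    ∃ e : T → Bool, ∀ i, ∀ c, ∃ x ∈ A i, e x = c := by
  classical
  rcases isEmpty_or_nonempty I with hI | hI
  · exact ⟨fun _ => false, fun i => isEmptyElim i⟩
  obtain ⟨f, hf⟩ := exists_surjective_nat (I × Bool)
  obtain ⟨x, hx, hxA⟩ := Split_seq (fun n => A (f n).1) (fun n => hA _)
  refine ⟨fun t => if h : ∃ n, x n = t then (f h.choose).2 else false, fun i c => ?_⟩
  obtain ⟨n, hn⟩ := hf (i, c)
  refine ⟨x n, ?_, ?_⟩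
  · have := hxA n
    rwa [hn] at this
  · have h : ∃ m, x m = x n := ⟨n, rfl⟩
    simp only
    rw [dif_pos h, hx h.choose_spec, hn]

variable {W K L : Type u} [LinearOrder W] [LinearOrder K] [LinearOrder L]
  [WellFoundedLT W] [WellFoundedLT K] [WellFoundedLT L]

/-- The sets `{w n ∪ V | n ≥ n0}` are infinite. -/
theorem Split_infinite {W : Type u} [DecidableEq W] {w : ℕ → Finset W} (hw : Function.Injective w)
    (V : Finset W) (n0 : ℕ) : {X | ∃ n, n0 ≤ n ∧ X = w n ∪ V}.Infinite := by
  intro hfin
  have h1 : (Set.Ici n0) ⊆ ⋃ X ∈ {X | ∃ n, n0 ≤ n ∧ X = w n ∪ V}, {n | w n ⊆ X} := by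
    intro n hn
    simp only [mem_iUnion, mem_ofPred_eq]
    exact ⟨w n ∪ V, ⟨n, hn, rfl⟩, Finset.subset_union_left⟩
  have h2 : (⋃ X ∈ {X | ∃ n, n0 ≤ n ∧ X = w n ∪ V}, {n | w n ⊆ X}).Finite := by
    refine hfin.biUnion fun X _ => ?_
    have h3 : {n | w n ⊆ X} = w ⁻¹' (X.powerset : Set (Finset W)) := by
      ext n; simp
    rw [h3]
    exact (Finset.finite_toSet _).preimage hw.injOn
  exact (Set.Ici_infinite n0) (h2.subset h1)

theorem exists_split (S : Sett W K L) : ∃ e : W → Finset W → Bool, IsSplit e := by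
  classical
  have hWinf : Infinite W := by
    rw [Cardinal.infinite_iff, S.w_card]
    exact aleph0_le_aleph 1
  have hCH : (2 : Cardinal.{u}) ^ ℵ₀ = ℵ₁ := by
    rw [S.gch ℵ₀ le_rfl, succ_aleph0]
  have hcard : #(ℕ → Finset W) ≤ #W := by
    rw [mk_pi, prod_const, lift_uzero, mk_nat, lift_aleph0, mk_finset_of_infinite, S.w_card, ← hCH,
      ← power_mul, aleph0_mul_aleph0]
  obtain ⟨j⟩ := hcard
  obtain ⟨s, hs⟩ : ∃ s : W → (ℕ → Finset W), Function.Surjective s :=
    ⟨Function.invFun j, Function.invFun_surjective j.injective⟩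
  have hctbl : ∀ t : W, {r : W | r ≤ t}.Countable := by
    intro t
    refine ((S.w_ctbl t).insert t).mono ?_
    intro r hr
    rcases (show r ≤ t from hr).eq_or_lt with h | h
    · exact Or.inl h
    · exact Or.inr h
  have hctbl2 : ∀ t : W, {V : Finset W | ∀ a ∈ V, a ≤ t}.Countable := by
    intro t
    have h1 := (Set.countable_ofPred_finite_subset (hctbl t)).preimage_of_injOn
      (f := fun V : Finset W => (V : Set W)) Finset.coe_injective.injOn
    refine h1.mono ?_
    intro V hV
    exact ⟨V.finite_toSet, fun a ha => hV a ha⟩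
  have hmain : ∀ t : W, ∃ e : Finset W → Bool, ∀ r, r ≤ t → Function.Injective (s r) →
      ∀ V : Finset W, (∀ a ∈ V, a ≤ t) → ∀ n0 : ℕ, ∀ c : Bool, ∃ n, n0 ≤ n ∧ e (s r n ∪ V) = c := by
    intro t
    have hc1 : Countable {r : W // r ≤ t} := (hctbl t).to_subtype
    have hc2 : Countable {V : Finset W // ∀ a ∈ V, a ≤ t} := (hctbl2 t).to_subtype
    let A : ({r : W // r ≤ t} × {V : Finset W // ∀ a ∈ V, a ≤ t} × ℕ) → Set (Finset W) :=
      fun i => if Function.Injective (s i.1.1) then
        {X | ∃ n, i.2.2 ≤ n ∧ X = s i.1.1 n ∪ i.2.1.1} else Set.univ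
    obtain ⟨e, he⟩ := split_one A (fun i => by
      simp only [A]
      split_ifs with h
      · exact Split_infinite h _ _
      · exact Set.infinite_univ)
    refine ⟨e, fun r hr hinj V hV n0 c => ?_⟩
    obtain ⟨X, hX, hXc⟩ := he (⟨r, hr⟩, ⟨V, hV⟩, n0) c
    simp only [A, if_pos hinj] at hX
    obtain ⟨n, hn, rfl⟩ := hX
    exact ⟨n, hn, hXc⟩
  choose e he using hmain
  refine ⟨e, fun w hw => ?_⟩
  obtain ⟨t0, rfl⟩ := hs w
  refine ⟨t0, fun t ht V hV n0 c => ?_⟩
  obtain ⟨n, hn, h⟩ := he t t0 ht hw V hV n0 c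
  refine ⟨n, hn, ?_⟩
  convert h

end F61
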