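import Pool.Agent.W_MP_f61043_lc.Seq
import Pool.Agent.W_MP_f61043_lc.Kill
import Pool.Agent.W_MP_f61043_lc.Split

/-!
# MP_f61043_lc : the relation

`rel_P`: `pr`, `e` from `exists_pr`, `exists_split`; `col ξ α = toD' {p | ξ ≤ p.ζ ∧ Ch pr e p ξ α true}` (`Ch.mono`).  If
`ξ ≤ p.ζ`, `Ch pr e p ξ α false` then `p ∈ ((col ξ α)ᶜ).1` (`Ch.mono`, `Ch.det`).  Given `F`, `G`, `c`: `cardL_P` (for `F a x ⊓ c`) gives
`b ≤ c` and `β : L` with `b ⊓ F a x ⊓ c = ⊥` for `β ≤ x`; take `p ∈ b` with `β ≤ p.ζ` (`dense_ζ`).  `exists_seq`: `q ≤ p`, `ξ_n`,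
`V_n`.  By `exists_increasing_or_nonincreasing_subseq` we may assume that `ξ_n` is strictly increasing; `γ ≤ β` the least upper
bound (`exists_lub`), `ξ_n < γ`.  If `γ = β` let `V'_n = V_n`.  If `γ < β` let `V'_n` be given by `p.lim ξ_n γ`; for one large `t`
(`ev_all`) `IsLim (g γ t)` with `g ξ_n t < g γ t` cofinal (`p.cont`), and by `TStr.loc` at `(g γ t, g β t)`: `V_n = V'_n ∪ V` for
all `n ≥ n0`.  So `labs V'_n`, `n ≥ n0`, are pairwise different.  Replace `ξ_n` by `ξ_(n0 + n)`.  `kill_chain` for the condition `q` gives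
`X`; `pick` for `G` gives `q1 ≤ q`, `a'`, `α ∉ X`, `q1 ∈ (G a' α).1`, and then `q' ≤ q1` and for every `c` some `n` with
`Ch pr e q' (s n) α c`; `b' = io q'`.
-/

universe u

open Cardinal Set Filter

namespace F61

open Pool.Agent.W_MP_315f31_lc

variable {W K L : Type u} [LinearOrder W] [LinearOrder K] [LinearOrder L]
  [WellFoundedLT W] [WellFoundedLT K] [WellFoundedLT L] {S : Sett W K L}

/-- An increasing sequence. -/
theorem Rel_incr {A : Type u} [LinearOrder A] [WellFoundedLT A] (ξ : ℕ → A)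
    (hξ : Function.Injective ξ) : ∃ g : ℕ → ℕ, StrictMono g ∧ StrictMono fun n => ξ (g n) := by
  obtain ⟨g, h | h⟩ := exists_increasing_or_nonincreasing_subseq (· < ·) ξ
  · exact ⟨g, g.strictMono, fun m n hmn => h m n hmn⟩
  · exfalso
    obtain ⟨m, hm⟩ : ∃ m, ∀ n, ξ (g m) ≤ ξ (g n) := by
      obtain ⟨x, ⟨m, rfl⟩, hx⟩ := WellFounded.has_min (wellFounded_lt (α := A))
        (Set.range fun n => ξ (g n)) ⟨_, 0, rfl⟩
      exact ⟨m, fun n => not_lt.1 (hx _ ⟨n, rfl⟩)⟩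
    have h1 : ξ (g (m + 1)) ≤ ξ (g m) := not_lt.1 (h m (m + 1) (Nat.lt_succ_self m))
    have h2 := hξ (le_antisymm (hm (m + 1)) h1)
    have h3 := g.injective h2
    omega

/-- The sequence for `kill_chain`. -/
theorem Rel_seq (p : Cond S) {β : L} (hβ : β ≤ p.ζ) (ξ : ℕ → L) (hξ : ∀ n, ξ n < β)
    (V : ℕ → Finset K) (hV : ∀ n, ∀ᶠ t in atTop, p.w t (p.g (ξ n) t) (p.g β t) = V n)
    (hinj : Function.Injective fun n => labs S (V n)) :
    ∃ (γ : L) (s : ℕ → L) (V' : ℕ → Finset K), γ ≤ p.ζ ∧ StrictMono s ∧ (∀ n, s n < γ) ∧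
      (∀ x < γ, ∃ n, x < s n) ∧ (∀ n, ∀ᶠ t in atTop, p.w t (p.g (s n) t) (p.g γ t) = V' n) ∧
      (Function.Injective fun n => labs S (V' n)) ∧ ∀ n, ∃ m, s n = ξ m := by
  classical
  have hne := neBotW S
  have hξi : Function.Injective ξ := by
    intro m n hmn
    apply hinj
    obtain ⟨t, h1, h2⟩ := ((hV m).and (hV n)).exists
    show labs S (V m) = labs S (V n)
    rw [← h1, ← h2, hmn]
  obtain ⟨g, hg, hf⟩ := Rel_incr ξ hξi
  obtain ⟨γ, hγβ, hγ1, hγ2⟩ := exists_lub (J := ULift.{u} ℕ) (fun n => ξ (g n.down)) (b := β)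
    (fun n => (hξ _).le)
  have hfγ : ∀ n, ξ (g n) < γ := fun n =>
    lt_of_lt_of_le (hf (Nat.lt_succ_self n)) (hγ1 ⟨n + 1⟩)
  have hγ3 : ∀ x < γ, ∃ n, x < ξ (g n) := fun x hx => by
    obtain ⟨j, hj⟩ := hγ2 x hx
    exact ⟨j.down, hj⟩
  rcases hγβ.eq_or_lt with h | h
  · subst h
    refine ⟨γ, fun n => ξ (g n), fun n => V (g n), hβ, hf, hfγ, hγ3, fun n => hV _, ?_,
      fun n => ⟨_, rfl⟩⟩
    exact hinj.comp hg.injective
  · have hγζ : γ ≤ p.ζ := h.le.trans hβ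
    choose V' hV' using fun n => p.lim (ξ (g n)) γ (hfγ n) hγζ
    have e1 := ev_all S fun n => p.mono (ξ (g n)) γ (hfγ n) hγζ
    have e3 := p.cont γ hγζ (fun n => ξ (g n)) hf hfγ hγ3
    have e4 : ∀ᶠ t in atTop, ∀ n, p.g (ξ (g n)) t < p.g (ξ (g (n + 1))) t :=
      ev_all S fun n => p.mono _ _ (hf (Nat.lt_succ_self n)) ((hfγ _).le.trans hγζ)
    have e5 := ev_all S hV'
    have e6 := ev_all S fun n => hV (g n)
    obtain ⟨t, t1, t2, t3, t4, t5, t6, t7⟩ := (e1.and ((p.mono γ β h hβ).and (e3.and (e4.and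
      (e5.and (e6.and (ev_le_top p β hβ))))))).exists
    have hlim : IsLim (p.g γ t) := by
      refine ⟨⟨_, t1 0⟩, fun x hx => ?_⟩
      obtain ⟨n, hn⟩ := t3 x hx
      exact ⟨_, hn, t1 n⟩
    obtain ⟨x0, hx0, V0, hV0⟩ := (p.str t).loc _ _ t2 t7 hlim
    obtain ⟨n0, hn0⟩ := t3 x0 hx0
    have hmono : StrictMono fun n => p.g (ξ (g n)) t := strictMono_nat_of_lt_succ t4
    have hVV : ∀ n, n0 ≤ n → V (g n) = V' n ∪ V0 := by
      intro n hn
      have h1 := hV0 (p.g (ξ (g n)) t) (hn0.le.trans (hmono.monotone hn)) (t1 n)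
      rw [t5 n, t6 n] at h1
      exact h1
    refine ⟨γ, fun n => ξ (g (n + n0)), fun n => V' (n + n0), hγζ, ?_, fun n => hfγ _, ?_,
      fun n => hV' _, ?_, fun n => ⟨_, rfl⟩⟩
    · intro m n hmn
      exact hf (by omega)
    · intro x hx
      obtain ⟨n, hn⟩ := hγ3 x hx
      exact ⟨n, hn.trans_le (hf.monotone (by omega))⟩
    · intro m n hmn
      have h1 : labs S (V' (m + n0)) = labs S (V' (n + n0)) := hmn
      have h2 : labs S (V (g (m + n0))) = labs S (V (g (n + n0))) := by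
        rw [hVV _ (by omega), hVV _ (by omega), labs_union, labs_union, h1]
      have h3 := hg.injective (hinj h2)
      omega

/-- The colouring. -/
theorem Rel_mono (pr : K → K → K) (e : W → Finset W → Bool) (ξ : L) (α : K) (p q : Cond S)
    (hp : ξ ≤ p.ζ ∧ Ch pr e p ξ α true) (h : Le q p) : ξ ≤ q.ζ ∧ Ch pr e q ξ α true :=
  ⟨hp.1.trans h.1, Ch.mono h hp.1 hp.2⟩

/-- The relation fails. -/
theorem rel_P (S : Sett W K L) :
    ∃ col : L → K → DP S, ∀ (F : K → L → DP S) (G : K → K → DP S) (c : DP S), c ≠ ⊥ →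
      InjN c F → InjN c G →
    (∃ (b : DP S) (a : K) (x : L) (a' y : K), b ≠ ⊥ ∧ b ≤ c ∧ b ≤ F a x ∧ b ≤ G a' y ∧ b ≤ col x y) ∧
    ∃ (b : DP S) (a : K) (x : L) (a' y : K), b ≠ ⊥ ∧ b ≤ c ∧ b ≤ F a x ∧ b ≤ G a' y ∧
      b ≤ (col x y)ᶜ := by
  obtain ⟨pr, hpr⟩ := exists_pr S
  obtain ⟨e, he⟩ := exists_split S
  refine ⟨fun ξ α => toD' (L := Le (S := S)) (fun p => ξ ≤ p.ζ ∧ Ch pr e p ξ α true)
    (Rel_mono pr e ξ α), fun F G c hc hF hG => ?_⟩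
  obtain ⟨b, β, hb, hbc, hbF⟩ := cardL_P (fun a x => F a x ⊓ c) (by
    intro a x y hxy
    have h1 := hF.sv a x y hxy
    rw [← inf_inf_distrib_right]
    exact h1) c hc
  obtain ⟨p0, hp0⟩ := exists_io_le hb
  obtain ⟨i0, -⟩ := exists_leastW S
  obtain ⟨p, hpp0, hβ⟩ := dense_ζ i0 β p0
  have hpb : io p ≤ b := (io_mono hpp0.1).trans hp0
  have hpc : io p ≤ c := hpb.trans hbc
  have hFβ : ∀ a x, β ≤ x → io p ⊓ F a x = ⊥ := by
    intro a x hx
    have h1 : io p ⊓ F a x ≤ b ⊓ (F a x ⊓ c) :=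
      le_inf (inf_le_left.trans hpb) (le_inf inf_le_right (inf_le_left.trans hpc))
    rw [hbF a x hx] at h1
    exact le_bot_iff.1 h1
  obtain ⟨q, a, ξ, V, hqp, hqF, hξ, hV, hinj⟩ := exists_seq hF p hpc hβ hFβ
  obtain ⟨γ, s, V', hγ, hs, hsγ, hsup, hV', hinj', hsξ⟩ := Rel_seq p hβ ξ hξ V hV hinj
  obtain ⟨X, hX, hkill⟩ := kill_chain hpr he p hγ s hs hsγ hsup V' hV' hinj'
  obtain ⟨q1, a', α, hq1, hα, hq1G⟩ := pick hG X hX q ((io_mono hqp).trans hpc)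
  obtain ⟨q2, hq2, hch⟩ := hkill α hα q1 (Le.trans hq1 hqp)
  have h2q : Le q2 q := Le.trans hq2 hq1
  have h2c : io q2 ≤ c := (io_mono h2q).trans ((io_mono hqp).trans hpc)
  have h2G : io q2 ≤ G a' α := (io_mono hq2).trans hq1G
  have hζ : ∀ n, s n ≤ q2.ζ := fun n =>
    (hsγ n).le.trans (hγ.trans (Le.trans h2q hqp).1)
  constructor
  · obtain ⟨n, hn⟩ := hch true
    obtain ⟨m, hm⟩ := hsξ n
    refine ⟨io q2, a m, ξ m, a', α, io_ne_bot q2, h2c, (io_mono h2q).trans (hqF m), h2G, ?_⟩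
    rw [← hm]
    exact le_io_iff.2 (mem_toD' (Rel_mono pr e (s n) α) ⟨hζ n, hn⟩)
  · obtain ⟨n, hn⟩ := hch false
    obtain ⟨m, hm⟩ := hsξ n
    refine ⟨io q2, a m, ξ m, a', α, io_ne_bot q2, h2c, (io_mono h2q).trans (hqF m), h2G, ?_⟩
    rw [← hm]
    refine le_io_iff.2 ?_
    intro r hr hr'
    obtain ⟨t, ht, ht'⟩ := hr' r (IsPre.refl (L := Le (S := S)) r)
    have h1 : Ch pr e t (s n) α false := Ch.mono (Le.trans ht hr) (hζ n) hn
    exact absurd (Ch.det ht'.2 h1) (by simp)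

end F61
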