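import Pool.Agent.W_MP_f61043_lc.Basic

/-!
# MP_f61043_lc : Lemma 6

Let `v < k' j`, `X` the set of the statement, `j'` the next element of `W` after `j`.  For `ξ ∈ X` choose `t ξ > j` such that for all
`t ≥ t ξ`: `g ξ t < g β t ≤ γ t` and `Bd (w t (g ξ t) (g β t)) v` (`p.mono`, `p.top`; if `β = p.ζ` then `g β t = γ t`).
For `t1 > j` let `X t1 = {ξ ∈ X | t ξ ≤ t1}`.  The map `ξ ↦ (g ξ t)_{t ≥ t1}` is injective on `X t1` (for `ξ < ξ'`, `g ξ t < g ξ' t` for
large `t`), and its values are in the product over `t ≥ t1` of the sets `{x < g β t | Bd (w t x (g β t)) v}`, of size `≤ κ_j`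
(`TStr.small`).  So `#(X t1) ≤ κ_j ^ #W ≤ κ_j ^ κ_j = 2 ^ κ_j = #(Iio (k' j))`, and `X` is the union of at most
`#W = ℵ₁` such sets, `#X ≤ #(Iio (k' j)) < #K`.
-/

universe u

open Cardinal Set Filter

namespace F61

open Pool.Agent.W_MP_315f31_lc

variable {W K L : Type u} [LinearOrder W] [LinearOrder K] [LinearOrder L]
  [WellFoundedLT W] [WellFoundedLT K] [WellFoundedLT L] {S : Sett W K L}

/-- The functions of level `≤ ζ` are below the tops. -/
theorem ev_le_top (p : Cond S) (β : L) (hβ : β ≤ p.ζ) :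
    ∀ᶠ t in atTop, p.g β t ≤ p.γ t := by
  rcases hβ.lt_or_eq with h | h
  · filter_upwards [p.mono β p.ζ h le_rfl, p.top] with t h1 h2
    rw [h2]
    exact h1.le
  · filter_upwards [p.top] with t h2
    rw [h2, h]

/-- One piece. -/
theorem small_piece (p : Cond S) (β : L) (hβ : β ≤ p.ζ) (v : K) (t1 : W) :
    #{ξ : L | ξ < β ∧ ∀ t, t1 ≤ t → lev S v < t ∧ p.g ξ t < p.g β t ∧ p.g β t ≤ p.γ t ∧
      Bd (p.w t (p.g ξ t) (p.g β t)) v} ≤ #(Iio (S.k' (lev S v))) := by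
  have := nonemptyW S
  have := neBotW S
  set X : Set L := {ξ : L | ξ < β ∧ ∀ t, t1 ≤ t → lev S v < t ∧ p.g ξ t < p.g β t ∧
    p.g β t ≤ p.γ t ∧ Bd (p.w t (p.g ξ t) (p.g β t)) v} with hX
  rcases X.eq_empty_or_nonempty with he | ⟨ξ0, hξ0⟩
  · rw [he]
    simp
  let D : Ici t1 → Set K := fun t => {x | x < p.g β t ∧ Bd (p.w t x (p.g β t)) v}
  have hD : ∀ t : Ici t1, #(D t) ≤ #(Iio (S.k (lev S v))) := by
    intro t
    obtain ⟨h1, h2, h3, h4⟩ := hξ0.2 t t.2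
    exact (p.str t).small (lev S v) h1 v (lt_k'_lev S v) (p.g β t) h3
  have hmap : #X ≤ #(∀ t : Ici t1, D t) := by
    refine Cardinal.mk_le_of_injective (f := fun ξ : X => fun t : Ici t1 =>
      (⟨p.g ξ t, (ξ.2.2 t t.2).2.1, (ξ.2.2 t t.2).2.2.2⟩ : D t)) ?_
    intro ξ ξ' hξ
    have hval : ∀ t, t1 ≤ t → p.g ξ t = p.g ξ' t := by
      intro t ht
      have h1 := congrFun hξ ⟨t, ht⟩
      exact congrArg Subtype.val h1
    have key : ∀ a b : L, a < b → b < β → (∀ t, t1 ≤ t → p.g a t = p.g b t) → False := by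
      intro a b hab hb hv
      have h1 := p.mono a b hab (hb.le.trans hβ)
      have h2 : ∀ᶠ t in atTop, t1 ≤ t := eventually_ge_atTop t1
      obtain ⟨t, h3, h4⟩ := (h1.and h2).exists
      rw [hv t h4] at h3
      exact lt_irrefl _ h3
    apply Subtype.ext
    rcases lt_trichotomy (ξ : L) (ξ' : L) with h | h | h
    · exact (key _ _ h ξ'.2.1 hval).elim
    · exact h
    · exact (key _ _ h ξ.2.1 fun t ht => (hval t ht).symm).elim
  have h5 : #(∀ t : Ici t1, D t) ≤ #(Iio (S.k (lev S v))) ^ #W := by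
    rw [Cardinal.mk_pi]
    refine (Cardinal.prod_le_prod _ (fun _ => #(Iio (S.k (lev S v)))) hD).trans ?_
    rw [Cardinal.prod_const, Cardinal.lift_id, Cardinal.lift_id]
    refine Cardinal.power_le_power_left ?_ (Cardinal.mk_set_le _)
    exact (Cardinal.aleph0_pos.trans_le (aleph0_le_ck S _)).ne'
  refine hmap.trans (h5.trans ?_)
  have h6 : #W ≤ #(Iio (S.k (lev S v))) := by
    rw [S.w_card]
    exact aleph_one_le_ck S _
  have hne : #(Iio (S.k (lev S v))) ≠ 0 := (Cardinal.aleph0_pos.trans_le (aleph0_le_ck S _)).ne'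
  refine (Cardinal.power_le_power_left hne h6).trans ?_
  rw [Cardinal.power_self_eq (aleph0_le_ck S _), S.gch _ (aleph0_le_ck S _), ← S.card_succ]

/-- Lemma 6. -/
theorem small_W (p : Cond S) (β : L) (hβ : β ≤ p.ζ) (v : K) :
    #{ξ | ξ < β ∧ ∀ᶠ t in atTop, Bd (p.w t (p.g ξ t) (p.g β t)) v} < #K := by
  have := nonemptyW S
  have hsub : {ξ | ξ < β ∧ ∀ᶠ t in atTop, Bd (p.w t (p.g ξ t) (p.g β t)) v} ⊆
      ⋃ t1 : W, {ξ : L | ξ < β ∧ ∀ t, t1 ≤ t → lev S v < t ∧ p.g ξ t < p.g β t ∧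
        p.g β t ≤ p.γ t ∧ Bd (p.w t (p.g ξ t) (p.g β t)) v} := by
    rintro ξ ⟨h1, h2⟩
    obtain ⟨b, hb⟩ := exists_boundW S (fun _ : Unit => lev S v)
    have h3 : ∀ᶠ t in atTop, lev S v < t := by
      filter_upwards [eventually_ge_atTop b] with t ht
      exact (hb ()).trans_le ht
    have h4 := h3.and ((p.mono ξ β h1 hβ).and ((ev_le_top p β hβ).and h2))
    obtain ⟨t1, ht1⟩ := Filter.eventually_atTop.1 h4
    exact mem_iUnion.2 ⟨t1, h1, fun t ht => ht1 t ht⟩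
  refine (Cardinal.mk_le_mk_of_subset hsub).trans_lt ?_
  refine (Cardinal.mk_iUnion_le_sum_mk).trans_lt ?_
  refine (Cardinal.sum_le_sum _ (fun _ => #(Iio (S.k' (lev S v))))
    fun t1 => small_piece p β hβ v t1).trans_lt ?_
  rw [Cardinal.sum_const, Cardinal.lift_id, Cardinal.lift_id]
  refine Cardinal.mul_lt_of_lt (aleph0_le_K S) ?_ (card_Iio_lt_K S _)
  rw [S.w_card]
  exact aleph_one_lt_K S

/-- The same for finite sets of sets of levels. -/
theorem small_labs (p : Cond S) (β : L) (hβ : β ≤ p.ζ) (Λ : Finset (Finset W)) :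
    #{ξ | ξ < β ∧ ∃ V, labs S V ∈ Λ ∧ ∀ᶠ t in atTop, p.w t (p.g ξ t) (p.g β t) = V} < #K := by
  classical
  obtain ⟨t0, ht0⟩ := exists_boundW S (fun x : (Λ.biUnion id : Finset W) => (x : W))
  refine lt_of_le_of_lt (Cardinal.mk_le_mk_of_subset ?_) (small_W p β hβ (S.k t0))
  rintro ξ ⟨h1, V, hV, h2⟩
  refine ⟨h1, ?_⟩
  filter_upwards [h2] with t ht
  rw [ht]
  intro a ha
  have h3 : lev S a ∈ labs S V := by
    unfold labs
    exact Finset.mem_image_of_mem _ ha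
  have h4 : lev S a < t0 := ht0 ⟨lev S a, Finset.mem_biUnion.2 ⟨_, hV, h3⟩⟩
  exact (lt_k'_lev S a).le.trans (S.k'_le _ _ h4)

end F61
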