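import Pool.Agent.W_MP_f61043_lc.Pick
import Pool.Agent.W_MP_f61043_lc.Small
import Pool.Agent.W_MP_f61043_lc.Dense

/-!
# MP_f61043_lc : countably many values with different sets of levels

`exists_seq`: `p ∈ c`, all values of `F` below `c` are `< β ≤ p.ζ`.  By recursion on `n` (state: a condition and a finite set
`Λ : Finset (Finset W)`): given `p_n ≤ p` and `Λ_n`, `X = {ξ | ξ < β ∧ ∃ V, labs V ∈ Λ_n ∧ ∀ᶠ t, w t (g ξ t) (g β t) = V}` (for `p`) is small
(`small_labs`); `pick` gives `p' ≤ p_n`, `a_n`, `ξ_n ∉ X`, `p' ∈ (F a_n ξ_n).1` (and `ξ_n < β` by `hβ`); with `V_n` (`p.lim`),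
`labs V_n ∉ Λ_n`; `Λ_(n+1) = insert (labs V_n) Λ_n`; `p_(n+1) ≤ p'` with `Sq i0 ν0 p_(n+1) p_n` (`exists_top`, `i0` the least element of `W`,
`ν0` the least element of `K`, `LeI.of_least`).  The limit of the `p_n` by `exists_lim` for `J = ULift ℕ` (the order from `ℕ`; `Sq.trans`), or
`exists_lim` for `ℕ` when `u = 0` is not available: use `ULift.{u} ℕ` with `LinearOrder.lift'`.
-/

universe u

open Cardinal Set Filter

namespace F61

open Pool.Agent.W_MP_315f31_lc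

variable {W K L : Type u} [LinearOrder W] [LinearOrder K] [LinearOrder L]
  [WellFoundedLT W] [WellFoundedLT K] [WellFoundedLT L] {S : Sett W K L}

/-- One step of the recursion. -/
theorem exists_seq_step {F : K → L → DP S} {c : DP S} (hF : InjN c F) (p : Cond S) (hp : io p ≤ c)
    {β : L} (hβ : β ≤ p.ζ) (hFβ : ∀ a x, β ≤ x → io p ⊓ F a x = ⊥) {i0 : W} (hi0 : ∀ s, i0 ≤ s)
    {ν0 : K} (hν0 : ν0 < S.k i0) (q : Cond S) (hq : Le q p) (Λ : Finset (Finset W)) :
    ∃ (r : Cond S) (a : K) (ξ : L) (V : Finset K), Sq i0 ν0 r q ∧ io r ≤ F a ξ ∧ ξ < β ∧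
      (∀ᶠ t in atTop, p.w t (p.g ξ t) (p.g β t) = V) ∧ labs S V ∉ Λ := by
  have hqp : io q ≤ io p := io_mono hq
  obtain ⟨p', a, x, hp', hx, hFx⟩ := pick hF _ (small_labs p β hβ Λ) q (hqp.trans hp)
  have hxβ : x < β := by
    by_contra hcon
    have h1 := hFβ a x (not_lt.1 hcon)
    have h2 : io p' ≤ io p ⊓ F a x := le_inf ((io_mono hp').trans hqp) hFx
    rw [h1] at h2
    exact io_ne_bot p' (le_bot_iff.1 h2)
  obtain ⟨V, hV⟩ := p.lim x β hxβ hβ
  obtain ⟨r, hr1, hr2⟩ := exists_top i0 hν0 (LeI.of_least hi0 hp')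
  exact ⟨r, a, x, V, hr2, (io_mono hr1.1).trans hFx, hxβ, hV, fun hmem => hx ⟨hxβ, V, hmem, hV⟩⟩

/-- Countably many values with different sets of levels. -/
theorem exists_seq {F : K → L → DP S} {c : DP S} (hF : InjN c F) (p : Cond S) (hp : io p ≤ c) {β : L}
    (hβ : β ≤ p.ζ) (hFβ : ∀ a x, β ≤ x → io p ⊓ F a x = ⊥) :
    ∃ (q : Cond S) (a : ℕ → K) (ξ : ℕ → L) (V : ℕ → Finset K), Le q p ∧
      (∀ n, io q ≤ F (a n) (ξ n)) ∧ (∀ n, ξ n < β) ∧
      (∀ n, ∀ᶠ t in atTop, p.w t (p.g (ξ n) t) (p.g β t) = V n) ∧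
      Function.Injective fun n => labs S (V n) := by
  classical
  obtain ⟨i0, hi0⟩ : ∃ i0 : W, ∀ s, i0 ≤ s := by
    have := nonemptyW S
    exact ⟨WellFounded.min (wellFounded_lt (α := W)) Set.univ Set.univ_nonempty,
      fun s => not_lt.1 (WellFounded.not_lt_min _ _ (Set.mem_univ s))⟩
  obtain ⟨ν0, hν0⟩ : ∃ ν0 : K, ν0 < S.k i0 := by
    have h1 : #(Iio (S.k i0)) ≠ 0 := (Cardinal.aleph0_pos.trans_le (aleph0_le_ck S i0)).ne'
    obtain ⟨⟨x, hx⟩⟩ := Cardinal.mk_ne_zero_iff.1 h1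
    exact ⟨x, hx⟩
  have hstep := fun (st : {x : Cond S × Finset (Finset W) // Le x.1 p}) =>
    exists_seq_step hF p hp hβ hFβ hi0 hν0 st.1.1 st.2 st.1.2
  choose r a ξ V h1 h2 h3 h4 h5 using hstep
  let nx : {x : Cond S × Finset (Finset W) // Le x.1 p} → {x : Cond S × Finset (Finset W) // Le x.1 p} :=
    fun st => ⟨(r st, insert (labs S (V st)) st.1.2), Le.trans (h1 st).1.1 st.2⟩
  let s : ℕ → {x : Cond S × Finset (Finset W) // Le x.1 p} :=
    fun n => nx^[n] ⟨(p, ∅), Le.refl p⟩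
  have hs : ∀ n, s (n + 1) = nx (s n) := fun n => Function.iterate_succ_apply' nx n _
  have hsq : ∀ n, Sq i0 ν0 (s (n + 1)).1.1 (s n).1.1 := by
    intro n
    rw [hs n]
    exact h1 (s n)
  have hsq' : ∀ m n, m < n → Sq i0 ν0 (s n).1.1 (s m).1.1 := by
    intro m n hmn
    induction n, hmn using Nat.le_induction with
    | base => exact hsq m
    | succ n hmn ih => exact Sq.trans le_rfl (hsq n) ih
  have hΛ : ∀ n, (s (n + 1)).1.2 = insert (labs S (V (s n))) (s n).1.2 := by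
    intro n
    rw [hs n]
  have hΛ' : ∀ m n, m < n → labs S (V (s m)) ∈ (s n).1.2 := by
    intro m n hmn
    induction n, hmn using Nat.le_induction with
    | base =>
      rw [hΛ m]
      exact Finset.mem_insert_self _ _
    | succ n hmn ih =>
      rw [hΛ n]
      exact Finset.mem_insert_of_mem ih
  have : NoMaxOrder (ULift.{u} ℕ) := ⟨fun n => ⟨⟨n.down + 1⟩, Nat.lt_succ_self n.down⟩⟩
  have hcJ : ∀ t : W, #(ULift.{u} ℕ) ≤ #(Iio (S.k t)) := by
    intro t
    rw [Cardinal.mk_uLift, Cardinal.mk_nat, Cardinal.lift_aleph0]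
    exact aleph0_le_ck S t
  obtain ⟨q, hq⟩ := exists_lim (J := ULift.{u} ℕ) i0 (hcJ i0) (fun _ => ν0)
    (fun n => (s n.down).1.1) (fun j j' hjj => hsq' j.down j'.down hjj) (fun v => Or.inl (hcJ _))
  refine ⟨q, fun n => a (s n), fun n => ξ (s n), fun n => V (s n), (hq ⟨0⟩).1.1, ?_, fun n => h3 _,
    fun n => h4 _, ?_⟩
  · intro n
    have h6 : Le q (s (n + 1)).1.1 := (hq ⟨n + 1⟩).1.1
    have h7 : io (s (n + 1)).1.1 ≤ F (a (s n)) (ξ (s n)) := by
      rw [hs n]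
      exact h2 (s n)
    exact (io_mono h6).trans h7
  · intro m n hmn
    have hmn' : labs S (V (s m)) = labs S (V (s n)) := hmn
    rcases lt_trichotomy m n with h | h | h
    · have h6 := hΛ' m n h
      rw [hmn'] at h6
      exact (h5 (s n) h6).elim
    · exact h
    · have h6 := hΛ' n m h
      rw [← hmn'] at h6
      exact (h5 (s m) h6).elim

end F61
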