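import Pool.Agent.W_61ad90_h15.PNames

/-!
# MP_f61043_lc : the setting and the forcing

`W` has the type `ω₁`, `K` the type `κ = ℵ_{ω₁}`, `L` the type `κ⁺`; `k t = ω_{1+t}`, `k' t = ω_{1+t+1}`
for `t : W`, as elements of `K`.  GCH holds.

A condition `p` has a height `p.ζ : L`, functions `p.g ξ : W → K` for `ξ ≤ ζ` which are increasing modulo
bounded subsets of `W`, and for every level `t : W` a structure `p.w t` on the ordinal `p.γ t < k' t`.
See the file `/team-store/f61043_proof.md` for the mathematical text.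
-/

universe u

open Cardinal Set Filter

namespace F61

open Pool.Agent.W_MP_315f31_lc

/-- The setting: three well-orders of types `ω₁`, `ℵ_{ω₁}`, `(ℵ_{ω₁})⁺`, under GCH. -/
structure Sett (W K L : Type u) [LinearOrder W] [LinearOrder K] [LinearOrder L] : Type u where
  /-- `k t = ω_{1+t}` -/
  k : W → K
  /-- `k' t = ω_{1+t+1}` -/
  k' : W → K
  w_ctbl : ∀ t : W, (Iio t).Countable
  w_card : #W = ℵ₁
  k_lt : ∀ t, k t < k' t
  k'_le : ∀ s t, s < t → k' s ≤ k t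
  /-- continuity of `k`, including `k (t+1) = k' t` -/
  k_cont : ∀ t v, v < k t → (∃ s < t, v < k' s) ∨ ∀ s, t ≤ s
  cofin : ∀ v, ∃ t, v < k' t
  card_bot : ∀ t, (∀ s, t ≤ s) → #(Iio (k t)) = ℵ₁
  card_succ : ∀ t, #(Iio (k' t)) = Order.succ #(Iio (k t))
  card_le : ∀ t v, v < k' t → #(Iio v) ≤ #(Iio (k t))
  segL : ∀ ξ : L, #(Iio ξ) ≤ #K
  cardL : #L = Order.succ #K
  gch : ∀ c : Cardinal.{u}, ℵ₀ ≤ c → (2 : Cardinal.{u}) ^ c = Order.succ c

variable {W K L : Type u} [LinearOrder W] [LinearOrder K] [LinearOrder L]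
  [WellFoundedLT W] [WellFoundedLT K] [WellFoundedLT L]

/-- `s ⊆ [0, v]` -/
def Bd {K : Type u} [LinearOrder K] (s : Finset K) (v : K) : Prop := ∀ a ∈ s, a ≤ v

/-- `δ` is a limit point: not the least element and not a successor. -/
def IsLim {K : Type u} [LinearOrder K] (δ : K) : Prop := (∃ x, x < δ) ∧ ∀ x < δ, ∃ y, x < y ∧ y < δ

/-- The level of `v`: the least `t` with `v < k' t`. -/
noncomputable def lev (S : Sett W K L) (v : K) : W :=
  WellFounded.min (wellFounded_lt (α := W)) {t | v < S.k' t} (S.cofin v)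

/-- `t` is the least element or a successor. -/
def Good (t : W) : Prop := (∀ s, t ≤ s) ∨ ∃ r, r < t ∧ ∀ s, s < t → s ≤ r

/-- The structures of the level `t`, on the ordinal `γ`. -/
structure TStr (S : Sett W K L) (t : W) (γ : K) (w : K → K → Finset K) : Prop where
  lt : γ < S.k' t
  junk : ∀ x z, ¬ (x < z ∧ z ≤ γ) → w x z = ∅
  ne : ∀ x z, x < z → z ≤ γ → (w x z).Nonempty
  val : ∀ x z, ∀ a ∈ w x z, a < S.k t
  coh : ∀ x y z, x < y → y < z → z ≤ γ → ∀ v, Bd (w y z) v → (Bd (w x y) v ↔ Bd (w x z) v)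
  small : ∀ s < t, ∀ v < S.k' s, ∀ z ≤ γ, #{x | x < z ∧ Bd (w x z) v} ≤ #(Iio (S.k s))
  loc : ∀ δ z, δ < z → z ≤ γ → IsLim δ → ∃ x0 < δ, ∃ V : Finset K,
    ∀ x, x0 ≤ x → x < δ → w x z = w x δ ∪ V

/-- The conditions. -/
@[ext] structure Cond (S : Sett W K L) : Type u where
  ζ : L
  g : L → W → K
  γ : W → K
  w : W → K → K → Finset K
  str : ∀ t, TStr S t (γ t) (w t)
  g_junk : ∀ ξ, ζ < ξ → ∀ t, g ξ t = S.k t
  g_lt : ∀ ξ t, g ξ t < S.k' t
  mono : ∀ ξ ξ', ξ < ξ' → ξ' ≤ ζ → ∀ᶠ t in atTop, g ξ t < g ξ' t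
  top : ∀ᶠ t in atTop, γ t = g ζ t
  cont : ∀ δ ≤ ζ, ∀ s : ℕ → L, StrictMono s → (∀ n, s n < δ) → (∀ ξ < δ, ∃ n, ξ < s n) →
    ∀ᶠ t in atTop, ∀ x < g δ t, ∃ n, x < g (s n) t
  lim : ∀ ξ ξ', ξ < ξ' → ξ' ≤ ζ → ∃ V : Finset K, ∀ᶠ t in atTop, w t (g ξ t) (g ξ' t) = V

variable {S : Sett W K L}

/-- `q` is stronger than `p`. -/
def Le (q p : Cond S) : Prop :=
  p.ζ ≤ q.ζ ∧ (∀ ξ ≤ p.ζ, q.g ξ = p.g ξ) ∧ (∀ t, p.γ t ≤ q.γ t) ∧
    ∀ t x z, z ≤ p.γ t → q.w t x z = p.w t x z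

instance : IsPre (Le (S := S)) where
  refl _ := ⟨le_rfl, fun _ _ => rfl, fun _ => le_rfl, fun _ _ _ _ => rfl⟩
  trans p q r h1 h2 := ⟨h2.1.trans h1.1, fun ξ hξ => (h1.2.1 ξ (hξ.trans h2.1)).trans (h2.2.1 ξ hξ),
    fun t => (h2.2.2.1 t).trans (h1.2.2.1 t),
    fun t x z hz => (h1.2.2.2 t x z (hz.trans (h2.2.2.1 t))).trans (h2.2.2.2 t x z hz)⟩

/-- `q` is stronger than `p`, and the coordinates below `i` are the same. -/
def LeI (i : W) (q p : Cond S) : Prop := Le q p ∧ ∀ t < i, q.γ t = p.γ t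

/-- `q` is a stronger condition than `p` with the same coordinates below `i`; the tops of the levels `≥ i`
are moved, coherently, with labels `≥ ν`. -/
def Sq (i : W) (ν : K) (q p : Cond S) : Prop :=
  LeI i q p ∧ p.ζ < q.ζ ∧ ∀ t, i ≤ t → p.γ t < q.γ t ∧
    (∀ x < p.γ t, q.w t x (q.γ t) = p.w t x (p.γ t)) ∧
    ∀ x, p.γ t ≤ x → x < q.γ t → ∃ a ∈ q.w t x (q.γ t), ν ≤ a

/-- The levels of the elements of `s`. -/
noncomputable def labs (S : Sett W K L) (s : Finset K) : Finset W := by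
  classical exact s.image (lev S)

/-- A bound of `X` below `k' s`, if there is one. -/
noncomputable def bnd (S : Sett W K L) (s : W) (X : Set K) : K :=
  open Classical in if h : ∃ y, y < S.k' s ∧ ∀ x ∈ X, x < y then h.choose else S.k s

/-- The rank of `α` in the tree `x ↦ D_v(x)`. -/
noncomputable def rk (S : Sett W K L) (w : K → K → Finset K) (v : K) : K → K :=
  WellFounded.fix (wellFounded_lt (α := K))
    fun α ih => bnd S (lev S v) {y | ∃ x, ∃ h : x < α, Bd (w x α) v ∧ y = ih x h}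

/-- The greatest element of `s` (`d` if `s` is empty). -/
noncomputable def mx {K : Type u} [LinearOrder K] (s : Finset K) (d : K) : K :=
  if h : s.Nonempty then s.max' h else d

/-- The element after `α` in the chain. -/
noncomputable def nxt (S : Sett W K L) (pr : K → K → K) (w : K → K → Finset K) (z α : K) : K :=
  pr (mx (w α z) α) (rk S w (mx (w α z) α) α)

/-- `pr` is a pairing function of the levels. -/
structure IsPr (S : Sett W K L) (pr : K → K → K) : Prop where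
  lev : ∀ v o, o < S.k' (lev S v) → lev S (pr v o) = lev S v
  inj : ∀ v o v' o', o < S.k' (F61.lev S v) → o' < S.k' (F61.lev S v') → pr v o = pr v' o' →
    v = v' ∧ o = o'

/-- `e` is a splitting family. -/
def IsSplit {W : Type u} [LinearOrder W] (e : W → Finset W → Bool) : Prop :=
  ∀ w : ℕ → Finset W, Function.Injective w → ∃ t0, ∀ t, t0 ≤ t → ∀ V : Finset W, (∀ a ∈ V, a ≤ t) →
    ∀ n0 : ℕ, ∀ c : Bool, ∃ n, n0 ≤ n ∧ e t (w n ∪ V) = c

/-- `p` decides that the colour of `(ξ, α)` is `c` (for `ξ ≤ p.ζ`). -/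
inductive Ch (pr : K → K → K) (e : W → Finset W → Bool) (p : Cond S) (ξ : L) : K → Bool → Prop
  | stop (α : K) : p.g ξ (lev S α) ≤ α → α ≤ p.γ (lev S α) →
      Ch pr e p ξ α (e (lev S α) (labs S (p.w (lev S α) (p.g ξ (lev S α)) α)))
  | zero (α : K) : α < p.g ξ (lev S α) → (∀ s, lev S α ≤ s) → Ch pr e p ξ α false
  | step (α : K) (c : Bool) : α < p.g ξ (lev S α) → p.g ξ (lev S α) ≤ p.γ (lev S α) →
      ¬ (∀ s, lev S α ≤ s) →
      Ch pr e p ξ (nxt S pr (p.w (lev S α)) (p.g ξ (lev S α)) α) c → Ch pr e p ξ α c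

/-- The algebra of the forcing. -/
abbrev DP (S : Sett W K L) : Type u := DD (Le (S := S))

end F61
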