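import Pool.Agent.W_MP_f61043_lc.Basic

/-!
# MP_f61043_lc : the one step extension of the structures

`TStr.step`.  For `z ≤ γ` nothing changes.  For `z = z'` (`x < z'` iff `x ≤ γ`), write `w'` for the new structure.
* `coh` (`x < y < z'`, `Bd (w' y z') v`): if `y < γ0`, it is `coh` at `(x, y, γ0)`.  Otherwise `u ≤ v`, so `Bd (w γ0 γ) v`, and for
  `x < γ0` (if `γ0 < γ`) `Bd (w x γ0) v ↔ Bd (w x γ) v` by `coh` at `(x, γ0, γ)`; for `γ0 ≤ y < γ` use `coh` at `(x, y, γ)`;
  for `y = γ` everything is immediate.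
* `small`: if `v < u` then only `x < γ0` with `Bd (w x γ0) v` count.  If `u ≤ v` the set is contained in
  `{x < γ, Bd (w x γ) v} ∪ {γ}` (again by `coh` at `(x, γ0, γ)`).
* `loc`: `δ < γ0`: from `loc` at `(δ, γ0)`; `δ = γ0`: `V = ∅`; `γ0 < δ < γ`: `loc` at `(δ, γ)`, `max x0 γ0`, `insert u V`;
  `γ0 < δ = γ`: `x0 = γ0`, `V = {u}`.
-/

universe u

open Cardinal Set Filter

namespace F61

open Pool.Agent.W_MP_315f31_lc

variable {W K L : Type u} [LinearOrder W] [LinearOrder K] [LinearOrder L]
  [WellFoundedLT W] [WellFoundedLT K] [WellFoundedLT L]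

/-- The greatest element of `s ∪ {d}`. -/
noncomputable def ubd (d : K) (s : Finset K) : K := (insert d s).max' (Finset.insert_nonempty d s)

omit [WellFoundedLT K] in
theorem le_ubd (d : K) (s : Finset K) : d ≤ ubd d s := by
  exact Finset.le_max' _ _ (Finset.mem_insert_self _ _)

omit [WellFoundedLT K] in
theorem bd_ubd (d : K) (s : Finset K) : Bd s (ubd d s) := by
  intro a ha
  exact Finset.le_max' _ _ (Finset.mem_insert_of_mem ha)

omit [WellFoundedLT K] in
theorem ubd_lt {d b : K} {s : Finset K} (h : d < b) (hs : ∀ a ∈ s, a < b) : ubd d s < b := by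
  rw [ubd, Finset.max'_lt_iff]
  intro a ha
  rcases Finset.mem_insert.1 ha with h1 | h1
  · rw [h1]
    exact h
  · exact hs a h1

/-- The structure with the new point `z'`, the successor of `γ`. -/
noncomputable def stepW (w : K → K → Finset K) (γ0 γ z' u : K) (x z : K) : Finset K :=
  if z = z' then
    if x < γ0 then w x γ0 else if x < γ then insert u (w x γ) else if x = γ then {u} else ∅
  else w x z

omit [WellFoundedLT K] in
theorem stepW_of_le (w : K → K → Finset K) {γ0 γ z' u x z : K} (hz : ∀ x, x < z' ↔ x ≤ γ)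
    (h : z ≤ γ) : stepW w γ0 γ z' u x z = w x z := by
  rw [stepW, if_neg]
  intro h1
  have h2 := (hz z).2 h
  rw [h1] at h2
  exact absurd h2 (lt_irrefl _)

omit [WellFoundedLT K] in
theorem stepW_of_lt (w : K → K → Finset K) {γ0 γ z' u x : K} (h : x < γ0) :
    stepW w γ0 γ z' u x z' = w x γ0 := by
  rw [stepW, if_pos rfl, if_pos h]

omit [WellFoundedLT K] in
theorem stepW_of_ge (w : K → K → Finset K) {γ0 γ z' u x : K} (h : γ0 ≤ x) (h' : x < γ) :
    stepW w γ0 γ z' u x z' = insert u (w x γ) := by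
  rw [stepW, if_pos rfl, if_neg (not_lt.2 h), if_pos h']

omit [WellFoundedLT K] in
theorem stepW_top (w : K → K → Finset K) {γ0 γ z' u : K} (h : γ0 ≤ γ) :
    stepW w γ0 γ z' u γ z' = {u} := by
  rw [stepW, if_pos rfl, if_neg (not_lt.2 h), if_neg (lt_irrefl _), if_pos rfl]

/-- The one step extension. -/
theorem TStr.step {S : Sett W K L} {t : W} {γ : K} {w : K → K → Finset K} (h : TStr S t γ w)
    {γ0 z' u : K} (h0 : γ0 ≤ γ) (hz : ∀ x, x < z' ↔ x ≤ γ) (hz' : z' < S.k' t) (hu : u < S.k t)
    (hb : Bd (w γ0 γ) u) : TStr S t z' (stepW w γ0 γ z' u) := by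
  have hsplit : ∀ z, z ≤ z' → z ≤ γ ∨ z = z' := by
    intro z hzz
    rcases hzz.eq_or_lt with h1 | h1
    · exact Or.inr h1
    · exact Or.inl ((hz z).1 h1)
  have hγz : γ < z' := (hz γ).2 le_rfl
  have hle : ∀ {x z}, z ≤ γ → stepW w γ0 γ z' u x z = w x z := fun h1 => stepW_of_le w hz h1
  have hlt : ∀ {x}, x < γ0 → stepW w γ0 γ z' u x z' = w x γ0 := fun h1 => stepW_of_lt w h1
  have hge : ∀ {x}, γ0 ≤ x → x < γ → stepW w γ0 γ z' u x z' = insert u (w x γ) :=
    fun h1 h2 => stepW_of_ge w h1 h2
  have htop : stepW w γ0 γ z' u γ z' = {u} := stepW_top w h0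
  have hins : ∀ (s : Finset K) (v : K), Bd (insert u s) v ↔ u ≤ v ∧ Bd s v := by
    intro s v
    constructor
    · intro h1
      exact ⟨h1 u (Finset.mem_insert_self _ _), fun a ha => h1 a (Finset.mem_insert_of_mem ha)⟩
    · rintro ⟨h1, h2⟩ a ha
      rcases Finset.mem_insert.1 ha with h3 | h3
      · rw [h3]
        exact h1
      · exact h2 a h3
  have hsing : ∀ v : K, Bd ({u} : Finset K) v ↔ u ≤ v := by
    intro v
    constructor
    · intro h1
      exact h1 u (Finset.mem_singleton_self _)
    · intro h1 a ha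
      rw [Finset.mem_singleton.1 ha]
      exact h1
  -- the key equivalence
  have hkey : ∀ x v, x < γ0 → u ≤ v → (Bd (w x γ0) v ↔ Bd (w x γ) v) := by
    intro x v hx hv
    rcases h0.eq_or_lt with h1 | h1
    · rw [h1]
    · exact h.coh x γ0 γ hx h1 le_rfl v (fun a ha => (hb a ha).trans hv)
  refine ⟨hz', ?_, ?_, ?_, ?_, ?_, ?_⟩
  · intro x z hn
    by_cases hzz : z = z'
    · subst hzz
      have hx : ¬ x < z := fun h1 => hn ⟨h1, le_rfl⟩
      have hx2 : γ < x := hγz.trans_le (not_lt.1 hx)
      rw [stepW, if_pos rfl, if_neg (not_lt.2 (h0.trans hx2.le)), if_neg (not_lt.2 hx2.le),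
        if_neg hx2.ne']
    · rw [stepW, if_neg hzz]
      refine h.junk x z ?_
      rintro ⟨h1, h2⟩
      exact hn ⟨h1, h2.trans hγz.le⟩
  · intro x z hxz hzz
    rcases hsplit z hzz with h1 | h1
    · rw [hle h1]
      exact h.ne x z hxz h1
    · subst h1
      have hx : x ≤ γ := (hz x).1 hxz
      rcases lt_or_ge x γ0 with h2 | h2
      · rw [hlt h2]
        exact h.ne x γ0 h2 h0
      · rcases hx.eq_or_lt with h3 | h3
        · rw [h3, htop]
          exact Finset.singleton_nonempty _
        · rw [hge h2 h3]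
          exact Finset.insert_nonempty _ _
  · intro x z a ha
    by_cases hzz : z = z'
    · subst hzz
      rcases lt_or_ge x γ0 with h2 | h2
      · rw [hlt h2] at ha
        exact h.val _ _ a ha
      · rcases lt_trichotomy x γ with h3 | h3 | h3
        · rw [hge h2 h3] at ha
          rcases Finset.mem_insert.1 ha with h4 | h4
          · rw [h4]
            exact hu
          · exact h.val _ _ a h4
        · rw [h3, htop] at ha
          rw [Finset.mem_singleton.1 ha]
          exact hu
        · rw [stepW, if_pos rfl, if_neg (not_lt.2 h2), if_neg (not_lt.2 h3.le), if_neg h3.ne'] at ha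
          exact absurd ha (Finset.notMem_empty _)
    · rw [stepW, if_neg hzz] at ha
      exact h.val _ _ a ha
  · intro x y z hxy hyz hzz v hbd
    rcases hsplit z hzz with h1 | h1
    · rw [hle h1] at hbd
      rw [hle h1, hle (hyz.le.trans h1)]
      exact h.coh x y z hxy hyz h1 v hbd
    · subst h1
      have hy : y ≤ γ := (hz y).1 hyz
      rw [hle hy]
      rcases lt_or_ge y γ0 with h2 | h2
      · rw [hlt h2] at hbd
        rw [hlt (hxy.trans h2)]
        exact h.coh x y γ0 hxy h2 h0 v hbd
      · rcases hy.eq_or_lt with h3 | h3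
        · subst h3
          rw [htop, hsing] at hbd
          rcases lt_or_ge x γ0 with h4 | h4
          · rw [hlt h4]
            exact (hkey x v h4 hbd).symm
          · rw [hge h4 hxy, hins]
            exact ⟨fun h5 => ⟨hbd, h5⟩, fun h5 => h5.2⟩
        · rw [hge h2 h3, hins] at hbd
          have h4 := h.coh x y γ hxy h3 le_rfl v hbd.2
          rcases lt_or_ge x γ0 with h5 | h5
          · rw [hlt h5, h4]
            exact (hkey x v h5 hbd.1).symm
          · rw [hge h5 (hxy.trans h3), hins, h4]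
            exact ⟨fun h6 => ⟨hbd.1, h6⟩, fun h6 => h6.2⟩
  · intro s hs v hv z hzz
    rcases hsplit z hzz with h1 | h1
    · have h2 : {x | x < z ∧ Bd (stepW w γ0 γ z' u x z) v} = {x | x < z ∧ Bd (w x z) v} := by
        ext x
        simp only [mem_ofPred_eq]
        rw [hle h1]
      rw [h2]
      exact h.small s hs v hv z h1
    · subst h1
      rcases lt_or_ge v u with h2 | h2
      · refine (mk_le_mk_of_subset ?_).trans (h.small s hs v hv γ0 h0)
        rintro x ⟨hx, hx2⟩
        have hxγ : x ≤ γ := (hz x).1 hx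
        rcases lt_or_ge x γ0 with h3 | h3
        · rw [hlt h3] at hx2
          exact ⟨h3, hx2⟩
        · exfalso
          rcases hxγ.eq_or_lt with h4 | h4
          · rw [h4, htop, hsing] at hx2
            exact absurd h2 (not_lt.2 hx2)
          · rw [hge h3 h4, hins] at hx2
            exact absurd h2 (not_lt.2 hx2.1)
      · have hsub : {x | x < z ∧ Bd (stepW w γ0 γ z u x z) v} ⊆
            insert γ {x | x < γ ∧ Bd (w x γ) v} := by
          rintro x ⟨hx, hx2⟩
          have hxγ : x ≤ γ := (hz x).1 hx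
          rcases hxγ.eq_or_lt with h4 | h4
          · exact Or.inl h4
          · refine Or.inr ⟨h4, ?_⟩
            rcases lt_or_ge x γ0 with h3 | h3
            · rw [hlt h3] at hx2
              exact (hkey x v h3 h2).1 hx2
            · rw [hge h3 h4, hins] at hx2
              exact hx2.2
        refine (mk_le_mk_of_subset hsub).trans (mk_insert_le.trans ?_)
        have h3 := aleph0_le_ck S s
        refine (add_le_add (h.small s hs v hv γ le_rfl) (one_le_aleph0.trans h3)).trans ?_
        exact (add_eq_self h3).le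
  · intro δ z hδ hzz hlim
    rcases hsplit z hzz with h1 | h1
    · obtain ⟨x0, hx0, V, hV⟩ := h.loc δ z hδ h1 hlim
      refine ⟨x0, hx0, V, fun x h2 h3 => ?_⟩
      rw [hle h1, hle (hδ.le.trans h1)]
      exact hV x h2 h3
    · subst h1
      have hδγ : δ ≤ γ := (hz δ).1 hδ
      rcases lt_trichotomy δ γ0 with h2 | h2 | h2
      · obtain ⟨x0, hx0, V, hV⟩ := h.loc δ γ0 h2 h0 hlim
        refine ⟨x0, hx0, V, fun x h3 h4 => ?_⟩
        rw [hlt (h4.trans h2), hle hδγ]
        exact hV x h3 h4
      · obtain ⟨x0, hx0⟩ := hlim.1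
        refine ⟨x0, hx0, ∅, fun x h3 h4 => ?_⟩
        rw [hle hδγ, Finset.union_empty, h2]
        exact hlt (h4.trans_eq h2)
      · rcases hδγ.eq_or_lt with h3 | h3
        · subst h3
          refine ⟨γ0, h2, {u}, fun x h4 h5 => ?_⟩
          rw [hge h4 h5, hle le_rfl, Finset.union_comm]
          exact Finset.insert_eq u (w x δ)
        · obtain ⟨x0, hx0, V, hV⟩ := h.loc δ γ h3 le_rfl hlim
          refine ⟨max x0 γ0, max_lt hx0 h2, insert u V, fun x h4 h5 => ?_⟩
          rw [hge ((le_max_right _ _).trans h4) (h5.trans h3), hle hδγ,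
            hV x ((le_max_left _ _).trans h4) h5, Finset.union_insert]

end F61
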