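import Pool.Agent.W_MP_f61043_lc.StepT

/-!
# MP_f61043_lc : Lemma 1, the top extension

`p`, `q ≤_i p`, `ν < k i` are given.  Let `ζ'` be the successor of `q.ζ` (`exists_nextL`), and for every `t` let `z' t < k' t` be the
successor of `q.γ t` (`exists_nextK`, `choose`).  Let `U t = ubd ν (q.w t (p.γ t) (q.γ t))` (`< k t` for `t ≥ i`:
`ubd_lt`, `ν < k i ≤ k t`, `TStr.val`).  Define `r` by
* `r.ζ = ζ'`; `r.γ t = if t < i then q.γ t else z' t`;
* `r.g ξ t = if ξ < ζ' then q.g ξ t else if ξ = ζ' then r.γ t else k t`;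
* `r.w t = if t < i then q.w t else stepW (q.w t) (p.γ t) (q.γ t) (z' t) (U t)`.
`str`: `TStr.step`.  `mono` at `ξ' = ζ'`: `ξ ≤ q.ζ`, for large `t` (`t ≥ i`, `q.top`, `q.mono`): `q.g ξ t ≤ q.g q.ζ t = q.γ t < z' t`.
`top`: all `t`.  `cont` at `δ = ζ'`: impossible (`s n < ζ'` gives `s n ≤ q.ζ`, but some `n` has `q.ζ < s n`).
`lim` at `ξ' = ζ'` (for large `t` `p.γ t = p.g p.ζ t = q.g p.ζ t`, `q.γ t = q.g q.ζ t`, and `t ≥ i`):
* `ξ < p.ζ`: the value is `q.w t (q.g ξ t) (q.g p.ζ t)`: `q.lim ξ p.ζ`;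
* `p.ζ ≤ ξ < q.ζ`: the value is `insert (U t) (q.w t (q.g ξ t) (q.g q.ζ t))`, `U t = ubd ν (q.w t (q.g p.ζ t) (q.g q.ζ t))`: use
  `q.lim ξ q.ζ` and `q.lim p.ζ q.ζ`;
* `ξ = q.ζ`: the value is `{U t}`; if `p.ζ < q.ζ` as before; if `p.ζ = q.ζ` then for large `t` `p.γ t = q.γ t`, and
  `U t = ubd ν ∅` by `TStr.junk`.
The elements `ξ' ≤ q.ζ` : `r.w t x z = q.w t x z` for `z ≤ q.γ t` (`stepW_of_le`), and for large `t` `q.g ξ' t ≤ q.g q.ζ t = q.γ t`
(use this for `lim`).
`Sq i ν r p`: for `x < p.γ t`: `r.w t x (z' t) = q.w t x (p.γ t) = p.w t x (p.γ t)`; for `p.γ t ≤ x < z' t` the value contains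
`U t ≥ ν`.
-/

universe u

open Cardinal Set Filter

namespace F61

open Pool.Agent.W_MP_315f31_lc

variable {W K L : Type u} [LinearOrder W] [LinearOrder K] [LinearOrder L]
  [WellFoundedLT W] [WellFoundedLT K] [WellFoundedLT L]

/-- Lemma 1, the top extension. -/
theorem exists_top {S : Sett W K L} (i : W) {ν : K} (hν : ν < S.k i) {p q : Cond S} (h : LeI i q p) :
    ∃ r : Cond S, LeI i r q ∧ Sq i ν r p := by
  classical
  obtain ⟨ζ', hζ'⟩ := exists_nextL S q.ζ
  choose z' hz'lt hz using fun t => exists_nextK S t (q.str t).lt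
  have hqζ : q.ζ < ζ' := (hζ' _).2 le_rfl
  have hqz : ∀ t, q.γ t < z' t := fun t => (hz t _).2 le_rfl
  let U : W → K := fun t => ubd ν (q.w t (p.γ t) (q.γ t))
  have hU : ∀ t, i ≤ t → U t < S.k t := fun t ht =>
    ubd_lt (hν.trans_le (k_mono S ht)) fun a ha => (q.str t).val _ _ a ha
  let Γ : W → K := fun t => if t < i then q.γ t else z' t
  have hΓ1 : ∀ t, t < i → Γ t = q.γ t := fun t ht => if_pos ht
  have hΓ2 : ∀ t, ¬ t < i → Γ t = z' t := fun t ht => if_neg ht
  let G : L → W → K := fun ξ t => if ξ < ζ' then q.g ξ t else if ξ = ζ' then Γ t else S.k t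
  have hG : ∀ ξ, ξ ≤ q.ζ → G ξ = q.g ξ := fun ξ hξ => by
    funext t
    exact if_pos ((hζ' ξ).2 hξ)
  have hGζ : ∀ t, G ζ' t = Γ t := fun t => by
    show (if ζ' < ζ' then _ else if ζ' = ζ' then Γ t else S.k t) = Γ t
    rw [if_neg (lt_irrefl _), if_pos rfl]
  let Wt : W → K → K → Finset K := fun t =>
    if t < i then q.w t else stepW (q.w t) (p.γ t) (q.γ t) (z' t) (U t)
  have hW0 : ∀ t, t < i → Wt t = q.w t := fun t ht => if_pos ht
  have hW1 : ∀ t, ¬ t < i → Wt t = stepW (q.w t) (p.γ t) (q.γ t) (z' t) (U t) :=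
    fun t ht => if_neg ht
  have hW2 : ∀ t x z, z ≤ q.γ t → Wt t x z = q.w t x z := by
    intro t x z hz1
    by_cases ht : t < i
    · rw [hW0 t ht]
    · rw [hW1 t ht]
      exact stepW_of_le _ (hz t) hz1
  have hpq : ∀ t, p.γ t ≤ q.γ t := h.1.2.2.1
  have hγle : ∀ t, q.γ t ≤ Γ t := by
    intro t
    by_cases ht : t < i
    · rw [hΓ1 t ht]
    · rw [hΓ2 t ht]
      exact (hqz t).le
  have hGγ : ∀ ξ, ξ ≤ q.ζ → ∀ᶠ t in atTop, G ξ t ≤ q.γ t := by
    intro ξ hξ
    rcases hξ.eq_or_lt with h1 | h1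
    · filter_upwards [q.top] with t ht
      rw [ht, hG ξ hξ, h1]
    · filter_upwards [q.top, q.mono ξ _ h1 le_rfl] with t ht ht'
      rw [ht, hG ξ hξ]
      exact ht'.le
  -- the labels
  have hUlim : ∃ u0, ∀ᶠ t in atTop, U t = u0 := by
    rcases h.1.1.eq_or_lt with h1 | h1
    · refine ⟨ubd ν ∅, ?_⟩
      filter_upwards [p.top, q.top] with t ht ht'
      have h2 : p.γ t = q.γ t := by
        rw [ht, ht', ← h1, h.1.2.1 _ le_rfl]
      show ubd ν (q.w t (p.γ t) (q.γ t)) = _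
      rw [h2, (q.str t).junk _ _ fun h3 => lt_irrefl _ h3.1]
    · obtain ⟨V, hV⟩ := q.lim p.ζ q.ζ h1 le_rfl
      refine ⟨ubd ν V, ?_⟩
      filter_upwards [p.top, q.top, hV] with t ht ht' h3
      show ubd ν (q.w t (p.γ t) (q.γ t)) = _
      rw [ht, ht', ← h.1.2.1 _ le_rfl, h3]
  let r : Cond S :=
    { ζ := ζ'
      g := G
      γ := Γ
      w := Wt
      str := by
        intro t
        by_cases ht : t < i
        · rw [hΓ1 t ht, hW0 t ht]
          exact q.str t
        · rw [hΓ2 t ht, hW1 t ht]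
          exact (q.str t).step (hpq t) (hz t) (hz'lt t) (hU t (not_lt.1 ht)) (bd_ubd _ _)
      g_junk := by
        intro ξ hξ t
        show (if ξ < ζ' then _ else if ξ = ζ' then Γ t else S.k t) = S.k t
        rw [if_neg hξ.le.not_gt, if_neg hξ.ne']
      g_lt := by
        intro ξ t
        show (if ξ < ζ' then _ else if ξ = ζ' then Γ t else S.k t) < _
        split_ifs
        · exact q.g_lt _ _
        · by_cases ht : t < i
          · rw [hΓ1 t ht]
            exact (q.str t).lt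
          · rw [hΓ2 t ht]
            exact hz'lt t
        · exact S.k_lt t
      mono := by
        intro ξ ξ' h1 h2
        rcases h2.eq_or_lt with h3 | h3
        · rw [h3] at h1 ⊢
          have h4 : ξ ≤ q.ζ := (hζ' ξ).1 h1
          filter_upwards [hGγ ξ h4, eventually_ge_atTop i] with t ht ht'
          rw [hGζ, hΓ2 t (not_lt.2 ht')]
          exact ht.trans_lt (hqz t)
        · have h4 : ξ' ≤ q.ζ := (hζ' ξ').1 h3
          rw [hG _ h4, hG _ (h1.le.trans h4)]
          exact q.mono ξ ξ' h1 h4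
      top := Filter.Eventually.of_forall fun t => (hGζ t).symm
      cont := by
        intro δ hδ s hsm hsδ hsup
        rcases hδ.eq_or_lt with h3 | h3
        · rw [h3] at hsδ hsup
          obtain ⟨n, hn⟩ := hsup _ hqζ
          exact absurd ((hζ' _).1 (hsδ n)) (not_le.2 hn)
        · have h4 : δ ≤ q.ζ := (hζ' δ).1 h3
          filter_upwards [q.cont δ h4 s hsm hsδ hsup] with t ht
          intro x hx
          rw [hG _ h4] at hx
          obtain ⟨n, hn⟩ := ht x hx
          refine ⟨n, ?_⟩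
          rw [hG _ ((hsδ n).le.trans h4)]
          exact hn
      lim := by
        intro ξ ξ' h1 h2
        rcases h2.eq_or_lt with h3 | h3
        · rw [h3] at h1 ⊢
          have h4 : ξ ≤ q.ζ := (hζ' ξ).1 h1
          obtain ⟨u0, hu0⟩ := hUlim
          rcases lt_or_ge ξ p.ζ with h5 | h5
          · -- below the height of `p`
            obtain ⟨V, hV⟩ := q.lim ξ p.ζ h5 h.1.1
            refine ⟨V, ?_⟩
            filter_upwards [hV, p.top, q.mono ξ p.ζ h5 h.1.1, eventually_ge_atTop i] with t h6 h7 h8 h9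
            have h10 : p.γ t = q.g p.ζ t := by rw [h7, h.1.2.1 _ le_rfl]
            rw [hGζ, hG _ h4, hΓ2 t (not_lt.2 h9), hW1 t (not_lt.2 h9),
              stepW_of_lt _ (by rw [h10]; exact h8), h10]
            exact h6
          · rcases h4.eq_or_lt with h6 | h6
            · refine ⟨{u0}, ?_⟩
              filter_upwards [hu0, q.top, eventually_ge_atTop i] with t h7 h8 h9
              rw [hGζ, hG _ h4, hΓ2 t (not_lt.2 h9), hW1 t (not_lt.2 h9), h6, ← h8,
                stepW_top _ (hpq t), h7]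
            · obtain ⟨V, hV⟩ := q.lim ξ q.ζ h6 le_rfl
              refine ⟨insert u0 V, ?_⟩
              have h10 : ∀ᶠ t in atTop, p.γ t ≤ q.g ξ t := by
                rcases h5.eq_or_lt with h11 | h11
                · filter_upwards [p.top] with t h7
                  rw [h7, ← h.1.2.1 _ le_rfl, h11]
                · filter_upwards [p.top, q.mono p.ζ ξ h11 h4] with t h7 h8
                  rw [h7, ← h.1.2.1 _ le_rfl]
                  exact h8.le
              filter_upwards [hu0, q.top, eventually_ge_atTop i, hV, h10, q.mono ξ q.ζ h6 le_rfl]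
                with t h7 h8 h9 h11 h12 h13
              rw [hGζ, hG _ h4, hΓ2 t (not_lt.2 h9), hW1 t (not_lt.2 h9),
                stepW_of_ge _ h12 (by rw [h8]; exact h13), h7, h8, h11]
        · have h4 : ξ' ≤ q.ζ := (hζ' ξ').1 h3
          obtain ⟨V, hV⟩ := q.lim ξ ξ' h1 h4
          refine ⟨V, ?_⟩
          filter_upwards [hV, hGγ ξ' h4] with t h5 h6
          rw [hW2 t _ _ h6, hG _ h4, hG _ (h1.le.trans h4)]
          exact h5 }
  have hrq : LeI i r q := ⟨⟨hqζ.le, hG, hγle, hW2⟩, hΓ1⟩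
  refine ⟨r, hrq, ⟨IsPre.trans _ _ _ hrq.1 h.1, fun t ht => (hrq.2 t ht).trans (h.2 t ht)⟩,
    h.1.1.trans_lt hqζ, fun t ht => ⟨?_, ?_, ?_⟩⟩
  · show p.γ t < Γ t
    rw [hΓ2 t (not_lt.2 ht)]
    exact (hpq t).trans_lt (hqz t)
  · intro x hx
    show Wt t x (Γ t) = _
    rw [hΓ2 t (not_lt.2 ht), hW1 t (not_lt.2 ht), stepW_of_lt _ hx]
    exact h.1.2.2.2 t x _ le_rfl
  · intro x hx hx'
    show ∃ a ∈ Wt t x (Γ t), ν ≤ a
    have hx1 : x < Γ t := hx'
    rw [hΓ2 t (not_lt.2 ht)] at hx1 ⊢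
    rw [hW1 t (not_lt.2 ht)]
    refine ⟨U t, ?_, le_ubd _ _⟩
    rcases ((hz t x).1 hx1).eq_or_lt with h1 | h1
    · rw [h1, stepW_top _ (hpq t)]
      exact Finset.mem_singleton_self _
    · rw [stepW_of_ge _ hx h1]
      exact Finset.mem_insert_self _ _

end F61
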